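import Pool.Agent.P.MP_d10a06_co.GW.Base

set_option autoImplicit false

namespace Pool.Agent.P.MP_d10a06_co.GW

open Finset

namespace Asyaux

theorem MM_nonneg (m s : ℕ) : 0 ≤ MM m s := by unfold MM; positivity

theorem MM_mono {m t s : ℕ} (h : t ≤ s) (hs : 2 * s ≤ m) : MM m t ≤ MM m s := by
  induction s, h using Nat.le_induction with
  | base => exact le_rfl
  | succ s h ih =>
    refine (ih (by omega)).trans ?_
    unfold MM
    have : m.choose s ≤ m.choose (s + 1) := Nat.choose_le_succ_of_lt_half_left (by omega)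
    gcongr
    · norm_num
    · omega

theorem Bf_zero (R s : ℕ) (G : ℕ → ℕ → ℝ) (h : ∀ d j, G d j = 0) : Bf R s G = 0 := by
  induction s generalizing G with
  | zero => exact h 0 0
  | succ s ih => exact ih _ fun d j => sum_eq_zero fun a _ => h _ _

theorem gen (c : SCnt) (R n : ℕ) (G : ℕ → ℕ → ℕ → ℝ) (h : ∀ w d j, G w d j ≠ 0 → w ≤ d + n)
    (m : ℕ) : ∑ y ∈ Bx m R, G (nrm y) (df y) (n2 y) =
      ∑ t ∈ range (n + 1), MM m t * Bf R t fun d j => G (t + d) d j := by
  rw [c.box]
  trans ∑ t ∈ range (m + n + 1), MM m t * Bf R t fun d j => G (t + d) d j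
  · refine sum_subset (range_subset_range.2 (by omega)) fun t _ ht => ?_
    rw [MM, Nat.choose_eq_zero_of_lt (by simpa using ht)]
    simp
  · refine (sum_subset (range_subset_range.2 (by omega)) fun t _ ht => ?_).symm
    rw [Bf_zero, mul_zero]
    intro d j
    by_contra e
    have := h _ _ _ e
    simp at ht
    omega

theorem rem (B : ℕ → ℝ) (s : ℕ) : ∃ K : ℝ, 0 ≤ K ∧ ∀ m, 2 * s ≤ m →
    |∑ t ∈ range (s + 1), MM m t * B t| ≤ K * MM m s := by
  refine ⟨∑ t ∈ range (s + 1), |B t|, sum_nonneg fun _ _ => abs_nonneg _, fun m hm => ?_⟩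
  rw [sum_mul]
  refine (abs_sum_le_sum_abs _ _).trans (sum_le_sum fun t ht => ?_)
  rw [abs_mul, abs_of_nonneg (MM_nonneg _ _), mul_comm]
  exact mul_le_mul_of_nonneg_left (MM_mono (by simpa [Nat.lt_succ_iff] using ht) hm) (abs_nonneg _)

theorem ch2 (s : ℕ) : ((s + 1).choose 2 : ℝ) = (s + 1) * s / 2 := by
  rw [Nat.cast_choose_two]; push_cast; ring

theorem ch3 (s : ℕ) : ((s + 1).choose 3 : ℝ) = (s + 1) * s * (s - 1) / 6 := by
  induction s with
  | zero => simp [Nat.choose]
  | succ s ih => rw [Nat.choose_succ_succ' (s + 1) 2, Nat.cast_add, ih, ch2]; push_cast; ring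

/-- the shell function of weight, excess and number of twos -/
noncomputable def G0 (e W : ℕ) (g : ℕ → ℕ → ℝ) (w d j : ℕ) : ℝ :=
  if w ≤ W ∧ W ≤ w + e then g d j else 0

theorem G0_gt {e W : ℕ} {g : ℕ → ℕ → ℝ} {w d j : ℕ} (h : W < w) : G0 e W g w d j = 0 :=
  if_neg (by omega)

theorem G0_eq {e W : ℕ} {g : ℕ → ℕ → ℝ} {w d j : ℕ} (h : w = W) : G0 e W g w d j = g d j :=
  if_pos (by omega)

theorem G0_pre {e W : ℕ} {g : ℕ → ℕ → ℝ} {w d j : ℕ} (he : e ≤ 1) (h : w + 1 = W) :
    G0 e W g w d j = e * g d j := by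
  unfold G0
  interval_cases e
  · rw [if_neg (by omega)]; simp
  · rw [if_pos (by omega)]; simp

theorem G0_z {e W : ℕ} {g : ℕ → ℕ → ℝ} {w d j : ℕ} (h : g d j = 0) : G0 e W g w d j = 0 := by
  unfold G0; rw [h, ite_self]

theorem sh_sum (c : SCnt) (R e W : ℕ) (g : ℕ → ℕ → ℝ) (m : ℕ) : ∑ y ∈ Bx m R, sh e W g y =
    ∑ t ∈ range (W + 1), MM m t * Bf R t fun d j => G0 e W g (t + d) d j :=
  gen c R W (G0 e W g) (fun w d j h => by
    by_contra e'
    exact h (G0_gt (by omega))) m

/-- ball minus shallow part as a function of the weight -/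
noncomputable def G1 (e r w : ℕ) : ℝ :=
  (if w ≤ r ∧ (e = 1 ∨ w % 2 = r % 2) then 1 else 0) -
    if w + e ≤ r ∧ (e = 1 ∨ w % 2 = (r + 1) % 2) then 1 else 0

theorem G1_gt {e r w : ℕ} (h : r < w) : G1 e r w = 0 := by
  unfold G1; rw [if_neg (by omega), if_neg (by omega), sub_zero]

theorem G1_eq {e r w : ℕ} (h : w = r) : G1 e r w = 1 := by
  unfold G1; rw [if_pos (by omega), if_neg (by omega), sub_zero]

theorem G1_pre {e r w : ℕ} (he : e ≤ 1) (h : w + 1 = r) : G1 e r w = e - 1 := by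
  unfold G1
  interval_cases e
  · rw [if_neg (by omega), if_pos (by omega)]; simp
  · rw [if_pos (by omega), if_pos (by omega)]; simp

end Asyaux

open Asyaux in
theorem pAsy (c : SCnt) : SAsy where
  ratio m s := by
    unfold MM
    rcases le_or_gt s m with h | h
    · have := congrArg (Nat.cast : ℕ → ℝ) (Nat.choose_succ_right_eq m s)
      push_cast [h] at this
      linear_combination 2 * 2 ^ s * this
    · rw [Nat.choose_eq_zero_of_lt h, Nat.choose_eq_zero_of_lt (by omega)]; simp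
  low s := by
    refine ⟨1 / s.factorial, by positivity, fun m hm => ?_⟩
    have h1 : ((m + 1 - s : ℕ) ^ s : ℝ) / s.factorial ≤ m.choose s := Nat.pow_le_choose s m
    have h2 : (m : ℝ) ≤ (m + 1 - s : ℕ) * 2 := by exact_mod_cast (by omega)
    calc 1 / s.factorial * (m : ℝ) ^ s ≤ 1 / s.factorial * (((m + 1 - s : ℕ) : ℝ) * 2) ^ s := by
          gcongr
      _ = ((m + 1 - s : ℕ) ^ s : ℝ) / s.factorial * 2 ^ s := by rw [mul_pow]; ring
      _ ≤ _ := mul_le_mul_of_nonneg_right h1 (by positivity)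
  crude R s G h := by
    simp only [gen c R s G h]
    exact rem _ s
  shA e s g he h0 := by
    obtain ⟨K, hK, h⟩ := rem (fun t => Bf (2 * (s + 2) + 4) t fun d j =>
      G0 e (s + 2 + 1) g (t + d) d j) s
    refine ⟨K, hK, fun m hm => (le_of_eq ?_).trans (h m hm)⟩
    congr 1
    rw [sh_sum c, sum_range_succ, sum_range_succ, sum_range_succ,
      c.closed _ (s + 2 + 1) _ (by omega) fun d j hd => G0_gt (by omega),
      c.closed _ (s + 2) _ (by omega) fun d j hd => G0_gt (by omega),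
      c.closed _ (s + 1) _ (by omega) fun d j hd => G0_gt (by omega)]
    simp (disch := omega) only [G0_z h0, G0_gt, G0_eq, G0_pre he, ch2]
    push_cast
    ring
  shB e s g he h0 h1 h2 := by
    obtain ⟨K, hK, h⟩ := rem (fun t => Bf (2 * (s + 2) + 4) t fun d j =>
      G0 e (s + 2 + 2) g (t + d) d j) s
    refine ⟨K, hK, fun m hm => (le_of_eq ?_).trans (h m hm)⟩
    congr 1
    rw [sh_sum c, sum_range_succ, sum_range_succ, sum_range_succ, sum_range_succ,
      c.closed _ (s + 2 + 2) _ (by omega) fun d j hd => G0_gt (by omega),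
      c.closed _ (s + 2 + 1) _ (by omega) fun d j hd => G0_gt (by omega),
      c.closed _ (s + 2) _ (by omega) fun d j hd => G0_gt (by omega),
      c.closed _ (s + 1) _ (by omega) fun d j hd => G0_gt (by omega)]
    simp (disch := omega) only [G0_z h0, G0_z h1, G0_z h2, G0_gt, G0_eq, G0_pre he, ch2, ch3]
    push_cast
    ring
  deep e s he := by
    obtain ⟨K, hK, h⟩ := rem (fun t => Bf (2 * (s + 2) + 4) t fun d _ => G1 e (s + 2) (t + d)) s
    refine ⟨K, hK, fun m hm => (le_of_eq ?_).trans (h m hm)⟩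
    congr 1
    have := gen c (2 * (s + 2) + 4) (s + 2) (fun w _ _ => G1 e (s + 2) w) (fun w d j h => by
      by_contra e'
      exact h (G1_gt (by omega))) m
    rw [show (∑ y ∈ Bx m (2 * (s + 2) + 4), (ballF e (s + 2) y - shalF e (s + 2) y)) = _ from this,
      sum_range_succ, sum_range_succ,
      c.closed _ (s + 2) _ (by omega) fun d j hd => G1_gt (by omega),
      c.closed _ (s + 1) _ (by omega) fun d j hd => G1_gt (by omega)]
    simp (disch := omega) only [G1_gt, G1_eq, G1_pre he]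
    push_cast
    ring

end Pool.Agent.P.MP_d10a06_co.GW
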