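import Mathlib

set_option autoImplicit false

namespace Pool.Agent.P.MP_d10a06_co.GW

open Finset

abbrev V (m : ℕ) := Fin m → ℤ

variable {m : ℕ}

/-- Lee weight -/
def nrm (y : V m) : ℕ := ∑ i, (y i).natAbs
/-- weight minus support size -/
def df (y : V m) : ℕ := ∑ i, ((y i).natAbs - 1)
/-- number of coordinates equal to `2` or `-2` -/
def n2 (y : V m) : ℕ := ∑ i, if (y i).natAbs = 2 then 1 else 0
/-- support size -/
def sp (y : V m) : ℕ := ∑ i, if y i = 0 then 0 else 1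

noncomputable def Bx (m R : ℕ) : Finset (V m) :=
  Fintype.piFinset fun _ => Finset.Icc (-(R : ℤ)) R

/-- sum over the `2 m + e` directions -/
noncomputable def DS (e : ℕ) (f : V m → ℝ) : ℝ :=
  e * f 0 + ∑ i, (f (Pi.single i 1) + f (Pi.single i (-1)))

/-- a function of the type of `y`, restricted to the shell `W` -/
noncomputable def sh (e W : ℕ) (g : ℕ → ℕ → ℝ) (y : V m) : ℝ :=
  if nrm y ≤ W ∧ W ≤ nrm y + e then g (df y) (n2 y) else 0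

/-- indicator of the Lee ball -/
noncomputable def bl (r : ℕ) (y : V m) : ℝ := if nrm y ≤ r then 1 else 0

noncomputable def ballF (e r : ℕ) (y : V m) : ℝ :=
  if nrm y ≤ r ∧ (e = 1 ∨ nrm y % 2 = r % 2) then 1 else 0
noncomputable def shalF (e r : ℕ) (y : V m) : ℝ :=
  if nrm y + e ≤ r ∧ (e = 1 ∨ nrm y % 2 = (r + 1) % 2) then 1 else 0

noncomputable def T2 (r : ℕ) (x : V m) : ℝ := DS 0 fun u => bl r (x - (u + u))
noncomputable def Y3 (r : ℕ) (y : V m) : ℝ :=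
  if nrm y ≤ r + 2 ∧ ∃ i, 3 ≤ (y i).natAbs then 1 else 0
/-- weight at most `w`, excess at least `d` -/
noncomputable def PP (w d : ℕ) (p : V m) : ℝ := if nrm p ≤ w ∧ d ≤ df p then 1 else 0

noncomputable def MM (m s : ℕ) : ℝ := (m.choose s : ℝ) * 2 ^ s

noncomputable def Bf (R : ℕ) : ℕ → (ℕ → ℕ → ℝ) → ℝ
  | 0, G => G 0 0
  | s + 1, G => Bf R s fun d j => ∑ a ∈ range R, G (d + a) (j + if a = 1 then 1 else 0)

/-- sum over the splittings of a list of multiplicities; the arguments of `F` are the weight,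
excess and number of twos of the lower part, then excess and number of twos of the upper part -/
def Tl {α : Type} [AddCommMonoid α] : List ℕ → (ℕ → ℕ → ℕ → ℕ → ℕ → α) → α
  | [], F => F 0 0 0 0 0
  | a :: l, F => ((List.range (a + 1)).map fun b => Tl l fun w d j d' j' =>
      F (w + b) (d + (b - 1)) (j + if b = 2 then 1 else 0) (d' + (a - b - 1))
        (j' + if a - b = 2 then 1 else 0)).sum

/-- the absolute values of the coordinates that are at least `2` -/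
def cl (x : V m) : List ℕ := (List.ofFn fun i => (x i).natAbs).filter fun a => 2 ≤ a

def ch (Q W w : ℕ) : ℕ := if w ≤ W then Q.choose (W - w) else 0

def psi (θ : ℚ) (d j : ℕ) : ℚ := if d = 1 then 1 else if d = 2 then (if j = 2 then 2 else θ) else 0
def one1 (d : ℕ) (_ : ℕ) : ℚ := if d = 1 then 1 else 0
def bet (b22 b33 b31 b30 L : ℚ) (d j : ℕ) : ℚ :=
  if d = 2 then (if j = 2 then b22 else 0)
  else if d = 3 then (if j = 3 then b33 else if j = 1 then b31 else b30)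
  else if 4 ≤ d then L else 0
/-- real cast of a rational type function -/
noncomputable def rc (g : ℕ → ℕ → ℚ) (d j : ℕ) : ℝ := (g d j : ℝ)

noncomputable def sig (e r : ℕ) (g : ℕ → ℕ → ℚ) (x : V m) : ℝ :=
  ∑ y ∈ Bx m (2 * r + 4), sh e (r + 1) (rc g) y * sh e (r + 1) (rc g) (x - y)
noncomputable def tau (e r : ℕ) (b : ℕ → ℕ → ℚ) (x : V m) : ℝ :=
  ∑ p ∈ Bx m (2 * r + 4), sh e (r + 2) (rc b) p * bl r (x - p)

def Bd {X : Type} (f : X → ℝ) : Prop := ∃ B, ∀ x, |f x| ≤ B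

structure IsMean (μ : (V m → ℝ) → ℝ) : Prop where
  add : ∀ f g, Bd f → Bd g → μ (fun x => f x + g x) = μ f + μ g
  smul : ∀ (c : ℝ) f, Bd f → μ (fun x => c * f x) = c * μ f
  mono : ∀ f g, Bd f → Bd g → (∀ x, f x ≤ g x) → μ f ≤ μ g
  one : μ (fun _ => 1) = 1
  shift : ∀ f a, Bd f → μ (fun x => f (x + a)) = μ f

/-! ## basic facts -/

theorem nrm_add_le (x y : V m) : nrm (x + y) ≤ nrm x + nrm y := by
  unfold nrm
  rw [← Finset.sum_add_distrib]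
  exact Finset.sum_le_sum fun i _ => Int.natAbs_add_le _ _

@[simp] theorem nrm_neg (x : V m) : nrm (-x) = nrm x := by simp [nrm]
@[simp] theorem df_neg (x : V m) : df (-x) = df x := by simp [df]
@[simp] theorem n2_neg (x : V m) : n2 (-x) = n2 x := by simp [n2]
@[simp] theorem nrm_zero : nrm (0 : V m) = 0 := by simp [nrm]
@[simp] theorem df_zero : df (0 : V m) = 0 := by simp [df]

theorem nrm_sub_comm (x y : V m) : nrm (x - y) = nrm (y - x) := by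
  rw [← nrm_neg, neg_sub]

theorem nrm_sub_le (x y : V m) : nrm (x - y) ≤ nrm x + nrm y := by
  have := nrm_add_le x (-y)
  rwa [nrm_neg, ← sub_eq_add_neg] at this

theorem nrm_tri (x y z : V m) : nrm (x - z) ≤ nrm (x - y) + nrm (y - z) := by
  have := nrm_add_le (x - y) (y - z)
  rwa [sub_add_sub_cancel] at this

theorem nrm_add_mod (x y : V m) : nrm (x + y) % 2 = (nrm x + nrm y) % 2 := by
  unfold nrm
  rw [← Finset.sum_add_distrib, Finset.sum_nat_mod, Finset.sum_nat_mod _ _ fun i =>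
    (x i).natAbs + (y i).natAbs]
  congr 1
  refine Finset.sum_congr rfl fun i _ => ?_
  simp only [Pi.add_apply]
  omega

theorem nrm_sub_mod (x y : V m) : nrm (x - y) % 2 = (nrm x + nrm y) % 2 := by
  rw [sub_eq_add_neg, nrm_add_mod, nrm_neg]

theorem nrm_eq_zero {x : V m} (h : nrm x = 0) : x = 0 := by
  funext i
  have := (Finset.sum_eq_zero_iff.1 h) i (Finset.mem_univ _)
  simpa using this

theorem nrm_eq_sp_add_df (y : V m) : nrm y = sp y + df y := by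
  unfold nrm sp df
  rw [← Finset.sum_add_distrib]
  refine Finset.sum_congr rfl fun i _ => ?_
  split_ifs with h <;> omega

theorem natAbs_le_nrm (y : V m) (i : Fin m) : (y i).natAbs ≤ nrm y :=
  Finset.single_le_sum (f := fun i => (y i).natAbs) (fun _ _ => Nat.zero_le _) (Finset.mem_univ i)

theorem nrm_single (i : Fin m) (s : ℤ) : nrm (Pi.single i s : V m) = s.natAbs := by
  unfold nrm
  rw [Finset.sum_eq_single i (fun j _ hj => by simp [Pi.single_eq_of_ne hj]) (by simp)]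
  simp

/-- changing one coordinate in a sum over coordinates -/
theorem sum_sub_single (f : ℤ → ℕ) (y : V m) (i : Fin m) (s : ℤ) :
    (∑ j, f ((y - Pi.single i s : V m) j)) + f (y i) = (∑ j, f (y j)) + f (y i - s) := by
  rw [← Finset.add_sum_erase _ _ (Finset.mem_univ i), ← Finset.add_sum_erase _ (fun j => f (y j))
    (Finset.mem_univ i)]
  have : ∑ j ∈ univ.erase i, f ((y - Pi.single i s : V m) j) = ∑ j ∈ univ.erase i, f (y j) :=
    Finset.sum_congr rfl fun j hj => by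
      simp [Pi.single_eq_of_ne (Finset.ne_of_mem_erase hj)]
  rw [this]
  simp only [Pi.sub_apply, Pi.single_eq_same]
  omega

theorem nrm_sub_single (y : V m) (i : Fin m) (s : ℤ) :
    nrm (y - Pi.single i s) + (y i).natAbs = nrm y + (y i - s).natAbs :=
  sum_sub_single Int.natAbs y i s

theorem df_sub_single (y : V m) (i : Fin m) (s : ℤ) :
    df (y - Pi.single i s) + ((y i).natAbs - 1) = df y + ((y i - s).natAbs - 1) :=
  sum_sub_single (fun a => a.natAbs - 1) y i s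

theorem mem_Bx {R : ℕ} {y : V m} : y ∈ Bx m R ↔ ∀ i, (y i).natAbs ≤ R := by
  simp only [Bx, Fintype.mem_piFinset, Finset.mem_Icc]
  exact forall_congr' fun i => by omega

theorem mem_Bx_of_nrm {R : ℕ} {y : V m} (h : nrm y ≤ R) : y ∈ Bx m R :=
  mem_Bx.2 fun i => (natAbs_le_nrm y i).trans h

/-- reindexing a sum over the box by a bijection -/
theorem sum_Bx_equiv {R : ℕ} (f : V m → ℝ) (φ : V m ≃ V m)
    (h : ∀ y, f (φ y) ≠ 0 → nrm y ≤ R ∧ nrm (φ y) ≤ R) :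
    ∑ y ∈ Bx m R, f (φ y) = ∑ y ∈ Bx m R, f y := by
  refine Finset.sum_bij_ne_zero (fun y _ _ => φ y) (fun y _ hy => mem_Bx_of_nrm (h y hy).2)
    (fun _ _ _ _ _ _ he => φ.injective he) (fun z _ hz => ?_) (fun _ _ _ => rfl)
  have hz' : f (φ (φ.symm z)) ≠ 0 := by simpa using hz
  exact ⟨φ.symm z, mem_Bx_of_nrm (h _ hz').1, hz', by simp⟩

theorem sh_neg (e W : ℕ) (g : ℕ → ℕ → ℝ) (y : V m) : sh e W g (-y) = sh e W g y := by
  simp [sh]

theorem sh_ne {e W : ℕ} {g : ℕ → ℕ → ℝ} {y : V m} (h : sh e W g y ≠ 0) :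
    nrm y ≤ W ∧ W ≤ nrm y + e ∧ g (df y) (n2 y) ≠ 0 := by
  unfold sh at h
  split_ifs at h with h1
  · exact ⟨h1.1, h1.2, h⟩
  · exact absurd rfl h

/-! ## statements of the packages -/

def SMean : Prop := ∀ m, ∃ μ : (V m → ℝ) → ℝ, IsMean μ

structure SCnt : Prop where
  box : ∀ (m R : ℕ) (G : ℕ → ℕ → ℕ → ℝ), ∑ y ∈ Bx m R, G (nrm y) (df y) (n2 y) =
    ∑ s ∈ range (m + 1), MM m s * Bf R s fun d j => G (s + d) d j
  closed : ∀ (R s : ℕ) (G : ℕ → ℕ → ℝ), 4 ≤ R → (∀ d j, 4 ≤ d → G d j = 0) →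
    Bf R s G = G 0 0 + s * G 1 1 + s * G 2 0 + (s.choose 2 : ℝ) * G 2 2 + s * G 3 0 +
      s * (s - 1) * G 3 1 + (s.choose 3 : ℝ) * G 3 3
  ball : ∀ (m R r : ℕ), r ≤ R → ∑ y ∈ Bx m R, ballF 1 r y =
    ((∑ i ∈ range (r + 1), m.choose i * r.choose i * 2 ^ i : ℕ) : ℝ)
  par : ∀ (m R r : ℕ), r ≤ R → 2 * ∑ y ∈ Bx (m + 1) R, ballF 0 r y =
    ((∑ i ∈ range (r + 1), m.choose i * (r + 1).choose (i + 1) * 2 ^ (i + 1) : ℕ) : ℝ)

structure SAsy : Prop where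
  ratio : ∀ m s : ℕ, MM m (s + 1) * (s + 1) = 2 * ((m : ℝ) - s) * MM m s
  low : ∀ s : ℕ, ∃ c : ℝ, 0 < c ∧ ∀ m, 2 * s ≤ m → c * (m : ℝ) ^ s ≤ MM m s
  crude : ∀ (R s : ℕ) (G : ℕ → ℕ → ℕ → ℝ), (∀ w d j, G w d j ≠ 0 → w ≤ d + s) →
    ∃ K : ℝ, 0 ≤ K ∧ ∀ m, 2 * s ≤ m → |∑ y ∈ Bx m R, G (nrm y) (df y) (n2 y)| ≤ K * MM m s
  shA : ∀ (e s : ℕ) (g : ℕ → ℕ → ℝ), e ≤ 1 → g 0 0 = 0 →
    ∃ K : ℝ, 0 ≤ K ∧ ∀ m, 2 * s ≤ m → |∑ y ∈ Bx m (2 * (s + 2) + 4), sh e (s + 2 + 1) g y -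
      (s + 2) * g 1 1 * MM m (s + 2) -
      ((s + 1) * g 2 0 + (s + 1) * s / 2 * g 2 2 + e * (s + 1) * g 1 1) * MM m (s + 1)| ≤
        K * MM m s
  shB : ∀ (e s : ℕ) (g : ℕ → ℕ → ℝ), e ≤ 1 → g 0 0 = 0 → g 1 1 = 0 → g 2 0 = 0 →
    ∃ K : ℝ, 0 ≤ K ∧ ∀ m, 2 * s ≤ m → |∑ y ∈ Bx m (2 * (s + 2) + 4), sh e (s + 2 + 2) g y -
      (s + 2) * (s + 1) / 2 * g 2 2 * MM m (s + 2) -
      ((s + 1) * g 3 0 + (s + 1) * s * g 3 1 + (s + 1) * s * (s - 1) / 6 * g 3 3 +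
        e * ((s + 1) * s / 2 * g 2 2)) * MM m (s + 1)| ≤ K * MM m s
  deep : ∀ e s : ℕ, e ≤ 1 →
    ∃ K : ℝ, 0 ≤ K ∧ ∀ m, 2 * s ≤ m →
      |∑ y ∈ Bx m (2 * (s + 2) + 4), (ballF e (s + 2) y - shalF e (s + 2) y) -
        MM m (s + 2) - (s + e) * MM m (s + 1)| ≤ K * MM m s

def SSplit : Prop := ∀ (m e N R W W' : ℕ) (g g' : ℕ → ℕ → ℝ) (x : V m), e ≤ 1 → W + W' = N →
  N ≤ R → nrm x ≤ N → N ≤ nrm x + e →
  ∑ y ∈ Bx m R, sh e W g y * sh e W' g' (x - y) =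
    Tl (cl x) fun w d j d' j' => (ch (N - (cl x).sum) W w : ℝ) * (g d j * g' d' j')

structure SGeo : Prop where
  sub : ∀ (m : ℕ) (x : V m) (w d : ℕ), 2 * d ≤ w → w ≤ nrm x → d ≤ df x →
    ∃ p : V m, nrm p = w ∧ nrm (x - p) + w ≤ nrm x ∧ d ≤ df p
  card : ∀ (m R : ℕ) (x : V m),
    ((Bx m R).filter fun y => nrm y + nrm (x - y) ≤ nrm x).card ≤ 2 ^ nrm x
  three : ∀ (m r : ℕ) (x : V m), 4 ≤ r → 2 * r + 1 ≤ nrm x →
    ∑ y ∈ Bx m (2 * r + 4), Y3 r y * Y3 r (x - y) ≤ 2 ^ (2 * r + 4) *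
      (∑ p ∈ Bx m (2 * r + 4), PP (r + 4) 4 p * bl r (x - p) +
        2 * m * ∑ p ∈ Bx m (2 * r + 4), PP (r + 2) 3 p * bl r (x - p))

structure SDir : Prop where
  k1 : ∀ (m e r : ℕ) (y : V m), e ≤ 1 → r + 1 ≤ nrm y + e →
    DS e (fun u => bl r (y - u)) = sh e (r + 1) (fun d _ => (r : ℝ) + 1 - d) y
  k2 : ∀ (m e r : ℕ) (x : V m), e ≤ 1 → r + 2 ≤ nrm x + e →
    DS e (fun u => sh e (r + 1) (fun d _ => (d : ℝ)) (x - u)) ≤ r * T2 r x + (r + 2) ^ 2 * Y3 r x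
  k3 : ∀ (m e r : ℕ) (x : V m), nrm x ≤ r → df x = 0 →
    DS e (fun u => sh e (r + 1) (fun d _ => (d : ℝ)) (x - u)) ≤ 2 * r
  k4 : ∀ (m e r : ℕ) (x : V m), e ≤ 1 → nrm x ≤ r → r ≤ nrm x + e →
    DS e (fun u => if nrm (x - u) + e ≤ r then (1 : ℝ) else 0) ≤ r + 1
  k5 : ∀ (m e r : ℕ) (y : V m), sh e (r + 1) (rc one1) y ≤
    DS 0 fun u => sh e r (fun d _ => if d = 0 then (1 : ℝ) else 0) (y - u)
  k6 : ∀ (m r : ℕ) (p : V m), nrm p ≤ r + 2 → 1 ≤ df p → 1 ≤ T2 r p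

/-- upper certificates -/
def SCertU : Prop := ∀ (r : ℕ) (θ : ℚ), 4 ≤ r → (θ = 2 ∨ θ = (3 - r) / 2) →
  ∃ b33 b31 b30 L : ℚ, 2 * r / (r - 1) ≤ L ∧ |b33| ≤ L ∧ |b31| ≤ L ∧ |b30| ≤ L ∧
    (r - 1) * b30 + (r - 1) * (r - 2) * b31 + (r - 1) * (r - 2) * (r - 3) / 6 * b33 ≤
      r * (r - 1) * (2 * θ + r - 4) + 11 / 4 ∧
    ∀ (m e : ℕ) (x : V m), e ≤ 1 → 2 * r + 2 ≤ nrm x + e →
      sig e r (psi θ) x ≤ tau e r (bet (2 * r / (r - 1)) b33 b31 b30 L) x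

/-- lower certificate -/
def SCertL : Prop := ∀ r : ℕ, 4 ≤ r → ∃ L : ℚ, 2 * r / (r - 1) ≤ L ∧
  ∀ (m e : ℕ) (x : V m), e ≤ 1 → 2 * r + 2 ≤ nrm x + e →
    tau e r (bet (2 * r / (r - 1)) (-L) (-L) (-L) (-L)) x ≤ sig e r one1 x

end Pool.Agent.P.MP_d10a06_co.GW
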