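import Pool.Agent.P.MP_d10a06_co.GW.Base

set_option autoImplicit false

namespace Pool.Agent.P.MP_d10a06_co.GW

open Finset

namespace CertLaux

theorem filt_sum (l : List ℕ) :
    ((l.filter fun a => 2 ≤ a).map fun a => a - 1).sum = (l.map fun a => a - 1).sum := by
  induction l with
  | nil => rfl
  | cons a l ih =>
    by_cases h : 2 ≤ a
    · rw [List.filter_cons_of_pos (by simpa using h)]
      simp only [List.map_cons, List.sum_cons, ih]
    · rw [List.filter_cons_of_neg (by simpa using h)]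
      simp only [List.map_cons, List.sum_cons, ih]
      omega

theorem df_eq {m : ℕ} (x : V m) : ((cl x).map fun a => a - 1).sum = df x := by
  unfold cl df
  rw [filt_sum, List.map_ofFn, List.sum_ofFn]
  rfl

theorem cl_ge {m : ℕ} (x : V m) : ∀ a ∈ cl x, 2 ≤ a := by
  intro a ha
  unfold cl at ha
  simpa using (List.mem_filter.1 ha).2

theorem list_cases (l : List ℕ) (h : ∀ a ∈ l, 2 ≤ a) (hs : (l.map fun a => a - 1).sum ≤ 2) :
    l = [] ∨ l = [2] ∨ l = [3] ∨ l = [2, 2] := by
  match l, h, hs with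
  | [], _, _ => exact Or.inl rfl
  | [a], h, hs =>
    have h1 := h a (by simp)
    simp only [List.map_cons, List.map_nil, List.sum_cons, List.sum_nil] at hs
    have : a = 2 ∨ a = 3 := by omega
    rcases this with rfl | rfl <;> simp
  | [a, b], h, hs =>
    have h1 := h a (by simp)
    have h2 := h b (by simp)
    simp only [List.map_cons, List.map_nil, List.sum_cons, List.sum_nil] at hs
    have ha : a = 2 := by omega
    have hb : b = 2 := by omega
    subst ha hb
    simp
  | a :: b :: c :: l, h, hs =>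
    have h1 := h a (by simp)
    have h2 := h b (by simp)
    have h3 := h c (by simp)
    simp only [List.map_cons, List.sum_cons] at hs
    omega

theorem sig_nonneg {m : ℕ} (e r : ℕ) (x : V m) : 0 ≤ sig e r one1 x := by
  have h : ∀ y : V m, 0 ≤ sh e (r + 1) (rc one1) y := by
    intro y
    unfold sh rc one1
    split_ifs <;> simp
  exact Finset.sum_nonneg fun y _ => mul_nonneg (h _) (h _)

theorem nrm_le_add {m : ℕ} (x p : V m) : nrm x ≤ nrm p + nrm (x - p) := by
  have := nrm_add_le p (x - p)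
  rwa [add_sub_cancel] at this

theorem nrm_mod {m : ℕ} (x p : V m) : nrm x % 2 = (nrm p + nrm (x - p)) % 2 := by
  have := nrm_add_mod p (x - p)
  rwa [add_sub_cancel] at this

theorem bet_le (b L : ℚ) (hb : 0 ≤ b) (hL : 0 ≤ L) (d j : ℕ) :
    bet b (-L) (-L) (-L) (-L) d j ≤ b := by
  unfold bet
  split_ifs <;> linarith

theorem bet_deep (b L : ℚ) (d j : ℕ) (hd : 3 ≤ d) : bet b (-L) (-L) (-L) (-L) d j = -L := by
  unfold bet
  split_ifs <;> first | rfl | omega

theorem tau_far {m : ℕ} (e r : ℕ) (b : ℕ → ℕ → ℚ) (x : V m) (hx : 2 * r + 2 < nrm x) :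
    tau e r b x = 0 := by
  unfold tau
  refine Finset.sum_eq_zero fun p _ => ?_
  have := nrm_le_add x p
  unfold sh bl
  split_ifs with h1 h2
  · omega
  · simp
  · simp
  · simp

theorem tau_deep (g : SGeo) {m : ℕ} (e r : ℕ) (hr : 4 ≤ r) (he : e ≤ 1) (b : ℚ) (hb : 0 ≤ b)
    (x : V m) (hx : 2 * r + 2 ≤ nrm x + e) (hx' : nrm x ≤ 2 * r + 2) (hd : 3 ≤ df x) :
    tau e r (bet b (-(2 ^ (2 * r + 2) * b)) (-(2 ^ (2 * r + 2) * b)) (-(2 ^ (2 * r + 2) * b))
      (-(2 ^ (2 * r + 2) * b))) x ≤ 0 := by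
  classical
  set L : ℚ := 2 ^ (2 * r + 2) * b with hL
  have hL0 : 0 ≤ L := by positivity
  obtain ⟨p₀, hp1, hp2, hp3⟩ := g.sub m x (r + 2) 3 (by omega) (by omega) hd
  have hmem : p₀ ∈ Bx m (2 * r + 4) := mem_Bx_of_nrm (by omega)
  have hbR : (0 : ℝ) ≤ (b : ℝ) := by exact_mod_cast hb
  have key : ∀ p ∈ Bx m (2 * r + 4),
      sh e (r + 2) (rc (bet b (-L) (-L) (-L) (-L))) p * bl r (x - p) ≤
        (if nrm p + nrm (x - p) ≤ nrm x then (b : ℝ) else 0) +
          (if p = p₀ then -(L : ℝ) else 0) := by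
    intro p _
    by_cases hp : p = p₀
    · subst hp
      have h1 : nrm p ≤ r + 2 ∧ r + 2 ≤ nrm p + e := by omega
      have h2 : nrm (x - p) ≤ r := by omega
      have h3 : nrm p + nrm (x - p) ≤ nrm x := by omega
      unfold sh bl rc
      rw [if_pos h1, if_pos h2, if_pos h3, if_pos rfl, bet_deep b L _ _ hp3]
      push_cast
      linarith
    · rw [if_neg hp, add_zero]
      have hm := nrm_mod x p
      unfold sh bl
      by_cases h1 : nrm p ≤ r + 2 ∧ r + 2 ≤ nrm p + e
      · by_cases h2 : nrm (x - p) ≤ r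
        · have h3 : nrm p + nrm (x - p) ≤ nrm x := by omega
          rw [if_pos h1, if_pos h2, if_pos h3, mul_one]
          unfold rc
          exact_mod_cast bet_le b L hb hL0 _ _
        · rw [if_neg h2, mul_zero]
          split_ifs
          · exact hbR
          · exact le_rfl
      · rw [if_neg h1, zero_mul]
        split_ifs
        · exact hbR
        · exact le_rfl
  unfold tau
  refine (Finset.sum_le_sum key).trans ?_
  rw [Finset.sum_add_distrib, Finset.sum_ite_eq', if_pos hmem, ← Finset.sum_filter,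
    Finset.sum_const, nsmul_eq_mul]
  have hc := g.card m (2 * r + 4) x
  have hc2 : 2 ^ nrm x ≤ 2 ^ (2 * r + 2) := Nat.pow_le_pow_right (by norm_num) hx'
  have hc3 : (((Bx m (2 * r + 4)).filter fun y => nrm y + nrm (x - y) ≤ nrm x).card : ℝ) ≤
      2 ^ (2 * r + 2) := by exact_mod_cast hc.trans hc2
  have := mul_le_mul_of_nonneg_right hc3 hbR
  rw [hL]
  push_cast
  linarith

theorem tau_split (s : SSplit) {m : ℕ} (e r : ℕ) (he : e ≤ 1) (b : ℕ → ℕ → ℚ)
    (x : V m) (hx : 2 * r + 2 ≤ nrm x + e) (hx' : nrm x ≤ 2 * r + 2) :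
    tau e r b x = Tl (cl x) fun w d j _ _ =>
      (ch (2 * r + 2 - (cl x).sum) (r + 2) w : ℝ) * (rc b d j * 1) := by
  rw [← s m e (2 * r + 2) (2 * r + 4) (r + 2) r (rc b) (fun _ _ => 1) x he (by omega) (by omega)
    hx' hx]
  unfold tau
  refine Finset.sum_congr rfl fun p _ => ?_
  have hn := nrm_le_add x p
  unfold sh bl
  by_cases h1 : nrm p ≤ r + 2 ∧ r + 2 ≤ nrm p + e
  · by_cases h2 : nrm (x - p) ≤ r
    · have h3 : nrm (x - p) ≤ r ∧ r ≤ nrm (x - p) + e := by omega
      rw [if_pos h2, if_pos h3]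
    · have h3 : ¬ (nrm (x - p) ≤ r ∧ r ≤ nrm (x - p) + e) := by omega
      rw [if_neg h2, if_neg h3]
  · rw [if_neg h1, zero_mul, zero_mul]

theorem sig_split (s : SSplit) {m : ℕ} (e r : ℕ) (he : e ≤ 1) (g : ℕ → ℕ → ℚ)
    (x : V m) (hx : 2 * r + 2 ≤ nrm x + e) (hx' : nrm x ≤ 2 * r + 2) :
    sig e r g x = Tl (cl x) fun w d j d' j' =>
      (ch (2 * r + 2 - (cl x).sum) (r + 1) w : ℝ) * (rc g d j * rc g d' j') :=
  s m e (2 * r + 2) (2 * r + 4) (r + 1) (r + 1) (rc g) (rc g) x he (by omega) (by omega) hx' hx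

theorem binom (n : ℕ) : ((2 * n + 6).choose (n + 2) : ℝ) * (2 * (n + 4) / (n + 3)) =
    2 * ((2 * n + 6).choose (n + 3) : ℝ) := by
  have h := Nat.choose_succ_right_eq (2 * n + 6) (n + 2)
  have h2 : 2 * n + 6 - (n + 2) = n + 4 := by omega
  rw [h2] at h
  have h3 : ((2 * n + 6).choose (n + 3) : ℝ) * (n + 3) =
      ((2 * n + 6).choose (n + 2) : ℝ) * (n + 4) := by exact_mod_cast h
  have h4 : (n : ℝ) + 3 ≠ 0 := by positivity
  field_simp
  linarith

end CertLaux

open CertLaux in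
theorem pCertL (s : SSplit) (g : SGeo) : SCertL := by
  intro r hr
  have hb : (0 : ℚ) ≤ 2 * r / (r - 1) := by
    have : (4 : ℚ) ≤ r := by exact_mod_cast hr
    exact div_nonneg (by linarith) (by linarith)
  refine ⟨2 ^ (2 * r + 2) * (2 * r / (r - 1)), ?_, ?_⟩
  · have : (1 : ℚ) ≤ 2 ^ (2 * r + 2) := one_le_pow₀ (by norm_num)
    nlinarith
  intro m e x he hx
  by_cases hfar : 2 * r + 2 < nrm x
  · rw [tau_far e r _ x hfar]
    exact sig_nonneg e r x
  have hx' : nrm x ≤ 2 * r + 2 := by omega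
  by_cases hd : 3 ≤ df x
  · exact (tau_deep g e r hr he _ hb x hx hx' hd).trans (sig_nonneg e r x)
  generalize (2 : ℚ) ^ (2 * r + 2) * (2 * r / (r - 1)) = L
  have hl := list_cases (cl x) (cl_ge x) (by rw [df_eq]; omega)
  have h0 := sig_nonneg e r x
  rcases hl with hl | hl | hl | hl
  · refine le_trans (le_of_eq ?_) h0
    rw [tau_split s e r he _ x hx hx', hl]
    simp [Tl, rc, bet]
  · refine le_trans (le_of_eq ?_) h0
    rw [tau_split s e r he _ x hx hx', hl]
    simp [Tl, rc, bet, List.range_succ]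
  · refine le_trans (le_of_eq ?_) h0
    rw [tau_split s e r he _ x hx hx', hl]
    simp [Tl, rc, bet, List.range_succ]
  · rw [tau_split s e r he _ x hx hx', sig_split s e r he _ x hx hx', hl]
    obtain ⟨n, rfl⟩ : ∃ n, r = n + 4 := ⟨r - 4, by omega⟩
    have hb := binom n
    have e1 : 2 * (n + 4) + 2 - 4 = 2 * n + 6 := by omega
    have e2 : ch (2 * n + 6) (n + 4 + 2) 4 = (2 * n + 6).choose (n + 2) := by
      unfold ch
      rw [if_pos (by omega)]
      congr 1
    have e3 : ch (2 * n + 6) (n + 4 + 1) 2 = (2 * n + 6).choose (n + 3) := by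
      unfold ch
      rw [if_pos (by omega)]
      congr 1
    have e4 : [2, 2].sum = 4 := rfl
    rw [e4, e1]
    simp [Tl, rc, bet, one1, List.range_succ, e2, e3]
    have e5 : ((n : ℝ) + 4 - 1) = n + 3 := by ring
    rw [e5]
    linarith

end Pool.Agent.P.MP_d10a06_co.GW
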