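import Pool.Agent.P.MP_d10a06_co.GW.Base

set_option autoImplicit false

namespace Pool.Agent.P.MP_d10a06_co.GW

open Finset

namespace CertUaux

variable {m : ℕ}

theorem cast_Tl (l : List ℕ) (F : ℕ → ℕ → ℕ → ℕ → ℕ → ℚ) :
    ((Tl l F : ℚ) : ℝ) = Tl l fun w d j d' j' => (F w d j d' j' : ℝ) := by
  induction l generalizing F with
  | nil => rfl
  | cons a l ih =>
    simp only [Tl, Rat.cast_list_sum, List.map_map]
    congr 1
    refine List.map_congr_left fun b _ => ?_
    simp only [Function.comp]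
    rw [ih]

def sigL (r : ℕ) (θ : ℚ) (l : List ℕ) : ℚ :=
  Tl l fun w d j d' j' => (ch (2 * r + 2 - l.sum) (r + 1) w : ℚ) * (psi θ d j * psi θ d' j')

def tauL (r : ℕ) (b : ℕ → ℕ → ℚ) (l : List ℕ) : ℚ :=
  Tl l fun w d j _ _ => (ch (2 * r + 2 - l.sum) (r + 2) w : ℚ) * b d j

theorem sig_eq (s : SSplit) (e r : ℕ) (θ : ℚ) (x : V m) (he : e ≤ 1) (h1 : nrm x ≤ 2 * r + 2)
    (h2 : 2 * r + 2 ≤ nrm x + e) : sig e r (psi θ) x = (sigL r θ (cl x) : ℝ) := by
  unfold sig sigL
  rw [s m e (2 * r + 2) (2 * r + 4) (r + 1) (r + 1) _ _ x he (by omega) (by omega) h1 h2, cast_Tl]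
  congr 1
  funext w d j d' j'
  simp [rc]

theorem tau_eq (s : SSplit) (e r : ℕ) (b : ℕ → ℕ → ℚ) (x : V m) (he : e ≤ 1)
    (h1 : nrm x ≤ 2 * r + 2) (h2 : 2 * r + 2 ≤ nrm x + e) :
    tau e r b x = (tauL r b (cl x) : ℝ) := by
  have key : tau e r b x =
      ∑ p ∈ Bx m (2 * r + 4), sh e (r + 2) (rc b) p * sh e r (fun _ _ => 1) (x - p) := by
    unfold tau
    refine Finset.sum_congr rfl fun p _ => ?_
    by_cases h : sh e (r + 2) (rc b) p = 0
    · rw [h, zero_mul, zero_mul]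
    · have h3 := (sh_ne h).1
      have h4 := nrm_add_le p (x - p)
      rw [add_sub_cancel] at h4
      congr 1
      unfold bl sh
      by_cases h5 : nrm (x - p) ≤ r
      · rw [if_pos h5, if_pos ⟨h5, by omega⟩]
      · rw [if_neg h5, if_neg fun h6 => h5 h6.1]
  rw [key]
  unfold tauL
  rw [s m e (2 * r + 2) (2 * r + 4) (r + 2) r _ _ x he (by omega) (by omega) h1 h2, cast_Tl]
  congr 1
  funext w d j d' j'
  simp [rc]

theorem far (e r : ℕ) (g b : ℕ → ℕ → ℚ) (x : V m) (h : 2 * r + 2 < nrm x) :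
    sig e r g x ≤ tau e r b x := by
  have h1 : sig e r g x = 0 := by
    refine Finset.sum_eq_zero fun y _ => ?_
    by_contra h0
    have h3 := (sh_ne (left_ne_zero_of_mul h0)).1
    have h4 := (sh_ne (right_ne_zero_of_mul h0)).1
    have h5 := nrm_add_le y (x - y)
    rw [add_sub_cancel] at h5
    omega
  have h2 : tau e r b x = 0 := by
    refine Finset.sum_eq_zero fun p _ => ?_
    by_contra h0
    have h3 := (sh_ne (left_ne_zero_of_mul h0)).1
    have h4 := right_ne_zero_of_mul h0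
    have h5 := nrm_add_le p (x - p)
    rw [add_sub_cancel] at h5
    unfold bl at h4
    split_ifs at h4 with h6
    · omega
    · exact h4 rfl
  rw [h1, h2]

/-! ## the list of a point -/

theorem cl_two (x : V m) : ∀ a ∈ cl x, 2 ≤ a := fun a ha => by
  simpa using (List.mem_filter.1 ha).2

theorem filter_sum (l : List ℕ) : (l.filter fun a => 2 ≤ a).sum ≤ l.sum := by
  induction l with
  | nil => simp
  | cons a l ih =>
    rw [List.filter_cons]
    split_ifs <;> simp only [List.sum_cons] <;> omega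

theorem filter_pred (l : List ℕ) :
    ((l.filter fun a => 2 ≤ a).map fun a => a - 1).sum = (l.map fun a => a - 1).sum := by
  induction l with
  | nil => simp
  | cons a l ih =>
    rw [List.filter_cons]
    split_ifs with h
    · simp only [List.map_cons, List.sum_cons, ih]
    · have h' : ¬ 2 ≤ a := by simpa using h
      simp only [List.map_cons, List.sum_cons, ih]
      omega

theorem cl_sum (x : V m) : (cl x).sum ≤ nrm x := by
  have := filter_sum (List.ofFn fun i => (x i).natAbs)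
  rw [List.sum_ofFn] at this
  exact this

theorem cl_pred (x : V m) : ((cl x).map fun a => a - 1).sum = df x := by
  have := filter_pred (List.ofFn fun i => (x i).natAbs)
  rw [List.map_ofFn, List.sum_ofFn] at this
  exact this

theorem sum_le_two_pred (l : List ℕ) (h : ∀ a ∈ l, 2 ≤ a) :
    l.sum ≤ 2 * (l.map fun a => a - 1).sum := by
  induction l with
  | nil => simp
  | cons a l ih =>
    have h1 := h a (by simp)
    have h2 := ih fun b hb => h b (by simp [hb])
    simp only [List.map_cons, List.sum_cons]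
    omega

theorem sum_range_eq {α : Type} [AddCommMonoid α] (n : ℕ) (f : ℕ → α) :
    ((List.range n).map f).sum = ∑ i ∈ range n, f i := by
  induction n with
  | zero => simp
  | succ n ih => rw [List.range_succ, List.map_append, List.sum_append, ih, Finset.sum_range_succ]; simp

theorem Tl_perm {α : Type} [AddCommMonoid α] {l l' : List ℕ} (h : l.Perm l')
    (F : ℕ → ℕ → ℕ → ℕ → ℕ → α) : Tl l F = Tl l' F := by
  induction h generalizing F with
  | nil => rfl
  | cons x _ ih => simp only [Tl, ih]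
  | swap x y l =>
    simp only [Tl, sum_range_eq]
    rw [Finset.sum_comm]
    refine Finset.sum_congr rfl fun a _ => Finset.sum_congr rfl fun b _ => ?_
    congr 1
    funext w d j d' j'
    congr 1 <;> exact Nat.add_right_comm _ _ _
  | trans _ _ ih1 ih2 => exact (ih1 F).trans (ih2 F)

/-- all sorted lists with entries at least `lo`, sum at most `n` and length at most the fuel -/
def comps : ℕ → ℕ → ℕ → List (List ℕ)
  | 0, _, _ => [[]]
  | f + 1, lo, n => [] :: ((List.range (n + 1)).filter fun a => lo ≤ a).flatMap fun a =>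
      (comps f a (n - a)).map fun l => a :: l

theorem mem_comps (f lo n : ℕ) (l : List ℕ) (hs : l.Pairwise (· ≤ ·)) (hlo : 2 ≤ lo)
    (h : ∀ a ∈ l, lo ≤ a) (h1 : l.sum ≤ n) (h2 : l.sum ≤ 2 * f + 1) : l ∈ comps f lo n := by
  induction f generalizing lo n l with
  | zero =>
    cases l with
    | nil => simp [comps]
    | cons a l =>
      have := h a (by simp)
      simp only [List.sum_cons] at h2
      omega
  | succ f ih =>
    cases l with
    | nil => simp [comps]
    | cons a l =>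
      have ha := h a (by simp)
      simp only [List.sum_cons] at h1 h2
      rw [List.pairwise_cons] at hs
      refine List.mem_cons_of_mem _ (List.mem_flatMap.2 ⟨a, ?_, List.mem_map.2 ⟨l, ?_, rfl⟩⟩)
      · refine List.mem_filter.2 ⟨List.mem_range.2 (by omega), by simpa using ha⟩
      · exact ih _ _ _ hs.2 (by omega) hs.1 (by omega) (by omega)

/-- reduction to sorted lists -/
theorem of_comps (f n r : ℕ) (θ : ℚ) (b : ℕ → ℕ → ℚ) (l : List ℕ) (h : ∀ a ∈ l, 2 ≤ a)
    (h1 : l.sum ≤ n) (h2 : n ≤ 2 * f + 1)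
    (H : ∀ l' ∈ comps f 2 n, l'.Perm l → sigL r θ l' ≤ tauL r b l') : sigL r θ l ≤ tauL r b l := by
  have hp : (l.insertionSort (· ≤ ·)).Perm l := List.perm_insertionSort _ _
  have hs : (l.insertionSort (· ≤ ·)).Pairwise (· ≤ ·) := List.pairwise_insertionSort _ _
  have := H _ (mem_comps f 2 n _ hs le_rfl (fun a ha => h a (hp.mem_iff.1 ha))
    (by rw [hp.sum_eq]; exact h1) (by rw [hp.sum_eq]; omega)) hp
  unfold sigL tauL at this ⊢
  rwa [hp.sum_eq, Tl_perm hp, Tl_perm hp] at this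

/-! ## the cases `r = 4` and `r = 5` -/

def psiZ (t : ℤ) (d j : ℕ) : ℤ :=
  if d = 1 then 2 else if d = 2 then (if j = 2 then 4 else t) else 0

def betZ (b22 b33 b31 b30 L : ℤ) (d j : ℕ) : ℤ :=
  if d = 2 then (if j = 2 then b22 else 0)
  else if d = 3 then (if j = 3 then b33 else if j = 1 then b31 else b30)
  else if 4 ≤ d then L else 0

def difZ (r : ℕ) (t : ℤ) (b : ℕ → ℕ → ℤ) (l : List ℕ) : ℤ :=
  Tl l fun w d j d' j' => if d = 0 then 0 else (ch (2 * r + 2 - l.sum) (r + 2) w : ℤ) * b d j -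
    3 * (ch (2 * r + 2 - l.sum) (r + 1) w : ℤ) * (psiZ t d j * psiZ t d' j')

theorem Tl_dif (l : List ℕ) (H : ℕ → ℕ → ℕ → ℕ → ℕ → ℤ) (F G : ℕ → ℕ → ℕ → ℕ → ℕ → ℚ)
    (h : ∀ w d j d' j', (H w d j d' j' : ℚ) = 12 * (G w d j d' j' - F w d j d' j')) :
    ((Tl l H : ℤ) : ℚ) = 12 * (Tl l G - Tl l F) := by
  induction l generalizing H F G with
  | nil => exact h 0 0 0 0 0
  | cons a l ih =>
    simp only [Tl, sum_range_eq]
    rw [Int.cast_sum, ← Finset.sum_sub_distrib, Finset.mul_sum]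
    exact Finset.sum_congr rfl fun b _ => ih _ _ _ fun w d j d' j' => h _ _ _ _ _

theorem psi_eq (t : ℤ) (d j : ℕ) : psi ((t : ℚ) / 2) d j = (psiZ t d j : ℚ) / 2 := by
  unfold psi psiZ
  split_ifs <;> norm_num

theorem bet_eq (b22 b33 b31 b30 L : ℤ) (d j : ℕ) :
    bet ((b22 : ℚ) / 12) ((b33 : ℚ) / 12) ((b31 : ℚ) / 12) ((b30 : ℚ) / 12) ((L : ℚ) / 12) d j =
      (betZ b22 b33 b31 b30 L d j : ℚ) / 12 := by
  unfold bet betZ
  split_ifs <;> norm_num

theorem of_difZ (r : ℕ) (t b22 b33 b31 b30 L : ℤ) (l : List ℕ)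
    (h : 0 ≤ difZ r t (betZ b22 b33 b31 b30 L) l) :
    sigL r ((t : ℚ) / 2) l ≤ tauL r
      (bet ((b22 : ℚ) / 12) ((b33 : ℚ) / 12) ((b31 : ℚ) / 12) ((b30 : ℚ) / 12) ((L : ℚ) / 12)) l := by
  have h0 : (0 : ℚ) ≤ (difZ r t (betZ b22 b33 b31 b30 L) l : ℚ) := by exact_mod_cast h
  unfold difZ at h0
  rw [Tl_dif l _ (fun w d j d' j' => (ch (2 * r + 2 - l.sum) (r + 1) w : ℚ) *
      (psi ((t : ℚ) / 2) d j * psi ((t : ℚ) / 2) d' j'))
    (fun w d j _ _ => (ch (2 * r + 2 - l.sum) (r + 2) w : ℚ) *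
      bet ((b22 : ℚ) / 12) ((b33 : ℚ) / 12) ((b31 : ℚ) / 12) ((b30 : ℚ) / 12) ((L : ℚ) / 12) d j)]
    at h0
  · unfold sigL tauL
    linarith
  · intro w d j d' j'
    split_ifs with hd
    · subst hd
      simp [psi, bet]
    · rw [psi_eq, psi_eq, bet_eq]
      push_cast
      ring

theorem chk4a : ∀ l ∈ comps 5 2 10, 0 ≤ difZ 4 4 (betZ 32 81 80 16 12000000) l := by
  decide +kernel

theorem chk4b : ∀ l ∈ comps 5 2 10, 0 ≤ difZ 4 (-1) (betZ 32 81 (-40) 16 12000000) l := by
  decide +kernel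

theorem chk5a : ∀ l ∈ comps 6 2 12, 0 ≤ difZ 5 4 (betZ 30 75 70 15 12000000) l := by
  decide +kernel

theorem chk5b : ∀ l ∈ comps 6 2 12, 0 ≤ difZ 5 (-2) (betZ 30 75 (-50) 15 12000000) l := by
  decide +kernel

/-! ## small excess -/

theorem small_lists : ∀ l ∈ comps 3 2 6, (l.map fun a => a - 1).sum ≤ 3 →
    l ∈ [[], [2], [3], [2, 2], [4], [2, 3], [2, 2, 2]] := by decide +kernel

def c30 (r : ℚ) : ℚ := r / (r - 1)
def c31 (r θ : ℚ) : ℚ := r / (r - 2) * (2 * θ - 2 / (r - 1))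
def c33 (r : ℚ) : ℚ := (6 * r * (r - 1) + 12 * r * (r - 2)) / ((r - 2) * (r - 3)) -
  6 * r ^ 2 * (2 * r - 3) / ((r - 1) * (r - 2) * (r - 3))

theorem ch_rat (Q k : ℕ) (h : k ≤ Q) :
    (Q.choose (k + 1) : ℚ) * (k + 1) = (Q.choose k : ℚ) * (Q - k) := by
  have := Nat.choose_succ_right_eq Q k
  have h2 : ((Q - k : ℕ) : ℚ) = Q - k := by rw [Nat.cast_sub h]
  rw [← h2]
  exact_mod_cast this

section lists
variable (c : ℕ → ℚ) (θ b22 b33 b31 b30 L : ℚ)

theorem s22 : Tl [2, 2] (fun w d j d' j' => c w * (psi θ d j * psi θ d' j')) = 2 * c 2 := by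
  simp [Tl, psi, List.range_succ]; ring
theorem t22 : Tl [2, 2] (fun w d j _ _ => c w * bet b22 b33 b31 b30 L d j) = c 4 * b22 := by
  simp [Tl, bet, List.range_succ]
theorem s4 : Tl [4] (fun w d j d' j' => c w * (psi θ d j * psi θ d' j')) = c 2 := by
  simp [Tl, psi, List.range_succ]
theorem t4 : Tl [4] (fun w d j _ _ => c w * bet b22 b33 b31 b30 L d j) = c 4 * b30 := by
  simp [Tl, bet, List.range_succ]
theorem s23 : Tl [2, 3] (fun w d j d' j' => c w * (psi θ d j * psi θ d' j')) =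
    (c 2 + c 3) * (θ + 1) := by
  simp [Tl, psi, List.range_succ]; ring
theorem t23 : Tl [2, 3] (fun w d j _ _ => c w * bet b22 b33 b31 b30 L d j) =
    c 4 * b22 + c 5 * b31 := by
  simp [Tl, bet, List.range_succ]
theorem s222 : Tl [2, 2, 2] (fun w d j d' j' => c w * (psi θ d j * psi θ d' j')) =
    6 * (c 2 + c 3 + c 4) := by
  simp [Tl, psi, List.range_succ]; ring
theorem t222 : Tl [2, 2, 2] (fun w d j _ _ => c w * bet b22 b33 b31 b30 L d j) =
    3 * (c 4 + c 5) * b22 + c 6 * b33 := by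
  simp [Tl, bet, List.range_succ]; ring

end lists

theorem ch_eq (Q W w k : ℕ) (h : W = k + w) : ch Q W w = Q.choose k := by
  subst h
  simp [ch]

theorem small (n : ℕ) (θ L : ℚ) (l : List ℕ)
    (hl : l ∈ [[], [2], [3], [2, 2], [4], [2, 3], [2, 2, 2]]) :
    sigL (n + 4) θ l ≤ tauL (n + 4) (bet (2 * ((n + 4 : ℕ) : ℚ) / (((n + 4 : ℕ) : ℚ) - 1))
      (c33 ((n + 4 : ℕ) : ℚ)) (c31 ((n + 4 : ℕ) : ℚ) θ) (c30 ((n + 4 : ℕ) : ℚ)) L) l := by
  have hn : (0 : ℚ) ≤ n := Nat.cast_nonneg n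
  have e0 : ((n + 4 : ℕ) : ℚ) = n + 4 := by push_cast; ring
  have e1 : (n + 4 : ℚ) - 1 = n + 3 := by ring
  have e2 : (n + 4 : ℚ) - 2 = n + 2 := by ring
  have e3 : (n + 4 : ℚ) - 3 = n + 1 := by ring
  simp only [List.mem_cons, List.not_mem_nil, or_false] at hl
  rcases hl with rfl | rfl | rfl | rfl | rfl | rfl | rfl
  · simp [sigL, tauL, Tl, psi, bet]
  · simp [sigL, tauL, Tl, psi, bet, List.range_succ]
  · simp [sigL, tauL, Tl, psi, bet, List.range_succ]
  · unfold sigL tauL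
    rw [s22 fun w => (ch (2 * (n + 4) + 2 - [2, 2].sum) (n + 4 + 1) w : ℚ),
      t22 fun w => (ch (2 * (n + 4) + 2 - [2, 2].sum) (n + 4 + 2) w : ℚ),
      show 2 * (n + 4) + 2 - [2, 2].sum = 2 * n + 6 by simp; omega,
      ch_eq _ _ 2 (n + 2 + 1) (by omega), ch_eq _ _ 4 (n + 2) (by omega), e0, e1]
    have h1 := ch_rat (2 * n + 6) (n + 2) (by omega)
    push_cast at h1
    refine le_of_eq ?_
    field_simp
    linear_combination h1
  · unfold sigL tauL
    rw [s4 fun w => (ch (2 * (n + 4) + 2 - [4].sum) (n + 4 + 1) w : ℚ),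
      t4 fun w => (ch (2 * (n + 4) + 2 - [4].sum) (n + 4 + 2) w : ℚ),
      show 2 * (n + 4) + 2 - [4].sum = 2 * n + 6 by simp; omega,
      ch_eq _ _ 2 (n + 2 + 1) (by omega), ch_eq _ _ 4 (n + 2) (by omega), c30, e0, e1]
    have h1 := ch_rat (2 * n + 6) (n + 2) (by omega)
    push_cast at h1
    refine le_of_eq ?_
    field_simp
    linear_combination h1
  · unfold sigL tauL
    rw [s23 fun w => (ch (2 * (n + 4) + 2 - [2, 3].sum) (n + 4 + 1) w : ℚ),
      t23 fun w => (ch (2 * (n + 4) + 2 - [2, 3].sum) (n + 4 + 2) w : ℚ),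
      show 2 * (n + 4) + 2 - [2, 3].sum = 2 * n + 5 by simp; omega,
      ch_eq _ _ 2 (n + 1 + 1 + 1) (by omega), ch_eq _ _ 3 (n + 1 + 1) (by omega),
      ch_eq _ _ 4 (n + 1 + 1) (by omega), ch_eq _ _ 5 (n + 1) (by omega), c31, e0, e1, e2]
    have h1 := ch_rat (2 * n + 5) (n + 1) (by omega)
    have h2 := ch_rat (2 * n + 5) (n + 1 + 1) (by omega)
    push_cast at h1 h2
    generalize ((2 * n + 5).choose (n + 1 + 1 + 1) : ℚ) = A3 at *
    generalize ((2 * n + 5).choose (n + 1 + 1) : ℚ) = A2 at *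
    generalize ((2 * n + 5).choose (n + 1) : ℚ) = A1 at *
    have h3 : A3 = A2 := by
      have : (A3 - A2) * (n + 3) = 0 := by linear_combination h2
      rcases mul_eq_zero.1 this with h | h
      · linarith
      · linarith
    have h4 : A2 = A1 * (n + 4) / (n + 2) := by
      field_simp
      linear_combination h1
    rw [h3, h4]
    refine le_of_eq ?_
    field_simp
    ring
  · unfold sigL tauL
    rw [s222 fun w => (ch (2 * (n + 4) + 2 - [2, 2, 2].sum) (n + 4 + 1) w : ℚ),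
      t222 fun w => (ch (2 * (n + 4) + 2 - [2, 2, 2].sum) (n + 4 + 2) w : ℚ),
      show 2 * (n + 4) + 2 - [2, 2, 2].sum = 2 * n + 4 by simp; omega,
      ch_eq _ _ 2 (n + 1 + 1 + 1) (by omega), ch_eq _ (n + 4 + 1) 3 (n + 1 + 1) (by omega),
      ch_eq _ (n + 4 + 1) 4 (n + 1) (by omega), ch_eq _ (n + 4 + 2) 4 (n + 1 + 1) (by omega),
      ch_eq _ _ 5 (n + 1) (by omega), ch_eq _ _ 6 n (by omega), c33, e0, e1, e2, e3]
    have h0 := ch_rat (2 * n + 4) n (by omega)
    have h1 := ch_rat (2 * n + 4) (n + 1) (by omega)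
    have h2 := ch_rat (2 * n + 4) (n + 1 + 1) (by omega)
    push_cast at h0 h1 h2
    generalize ((2 * n + 4).choose (n + 1 + 1 + 1) : ℚ) = A3 at *
    generalize ((2 * n + 4).choose (n + 1 + 1) : ℚ) = A2 at *
    generalize ((2 * n + 4).choose (n + 1) : ℚ) = A1 at *
    generalize ((2 * n + 4).choose n : ℚ) = A0 at *
    have h5 : A1 = A0 * (n + 4) / (n + 1) := by
      field_simp
      linear_combination h0
    have h4 : A2 = A1 * (n + 3) / (n + 2) := by
      field_simp
      linear_combination h1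
    have h3 : A3 = A2 * (n + 2) / (n + 3) := by
      field_simp
      linear_combination h2
    rw [h3, h4, h5]
    refine le_of_eq ?_
    field_simp
    ring

/-! ## large excess -/

theorem geo {e : ℕ} {x y : V m} (he : e ≤ 1) (h : nrm y + nrm (x - y) ≤ nrm x + e) :
    nrm y + nrm (x - y) ≤ nrm x := by
  have h1 := nrm_add_mod y (x - y)
  rw [add_sub_cancel] at h1
  omega

theorem large (g : SGeo) (e r : ℕ) (hr : 6 ≤ r) (ψ b : ℕ → ℕ → ℚ) (M c L : ℚ) (hc0 : 0 ≤ c)
    (hM : ∀ d j, |ψ d j| ≤ M) (hc : ∀ d j, -c ≤ b d j) (hL : ∀ d j, 4 ≤ d → b d j = L)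
    (hbig : 2 ^ (2 * r + 2) * (M * M + c) ≤ L) (x : V m) (he : e ≤ 1) (h1 : nrm x ≤ 2 * r + 2)
    (h2 : 2 * r + 2 ≤ nrm x + e) (h4 : 4 ≤ df x) : sig e r ψ x ≤ tau e r b x := by
  classical
  obtain ⟨p, hp1, hp2, hp3⟩ := g.sub m x (r + 2) 4 (by omega) (by omega) h4
  have hM0 : (0 : ℝ) ≤ M := by exact_mod_cast (abs_nonneg _).trans (hM 0 0)
  have hc0' : (0 : ℝ) ≤ c := by exact_mod_cast hc0
  have hcard : (((Bx m (2 * r + 4)).filter fun y => nrm y + nrm (x - y) ≤ nrm x).card : ℝ) ≤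
      2 ^ (2 * r + 2) := by
    exact_mod_cast (g.card m (2 * r + 4) x).trans (Nat.pow_le_pow_right (by norm_num) h1)
  have hsh : ∀ y : V m, |sh e (r + 1) (rc ψ) y| ≤ M := fun y => by
    unfold sh
    split_ifs
    · unfold rc
      exact_mod_cast hM _ _
    · simpa using hM0
  have hs : sig e r ψ x ≤ ∑ y ∈ Bx m (2 * r + 4),
      if nrm y + nrm (x - y) ≤ nrm x then (M : ℝ) * M else 0 := by
    refine Finset.sum_le_sum fun y _ => ?_
    split_ifs with h
    · refine (le_abs_self _).trans ?_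
      rw [abs_mul]
      exact mul_le_mul (hsh _) (hsh _) (abs_nonneg _) hM0
    · refine le_of_eq ?_
      by_contra h0
      have h3 := (sh_ne (left_ne_zero_of_mul h0)).1
      have h5 := (sh_ne (right_ne_zero_of_mul h0)).1
      exact h (geo he (by omega))
  have ht : ∑ y ∈ Bx m (2 * r + 4), ((if y = p then (L : ℝ) else 0) -
      if nrm y + nrm (x - y) ≤ nrm x then (c : ℝ) else 0) ≤ tau e r b x := by
    refine Finset.sum_le_sum fun y _ => ?_
    by_cases hy : y = p
    · subst hy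
      have a1 : sh e (r + 2) (rc b) y = L := by
        unfold sh rc
        rw [if_pos ⟨by omega, by omega⟩, hL _ _ hp3]
      have a2 : bl r (x - y) = 1 := by
        unfold bl
        rw [if_pos (by omega)]
      rw [if_pos rfl, a1, a2, mul_one]
      split_ifs <;> linarith
    · rw [if_neg hy, zero_sub]
      by_cases h0 : sh e (r + 2) (rc b) y * bl r (x - y) = 0
      · rw [h0]
        split_ifs <;> linarith
      · have h3 := sh_ne (left_ne_zero_of_mul h0)
        have h5 := right_ne_zero_of_mul h0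
        have h6 : nrm (x - y) ≤ r := by
          by_contra h7
          exact h5 (by unfold bl; rw [if_neg h7])
        rw [if_pos (geo he (by omega))]
        unfold sh bl rc
        rw [if_pos ⟨h3.1, h3.2.1⟩, if_pos h6, mul_one]
        exact_mod_cast hc _ _
  rw [Finset.sum_sub_distrib, Finset.sum_ite_eq', if_pos (mem_Bx_of_nrm (by omega))] at ht
  rw [← Finset.sum_filter, Finset.sum_const, nsmul_eq_mul] at hs ht
  have hbig' : (2 : ℝ) ^ (2 * r + 2) * (M * M + c) ≤ L := by exact_mod_cast hbig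
  have hMM : (0 : ℝ) ≤ M * M + c := by positivity
  have := mul_le_mul_of_nonneg_right hcard hMM
  linarith

theorem psi_abs (θ : ℚ) (d j : ℕ) : |psi θ d j| ≤ 2 + |θ| := by
  have := abs_nonneg θ
  unfold psi
  split_ifs
  · rw [abs_one]; linarith
  · rw [abs_two]; linarith
  · linarith
  · rw [abs_zero]; linarith

theorem fin_case (s : SSplit) (f r : ℕ) (t b22 b33 b31 b30 L : ℤ) (hf : r + 1 ≤ f)
    (H : ∀ l ∈ comps f 2 (2 * r + 2), 0 ≤ difZ r t (betZ b22 b33 b31 b30 L) l)
    (m e : ℕ) (x : V m) (he : e ≤ 1) (h2 : 2 * r + 2 ≤ nrm x + e) :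
    sig e r (psi ((t : ℚ) / 2)) x ≤ tau e r
      (bet ((b22 : ℚ) / 12) ((b33 : ℚ) / 12) ((b31 : ℚ) / 12) ((b30 : ℚ) / 12) ((L : ℚ) / 12)) x := by
  by_cases h1 : nrm x ≤ 2 * r + 2
  · rw [sig_eq s e r _ x he h1 h2, tau_eq s e r _ x he h1 h2]
    exact_mod_cast of_comps f (2 * r + 2) r _ _ _ (cl_two x) ((cl_sum x).trans h1) (by omega)
      fun l hl _ => of_difZ r t b22 b33 b31 b30 L l (H l hl)
  · exact far e r _ _ x (by omega)

end CertUaux

open CertUaux in
theorem pCertU (s : SSplit) (g : SGeo) : SCertU := by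
  intro r θ hr hθ
  rcases (by omega : r = 4 ∨ r = 5 ∨ 6 ≤ r) with rfl | rfl | hr6
  · rcases hθ with rfl | rfl
    · refine ⟨27 / 4, 20 / 3, 4 / 3, 1000000, by norm_num, by norm_num [abs_le],
        by norm_num [abs_le], by norm_num [abs_le], by norm_num, fun m e x he h2 => ?_⟩
      convert fin_case s 5 4 4 32 81 80 16 12000000 le_rfl chk4a m e x he h2 using 3 <;> norm_num
    · refine ⟨27 / 4, -10 / 3, 4 / 3, 1000000, by norm_num, by norm_num [abs_le],
        by norm_num [abs_le], by norm_num [abs_le], by norm_num, fun m e x he h2 => ?_⟩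
      convert fin_case s 5 4 (-1) 32 81 (-40) 16 12000000 le_rfl chk4b m e x he h2 using 3 <;>
        norm_num
  · rcases hθ with rfl | rfl
    · refine ⟨25 / 4, 35 / 6, 5 / 4, 1000000, by norm_num, by norm_num [abs_le],
        by norm_num [abs_le], by norm_num [abs_le], by norm_num, fun m e x he h2 => ?_⟩
      convert fin_case s 6 5 4 30 75 70 15 12000000 le_rfl chk5a m e x he h2 using 3 <;> norm_num
    · refine ⟨25 / 4, -25 / 6, 5 / 4, 1000000, by norm_num, by norm_num [abs_le],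
        by norm_num [abs_le], by norm_num [abs_le], by norm_num, fun m e x he h2 => ?_⟩
      convert fin_case s 6 5 (-2) 30 75 (-50) 15 12000000 le_rfl chk5b m e x he h2 using 3 <;>
        norm_num
  · have hr' : (6 : ℚ) ≤ r := by exact_mod_cast hr6
    have hb : (0 : ℚ) ≤ 2 * r / (r - 1) := div_nonneg (by linarith) (by linarith)
    obtain ⟨c, hc⟩ : ∃ c : ℚ, c = 2 * r / (r - 1) + |c33 r| + |c31 r θ| + |c30 r| := ⟨_, rfl⟩
    have a1 := abs_nonneg (c33 r)
    have a2 := abs_nonneg (c31 r θ)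
    have a3 := abs_nonneg (c30 r)
    have hc0 : 0 ≤ c := by linarith
    obtain ⟨K, hK⟩ : ∃ K : ℚ, K = 2 ^ (2 * r + 2) * ((2 + |θ|) * (2 + |θ|) + c) := ⟨_, rfl⟩
    have hK0 : 0 ≤ K := by rw [hK]; positivity
    refine ⟨c33 r, c31 r θ, c30 r, K + c, by linarith, by linarith, by linarith, by linarith, ?_,
      fun m e x he h2 => ?_⟩
    · have n1 : (r : ℚ) - 1 ≠ 0 := by linarith
      have n2 : (r : ℚ) - 2 ≠ 0 := by linarith
      have n3 : (r : ℚ) - 3 ≠ 0 := by linarith
      have : ((r : ℚ) - 1) * c30 r + (r - 1) * (r - 2) * c31 r θ +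
          (r - 1) * (r - 2) * (r - 3) / 6 * c33 r = r * (r - 1) * (2 * θ + r - 4) := by
        unfold c30 c31 c33
        field_simp
        ring
      linarith
    · by_cases h1 : nrm x ≤ 2 * r + 2
      · by_cases h4 : 4 ≤ df x
        · refine large g e r hr6 _ _ (2 + |θ|) c (K + c) hc0 (psi_abs θ) (fun d j => ?_)
            (fun d j hd => ?_) (by linarith) x he h1 h2 h4
          · have b1 := neg_abs_le (c33 r)
            have b2 := neg_abs_le (c31 r θ)
            have b3 := neg_abs_le (c30 r)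
            unfold bet
            split_ifs <;> linarith
          · unfold bet
            rw [if_neg (by omega), if_neg (by omega), if_pos hd]
        · rw [sig_eq s e r _ x he h1 h2, tau_eq s e r _ x he h1 h2]
          have h5 := cl_pred x
          have h6 := sum_le_two_pred _ (cl_two x)
          obtain ⟨n, rfl⟩ : ∃ n, r = n + 4 := ⟨r - 4, by omega⟩
          exact_mod_cast of_comps 3 6 (n + 4) θ _ _ (cl_two x) (by omega) (by omega)
            fun l hl hp => small n θ (K + c) l (small_lists l hl (by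
              rw [(hp.map _).sum_eq]; omega))
      · exact far e r _ _ x (by omega)

end Pool.Agent.P.MP_d10a06_co.GW
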