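import Pool.Agent.P.MP_d10a06_co.GW.Base

set_option autoImplicit false

namespace Pool.Agent.P.MP_d10a06_co.GW

open Finset

namespace Cntaux

theorem Bf_lin (R s : ℕ) (c : ℝ) (F G : ℕ → ℕ → ℝ) :
    Bf R s (fun d j => F d j + c * G d j) = Bf R s F + c * Bf R s G := by
  induction s generalizing F G with
  | zero => rfl
  | succ s ih => simp only [Bf, sum_add_distrib, ← mul_sum, ih]

theorem sum_Icc (R : ℕ) (f : ℕ → ℝ) :
    ∑ a ∈ Icc (-(R : ℤ)) R, f a.natAbs = f 0 + 2 * ∑ a ∈ range R, f (a + 1) := by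
  induction R with
  | zero => simp
  | succ R ih =>
    have : Icc (-((R + 1 : ℕ) : ℤ)) (R + 1 : ℕ) =
        insert (-((R + 1 : ℕ) : ℤ)) (insert ((R + 1 : ℕ) : ℤ) (Icc (-(R : ℤ)) R)) := by
      ext a
      simp only [mem_Icc, mem_insert]
      omega
    rw [this, sum_insert (by simp only [mem_Icc, mem_insert]; omega),
      sum_insert (by simp only [mem_Icc]; omega), ih, sum_range_succ, Int.natAbs_neg,
      Int.natAbs_natCast]
    ring

theorem sum_succ (m R : ℕ) (f : V (m + 1) → ℝ) :
    ∑ y ∈ Bx (m + 1) R, f y = ∑ y ∈ Bx m R, ∑ a ∈ Icc (-(R : ℤ)) R, f (Fin.cons a y) := by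
  rw [← sum_product']
  refine (sum_nbij' (fun p : V m × ℤ => (Fin.cons p.2 p.1 : V (m + 1)))
    (fun y => (Fin.tail y, y 0)) ?_ ?_ ?_ ?_ ?_).symm
  · intro p hp
    rw [mem_product, mem_Bx, mem_Icc] at hp
    refine mem_Bx.2 fun i => ?_
    refine Fin.cases ?_ (fun i => ?_) i
    · simp only [Fin.cons_zero]; omega
    · simpa using hp.1 i
  · intro y hy
    rw [mem_Bx] at hy
    rw [mem_product, mem_Bx, mem_Icc]
    have := hy 0
    exact ⟨fun i => hy _, by constructor <;> (simp only; omega)⟩
  · intro p _; simp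
  · intro y _; simp
  · intro p _; rfl

/-- summing out the first coordinate -/
theorem step (m R : ℕ) (G : ℕ → ℕ → ℕ → ℝ) :
    ∑ y ∈ Bx (m + 1) R, G (nrm y) (df y) (n2 y) = ∑ y ∈ Bx m R, (G (nrm y) (df y) (n2 y) +
      2 * ∑ a ∈ range R, G (nrm y + (a + 1)) (df y + a) (n2 y + if a = 1 then 1 else 0)) := by
  rw [sum_succ]
  refine sum_congr rfl fun y _ => ?_
  have := sum_Icc R fun a => G (nrm y + a) (df y + (a - 1)) (n2 y + if a = 2 then 1 else 0)
  simp only [Nat.add_sub_cancel, Nat.reduceEqDiff, OfNat.zero_ne_ofNat, if_false, add_zero,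
    Nat.zero_sub] at this
  rw [← this]
  refine sum_congr rfl fun a _ => ?_
  simp only [nrm, df, n2, Fin.sum_univ_succ, Fin.cons_zero, Fin.cons_succ, add_comm]

theorem box (m R : ℕ) (G : ℕ → ℕ → ℕ → ℝ) : ∑ y ∈ Bx m R, G (nrm y) (df y) (n2 y) =
    ∑ s ∈ range (m + 1), MM m s * Bf R s fun d j => G (s + d) d j := by
  induction m generalizing G with
  | zero => simp [Bx, MM, Bf, nrm, df, n2]
  | succ m ih =>
    rw [step, ih fun w d j => G w d j +
      2 * ∑ a ∈ range R, G (w + (a + 1)) (d + a) (j + if a = 1 then 1 else 0)]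
    have e : ∀ s, (Bf R s fun d j => ∑ a ∈ range R,
        G (s + d + (a + 1)) (d + a) (j + if a = 1 then 1 else 0)) =
          Bf R (s + 1) fun d j => G (s + 1 + d) d j := fun s => by
      rw [Bf]
      congr 1
      funext d j
      refine sum_congr rfl fun a _ => ?_
      rw [show s + d + (a + 1) = s + 1 + (d + a) by omega]
    have p : ∀ s, MM (m + 1) (s + 1) = MM m (s + 1) + 2 * MM m s := fun s => by
      simp only [MM, Nat.choose_succ_succ', Nat.cast_add]
      ring
    have z : MM m (m + 1) = 0 := by simp [MM]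
    have o : MM (m + 1) 0 = MM m 0 := by simp [MM]
    simp only [Bf_lin, e, mul_add, sum_add_distrib]
    rw [sum_range_succ' _ (m + 1)]
    simp only [p, add_mul, sum_add_distrib]
    rw [sum_range_succ (fun s => MM m (s + 1) * _), z, o, sum_range_succ' _ m]
    simp only [mul_assoc, mul_left_comm (2 : ℝ)]
    ring

theorem closed (R s : ℕ) (G : ℕ → ℕ → ℝ) (hR : 4 ≤ R) (hG : ∀ d j, 4 ≤ d → G d j = 0) :
    Bf R s G = G 0 0 + s * G 1 1 + s * G 2 0 + (s.choose 2 : ℝ) * G 2 2 + s * G 3 0 +
      s * (s - 1) * G 3 1 + (s.choose 3 : ℝ) * G 3 3 := by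
  induction s generalizing G with
  | zero => simp [Bf]
  | succ s ih =>
    have e : ∀ d j, ∑ a ∈ range R, G (d + a) (j + if a = 1 then 1 else 0) =
        G d j + G (d + 1) (j + 1) + G (d + 2) j + G (d + 3) j := fun d j => by
      rw [← sum_subset (range_subset_range.2 hR) fun a _ ha =>
        hG _ _ (by rw [mem_range] at ha; omega)]
      simp [sum_range_succ]
    rw [Bf, ih _ fun d j hd => sum_eq_zero fun a _ => hG _ _ (by omega)]
    simp only [e]
    simp only [Nat.reduceAdd, zero_add, hG 4 _ le_rfl, hG 5 _ (by omega), hG 6 _ (by omega),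
      Nat.choose_succ_succ', Nat.choose_one_right, Nat.cast_add, Nat.cast_one]
    ring

/-- the binomial weights -/
noncomputable def bw (p k w : ℕ) : ℝ := if w ≤ p then ((p - w).choose k : ℝ) else 0

theorem bw_pascal (p k w : ℕ) : bw p k (w + 1) = bw p (k + 1) w - bw p (k + 1) (w + 1) := by
  unfold bw
  rcases lt_trichotomy w p with h | rfl | h
  · obtain ⟨t, rfl⟩ : ∃ t, p = w + 1 + t := ⟨p - (w + 1), by omega⟩
    rw [if_pos (by omega), if_pos (by omega), if_pos (by omega), Nat.add_sub_cancel_left,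
      show w + 1 + t - w = t + 1 by omega, Nat.choose_succ_succ']
    push_cast
    ring
  · simp
  · rw [if_neg (by omega), if_neg (by omega), if_neg (by omega), sub_zero]

theorem bw_sum {R p k : ℕ} (h : p ≤ R + k) (w : ℕ) :
    ∑ a ∈ range R, bw p k (w + a + 1) = bw p (k + 1) w := by
  have := sum_range_sub' (fun a => bw p (k + 1) (w + a)) R
  simp only [← add_assoc, add_zero] at this
  rw [sum_congr rfl fun a _ => bw_pascal p k (w + a), this, bw.eq_1 _ _ (w + R), sub_eq_self]
  split_ifs
  · rw [Nat.choose_eq_zero_of_lt (by omega), Nat.cast_zero]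
  · rfl

theorem Bf_bw {R p : ℕ} (s : ℕ) {k : ℕ} (h : p ≤ R + k) :
    (Bf R s fun d _ => bw p k (s + d)) = p.choose (s + k) := by
  induction s generalizing k with
  | zero => simp [Bf, bw]
  | succ s ih =>
    rw [Bf, show s + 1 + k = s + (k + 1) by omega, ← ih (by omega : p ≤ R + (k + 1))]
    congr 1
    funext d _
    rw [← bw_sum h]
    exact sum_congr rfl fun a _ => by rw [show s + 1 + (d + a) = s + d + a + 1 by omega]

theorem sum_bw (m : ℕ) {R p k r : ℕ} (h : p ≤ R + k) (hr : p ≤ r + k) :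
    ∑ y ∈ Bx m R, bw p k (nrm y) =
      ∑ i ∈ range (r + 1), (m.choose i : ℝ) * p.choose (i + k) * 2 ^ i := by
  rw [box m R fun w _ _ => bw p k w]
  simp only [Bf_bw _ h, MM]
  rw [sum_subset (range_subset_range.2 (by omega : m + 1 ≤ m + r + 1)) fun s _ hs => by
      rw [Nat.choose_eq_zero_of_lt (by rw [mem_range] at hs; omega)]; simp,
    sum_subset (range_subset_range.2 (by omega : r + 1 ≤ m + r + 1)) fun s _ hs => by
      rw [Nat.choose_eq_zero_of_lt (n := p) (by rw [mem_range] at hs; omega)]; simp]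
  exact sum_congr rfl fun s _ => by ring

/-- the indicator of the weights at most `r` with the parity of `r` -/
noncomputable def ind (r n : ℕ) : ℝ := if n ≤ r ∧ n % 2 = r % 2 then 1 else 0

theorem par_sum {r R : ℕ} (h : r ≤ R) (w : ℕ) :
    ind r w + 2 * ∑ a ∈ range R, ind r (w + (a + 1)) = bw (r + 1) 1 w := by
  have h1 : ∀ n, ind r n + ind r (n + 1) = bw (r + 1) 0 (n + 1) := fun n => by
    simp only [ind, bw, Nat.choose_zero_right, Nat.cast_one]
    split_ifs <;> first | omega | simp
  have h2 : ind r (w + R) = bw (r + 1) 0 (w + R + 1) := by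
    simp only [ind, bw, Nat.choose_zero_right, Nat.cast_one]
    split_ifs <;> first | omega | simp
  have h3 := sum_range_succ' (fun a => ind r (w + a)) R
  rw [sum_range_succ] at h3
  rw [← bw_sum (R := R + 1) (by omega), sum_range_succ, ← h2]
  simp only [← h1, sum_add_distrib]
  simp only [add_assoc, add_zero] at h3 ⊢
  linarith

end Cntaux

open Cntaux in
theorem pCnt : SCnt where
  box := box
  closed := closed
  ball m R r h := by
    have e : ∀ y : V m, ballF 1 r y = bw r 0 (nrm y) := fun y => by simp [ballF, bw]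
    simp only [e]
    rw [sum_bw m (p := r) (k := 0) (r := r) (by omega) le_rfl]
    simp
  par m R r h := by
    have e : ∀ y : V (m + 1), ballF 0 r y = ind r (nrm y) := fun y => by simp [ballF, ind]
    simp only [e]
    rw [step m R fun w _ _ => ind r w]
    simp only [par_sum h]
    rw [sum_bw m (p := r + 1) (k := 1) (r := r) (by omega) le_rfl, mul_sum]
    push_cast
    exact sum_congr rfl fun s _ => by ring

end Pool.Agent.P.MP_d10a06_co.GW
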