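import Pool.Agent.P.MP_d10a06_co.GW.Base

set_option autoImplicit false

namespace Pool.Agent.P.MP_d10a06_co.GW

open Finset

namespace Diraux

variable {m : ℕ}

/-- number of coordinates of absolute value at least two -/
def tt (y : V m) : ℕ := ∑ i, if 2 ≤ (y i).natAbs then 1 else 0

theorem sp_cast (y : V m) : (∑ i, if y i = 0 then (0 : ℝ) else 1) = (sp y : ℝ) := by
  unfold sp
  push_cast
  rfl

theorem tt_cast (y : V m) : (∑ i, if 2 ≤ (y i).natAbs then (1 : ℝ) else 0) = (tt y : ℝ) := by
  unfold tt
  push_cast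
  rfl

theorem bl_nonneg (r : ℕ) (y : V m) : 0 ≤ bl r y := by
  unfold bl
  split_ifs <;> norm_num

theorem Y3_nonneg (r : ℕ) (y : V m) : 0 ≤ Y3 r y := by
  unfold Y3
  split_ifs <;> norm_num

theorem single_two (i : Fin m) (s : ℤ) :
    (Pi.single i s : V m) + Pi.single i s = Pi.single i (2 * s) := by
  rw [← Pi.single_add, two_mul]

theorem tt_le_T2 (r : ℕ) (x : V m) (h : nrm x ≤ r + 2) : (tt x : ℝ) ≤ T2 r x := by
  rw [← tt_cast]
  unfold T2 DS
  simp only [Nat.cast_zero, zero_mul, zero_add, single_two]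
  refine Finset.sum_le_sum fun i _ => ?_
  have h1 := nrm_sub_single x i (2 * 1)
  have h2 := nrm_sub_single x i (2 * -1)
  unfold bl
  split_ifs <;> first | omega | norm_num

theorem T2_nonneg (r : ℕ) (x : V m) : 0 ≤ T2 r x := by
  unfold T2 DS
  simp only [Nat.cast_zero, zero_mul, zero_add]
  exact Finset.sum_nonneg fun i _ => add_nonneg (bl_nonneg _ _) (bl_nonneg _ _)

theorem exists_two {p : V m} (h : 1 ≤ df p) : ∃ i, 2 ≤ (p i).natAbs := by
  by_contra hc
  push Not at hc
  have : df p = 0 := Finset.sum_eq_zero fun i _ => by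
    have := hc i
    omega
  omega

theorem le_df (p : V m) (i : Fin m) : (p i).natAbs - 1 ≤ df p :=
  Finset.single_le_sum (f := fun i => (p i).natAbs - 1) (fun _ _ => Nat.zero_le _)
    (Finset.mem_univ i)

theorem k1 (m e r : ℕ) (y : V m) (he : e ≤ 1) (h : r + 1 ≤ nrm y + e) :
    DS e (fun u => bl r (y - u)) = sh e (r + 1) (fun d _ => (r : ℝ) + 1 - d) y := by
  have key : ∀ i, bl r (y - Pi.single i 1) + bl r (y - Pi.single i (-1)) =
      if nrm y ≤ r + 1 then (if y i = 0 then (0 : ℝ) else 1) else 0 := by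
    intro i
    have h1 := nrm_sub_single y i 1
    have h2 := nrm_sub_single y i (-1)
    unfold bl
    split_ifs <;> first | omega | norm_num
  unfold DS sh
  simp only [key, sub_zero]
  have hs : (nrm y : ℝ) = sp y + df y := by exact_mod_cast nrm_eq_sp_add_df y
  by_cases hy : nrm y ≤ r + 1
  · simp only [hy, h, if_true, and_self, sp_cast]
    unfold bl
    split_ifs with h1
    · have h2 : e = 1 := by omega
      have h3 : nrm y = r := by omega
      rw [h3] at hs
      rw [h2]
      push_cast
      linarith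
    · have h3 : nrm y = r + 1 := by omega
      rw [h3] at hs
      push_cast at hs
      linarith
  · have h1 : ¬ nrm y ≤ r := by omega
    simp [hy, bl, h1]

theorem k2 (m e r : ℕ) (x : V m) (he : e ≤ 1) (h : r + 2 ≤ nrm x + e) :
    DS e (fun u => sh e (r + 1) (fun d _ => (d : ℝ)) (x - u)) ≤
      r * T2 r x + (r + 2) ^ 2 * Y3 r x := by
  have hT := T2_nonneg r x
  have hY := Y3_nonneg r x
  have hr : (0 : ℝ) ≤ r := Nat.cast_nonneg r
  have key : ∀ i, sh e (r + 1) (fun d _ => (d : ℝ)) (x - Pi.single i 1) +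
      sh e (r + 1) (fun d _ => (d : ℝ)) (x - Pi.single i (-1)) =
      if nrm x ≤ r + 2 then ((if x i = 0 then (0 : ℝ) else 1) * df x -
        if 2 ≤ (x i).natAbs then (1 : ℝ) else 0) else 0 := by
    intro i
    have h1 := nrm_sub_single x i 1
    have h2 := nrm_sub_single x i (-1)
    have h3 := df_sub_single x i 1
    have h4 := df_sub_single x i (-1)
    unfold sh
    generalize df (x - Pi.single i 1) = a at h3
    generalize df (x - Pi.single i (-1)) = b at h4
    generalize df x = c at h3 h4
    split_ifs <;> first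
      | omega
      | (have h5 : a + 1 = c := by omega
         rw [← h5]; push_cast; ring)
      | (have h5 : b + 1 = c := by omega
         rw [← h5]; push_cast; ring)
      | (have h5 : a = c := by omega
         rw [← h5]; ring)
      | (have h5 : b = c := by omega
         rw [← h5]; ring)
      | ring
  unfold DS
  simp only [key, sub_zero]
  by_cases hx : nrm x ≤ r + 2
  · simp only [hx, if_true, Finset.sum_sub_distrib, ← Finset.sum_mul, sp_cast, tt_cast]
    have hs : (nrm x : ℝ) = sp x + df x := by exact_mod_cast nrm_eq_sp_add_df x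
    have hd : (0 : ℝ) ≤ df x := Nat.cast_nonneg _
    have ht : (0 : ℝ) ≤ tt x := Nat.cast_nonneg _
    have hsp : (0 : ℝ) ≤ sp x := Nat.cast_nonneg _
    have hxr : (nrm x : ℝ) ≤ r + 2 := by exact_mod_cast hx
    have hval : (e : ℝ) * sh e (r + 1) (fun d _ => (d : ℝ)) x + ((sp x : ℝ) * df x - tt x) =
        (r + 2 - df x) * df x - tt x := by
      unfold sh
      split_ifs with h1
      · have h2 : e = 1 := by omega
        have h3 : nrm x = r + 1 := by omega
        rw [h3] at hs
        push_cast at hs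
        have h4 : (sp x : ℝ) = r + 1 - df x := by linarith
        rw [h2, h4]
        push_cast
        ring
      · have h3 : nrm x = r + 2 := by omega
        rw [h3] at hs
        push_cast at hs
        have h4 : (sp x : ℝ) = r + 2 - df x := by linarith
        rw [h4]
        ring
    rw [hval]
    by_cases h3 : ∃ i, 3 ≤ (x i).natAbs
    · have hY1 : Y3 r x = 1 := by
        unfold Y3
        rw [if_pos ⟨hx, h3⟩]
      rw [hY1]
      have := mul_nonneg hr hT
      nlinarith
    · push Not at h3
      have hdt : df x = tt x := by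
        unfold df tt
        refine Finset.sum_congr rfl fun i _ => ?_
        have := h3 i
        split_ifs <;> omega
      have hle := tt_le_T2 r x hx
      have h5 : (0 : ℝ) ≤ (r + 2) ^ 2 * Y3 r x := by positivity
      have h6 : (r : ℝ) * tt x ≤ r * T2 r x := mul_le_mul_of_nonneg_left hle hr
      have h7 : (tt x : ℝ) ≤ tt x * tt x := by
        have : tt x ≤ tt x * tt x := Nat.le_mul_self _
        exact_mod_cast this
      rw [hdt]
      nlinarith
  · have h1 : ¬ nrm x ≤ r + 1 := by omega
    simp only [hx, if_false, Finset.sum_const_zero, sh, h1, false_and, mul_zero, add_zero]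
    positivity

theorem k3 (m e r : ℕ) (x : V m) (h : nrm x ≤ r) (hd : df x = 0) :
    DS e (fun u => sh e (r + 1) (fun d _ => (d : ℝ)) (x - u)) ≤ 2 * r := by
  have key : ∀ i, sh e (r + 1) (fun d _ => (d : ℝ)) (x - Pi.single i 1) +
      sh e (r + 1) (fun d _ => (d : ℝ)) (x - Pi.single i (-1)) ≤
      if x i = 0 then (0 : ℝ) else 1 := by
    intro i
    have h3 := df_sub_single x i 1
    have h4 := df_sub_single x i (-1)
    have h5 := le_df x i
    have h6 : df (x - Pi.single i 1) + df (x - Pi.single i (-1)) ≤ if x i = 0 then 0 else 1 := by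
      split_ifs <;> omega
    have h7 : ((df (x - Pi.single i 1) : ℕ) : ℝ) + (df (x - Pi.single i (-1)) : ℕ) ≤
        if x i = 0 then (0 : ℝ) else 1 := by
      have : ((df (x - Pi.single i 1) + df (x - Pi.single i (-1)) : ℕ) : ℝ) ≤
          ((if x i = 0 then 0 else 1 : ℕ) : ℝ) := by exact_mod_cast h6
      push_cast at this
      exact this
    have h8 : ∀ z : V m, sh e (r + 1) (fun d _ => (d : ℝ)) z ≤ (df z : ℝ) := by
      intro z
      unfold sh
      split_ifs
      · exact le_rfl
      · exact Nat.cast_nonneg _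
    linarith [h8 (x - Pi.single i 1), h8 (x - Pi.single i (-1))]
  unfold DS
  have h0 : sh e (r + 1) (fun d _ => (d : ℝ)) (x - 0) = 0 := by
    simp [sh, hd]
  have h1 := Finset.sum_le_sum fun i (_ : i ∈ (univ : Finset (Fin m))) => key i
  rw [sp_cast] at h1
  have h2 : sp x ≤ r := by
    have := nrm_eq_sp_add_df x
    omega
  have h3 : (sp x : ℝ) ≤ r := by exact_mod_cast h2
  have hr : (0 : ℝ) ≤ r := Nat.cast_nonneg r
  simp only [h0, mul_zero, zero_add]
  linarith

theorem k4 (m e r : ℕ) (x : V m) (he : e ≤ 1) (h : nrm x ≤ r) (h' : r ≤ nrm x + e) :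
    DS e (fun u => if nrm (x - u) + e ≤ r then (1 : ℝ) else 0) ≤ r + 1 := by
  have key : ∀ i, ((if nrm (x - Pi.single i 1) + e ≤ r then (1 : ℝ) else 0) +
      if nrm (x - Pi.single i (-1)) + e ≤ r then (1 : ℝ) else 0) ≤
      if x i = 0 then (0 : ℝ) else 1 := by
    intro i
    have h1 := nrm_sub_single x i 1
    have h2 := nrm_sub_single x i (-1)
    split_ifs <;> first | omega | norm_num
  unfold DS
  have h1 := Finset.sum_le_sum fun i (_ : i ∈ (univ : Finset (Fin m))) => key i
  rw [sp_cast] at h1
  have h2 : sp x ≤ r := by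
    have := nrm_eq_sp_add_df x
    omega
  have h3 : (sp x : ℝ) ≤ r := by exact_mod_cast h2
  have h4 : (e : ℝ) ≤ 1 := by exact_mod_cast he
  have h5 : (e : ℝ) * (if nrm (x - 0) + e ≤ r then (1 : ℝ) else 0) ≤ 1 := by
    split_ifs
    · linarith
    · norm_num
  linarith

theorem k5 (m e r : ℕ) (y : V m) : sh e (r + 1) (rc one1) y ≤
    DS 0 fun u => sh e r (fun d _ => if d = 0 then (1 : ℝ) else 0) (y - u) := by
  have hn : ∀ z : V m, 0 ≤ sh e r (fun d _ => if d = 0 then (1 : ℝ) else 0) z := by
    intro z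
    simp only [sh]
    split_ifs <;> norm_num
  unfold DS
  simp only [Nat.cast_zero, zero_mul, zero_add]
  have hnn : ∀ i ∈ (univ : Finset (Fin m)),
      0 ≤ sh e r (fun d _ => if d = 0 then (1 : ℝ) else 0) (y - Pi.single i 1) +
        sh e r (fun d _ => if d = 0 then (1 : ℝ) else 0) (y - Pi.single i (-1)) :=
    fun i _ => add_nonneg (hn _) (hn _)
  by_cases h0 : sh e (r + 1) (rc one1) y = 0
  · rw [h0]
    exact Finset.sum_nonneg hnn
  · obtain ⟨h1, h2, h3⟩ := sh_ne h0
    have hd : df y = 1 := by
      by_contra hc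
      exact h3 (by simp [rc, one1, hc])
    have hv : sh e (r + 1) (rc one1) y = 1 := by
      simp [sh, h1, h2, rc, one1, hd]
    obtain ⟨i, hi⟩ := exists_two hd.ge
    refine le_trans ?_ (Finset.single_le_sum hnn (Finset.mem_univ i))
    rw [hv]
    have a1 := nrm_sub_single y i 1
    have a2 := nrm_sub_single y i (-1)
    have a3 := df_sub_single y i 1
    have a4 := df_sub_single y i (-1)
    have a5 := le_df y i
    simp only [sh]
    split_ifs <;> first | omega | norm_num

theorem k6 (m r : ℕ) (p : V m) (h : nrm p ≤ r + 2) (hd : 1 ≤ df p) : 1 ≤ T2 r p := by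
  obtain ⟨i, hi⟩ := exists_two hd
  have h1 : 1 ≤ tt p := by
    have := Finset.single_le_sum (f := fun i => if 2 ≤ (p i).natAbs then 1 else 0)
      (fun _ _ => Nat.zero_le _) (Finset.mem_univ i)
    simp only [hi, if_true] at this
    exact this
  have h2 : (1 : ℝ) ≤ tt p := by exact_mod_cast h1
  exact h2.trans (tt_le_T2 r p h)

end Diraux

theorem pDir : SDir :=
  ⟨Diraux.k1, Diraux.k2, Diraux.k3, Diraux.k4, Diraux.k5, Diraux.k6⟩

end Pool.Agent.P.MP_d10a06_co.GW
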