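import Pool.Agent.P.MP_d10a06_co.GW.Lower

set_option autoImplicit false

namespace Pool.Agent.P.MP_d10a06_co.GW

open Finset Filter
open scoped Classical

theorem core (D : SDir) (A : SAsy) (Ge : SGeo) (CU : SCertU) (CL : SCertL) {e r : ℕ} (he : e ≤ 1)
    (hr : 4 ≤ r) : ∃ c : ℝ, 0 < c ∧ ∀ᶠ m : ℕ in atTop,
      ∀ (G : Type) [AddCommGroup G] [Fintype G] (S : Code m e r G),
        S.δ * (c * (m : ℝ) ^ (r - 2)) ≤ S.U := by
  have h : ∀ ρ, ρ ≤ r → Goal e r ρ := fun ρ a => by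
    rcases a.eq_or_lt with rfl | a
    exacts [lower D A Ge CL he hr, upper D A CU he hr a]
  choose! K K0 hK using h
  obtain ⟨c, c0, hc⟩ := A.low (r - 1)
  have p0 : ∀ ρ ∈ range (r + 1), 0 ≤ K ρ := fun ρ a => K0 ρ (Nat.lt_succ_iff.1 (mem_range.1 a))
  have p1 := sum_nonneg p0
  refine ⟨c / (∑ ρ ∈ range (r + 1), K ρ + 1), by positivity, ?_⟩
  filter_upwards [(eventually_all_finset (range (r + 1))).2 fun ρ a =>
    hK ρ (Nat.lt_succ_iff.1 (mem_range.1 a)), eventually_ge_atTop (2 * r)] with m h1 h2 G _ _ S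
  have a1 := Nat.mod_lt (2 * m + e + r) r.succ_pos
  have a2 : r - (2 * m + e + r) % (r + 1) ∈ range (r + 1) := mem_range.2 (by omega)
  have h3 := h1 _ a2 G S (by
    rw [← Nat.add_sub_assoc (Nat.lt_succ_iff.1 a1)]
    exact Nat.dvd_sub_mod _)
  have h4 := mul_le_mul_of_nonneg_left (hc m (by omega)) S.δ_nonneg
  have m0 : (0 : ℝ) < m := by exact_mod_cast (by omega : 0 < m)
  have h5 := mul_le_mul_of_nonneg_right (single_le_sum p0 a2) (mul_nonneg m0.le S.U_nonneg)
  have h6 := mul_nonneg m0.le S.U_nonneg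
  rw [show r - 1 = r - 2 + 1 by omega, pow_succ] at h4
  rw [show r - 1 = r - 2 + 1 by omega] at h3
  rw [div_mul_eq_mul_div, ← mul_div_assoc, div_le_iff₀ (by positivity)]
  refine le_of_mul_le_mul_right ?_ m0
  linarith

variable {m r : ℕ} {G : Type} [AddCommGroup G]

/-- the code for even `t` -/
def codeE (φ : V m →+ G) (h : ∀ x, x ≠ 0 → φ x = 0 → 2 * r + 1 ≤ nrm x) : Code m 1 r G where
  φ := φ
  C c := c = 0
  par _ := 0
  he := le_rfl
  sep c x a b n := by have := h x n (by rwa [a, zero_add] at b); omega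
  hp a := absurd a one_ne_zero
  hc a := absurd a one_ne_zero

/-- the parity of the weight -/
def parH (m : ℕ) : V m →+ ZMod 2 where
  toFun y := ∑ i, (y i : ZMod 2)
  map_zero' := by simp
  map_add' x y := by simp [sum_add_distrib]

theorem parH_eq (y : V m) : parH m y = nrm y := by
  simp only [parH, nrm, AddMonoidHom.coe_mk, ZeroHom.coe_mk, Nat.cast_sum, ZMod.natAbs_mod_two]

theorem odd_sep (φ : V m →+ G) (h : ∀ x, x ≠ 0 → φ x = 0 → 2 * r + 2 ≤ nrm x) {x u : V m}
    (hu : nrm u = 1) (a : φ x = φ u) (b : parH m x = 0) : 2 * r + 2 ≤ nrm x := by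
  rw [parH_eq, ZMod.natCast_eq_zero_iff] at b
  have h1 := nrm_sub_mod x u
  have h2 := nrm_sub_le x u
  have h3 := h (x - u) (fun c => by rw [c, nrm_zero] at h1; omega) (by rw [map_sub, a, sub_self])
  omega

/-- the code for odd `t` -/
def codeO (φ : V m →+ G) (h : ∀ x, x ≠ 0 → φ x = 0 → 2 * r + 2 ≤ nrm x) (u : V m) (hu : nrm u = 1) :
    Code m 0 r (G × ZMod 2) where
  φ := φ.prod (parH m)
  C c := c = 0 ∨ c = (φ u, 0)
  par c := c.2.val
  he := zero_le_one
  sep c x a b n := by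
    rcases a with rfl | rfl <;> rcases b with b | b <;>
      simp only [AddMonoidHom.prod_apply, Prod.ext_iff, Prod.fst_add, Prod.snd_add, Prod.fst_zero,
        Prod.snd_zero, zero_add, add_eq_left] at b
    · exact h x n b.1
    · exact odd_sep φ h hu b.1 b.2
    · exact odd_sep φ h (u := -u) (by simpa using hu)
        (by rw [map_neg]; exact eq_neg_of_add_eq_zero_right b.1) b.2
    · exact h x n b.1
  hp _ c y := by
    simp only [AddMonoidHom.prod_apply, Prod.snd_add, parH_eq, ZMod.val_add, ZMod.val_natCast]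
    omega
  hc _ c a := by rcases a with rfl | rfl <;> rfl

theorem ex_hom {t : ℕ} (A : Finset G) (h : ∀ c : G → ℤ, 1 ≤ ∑ a ∈ A, |c a| → ∑ a ∈ A, |c a| ≤ t →
    ∑ a ∈ A, c a • a ≠ 0) : ∃ φ : V A.card →+ G, ∀ x, x ≠ 0 → φ x = 0 → t + 1 ≤ nrm x := by
  refine ⟨(Fintype.linearCombination ℤ fun i => (A.equivFin.symm i : G)).toAddMonoidHom,
    fun x n a => not_lt.1 fun b => ?_⟩
  have k : ∀ {M : Type} [AddCommMonoid M] (F : ℤ → G → M),
      ∑ a ∈ A, F (if h : a ∈ A then x (A.equivFin ⟨a, h⟩) else 0) a =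
        ∑ i, F (x i) (A.equivFin.symm i) := fun F => by
    rw [← sum_coe_sort, ← Equiv.sum_comp A.equivFin.symm]
    exact sum_congr rfl fun i _ => by simp
  have k1 : ∑ i, |x i| = nrm x := by simp [nrm]
  have k2 : nrm x ≠ 0 := fun c => n (nrm_eq_zero c)
  refine h (fun a => if h : a ∈ A then x (A.equivFin ⟨a, h⟩) else 0) ?_ ?_ ?_
  · rw [k fun z _ => |z|, k1]; omega
  · rw [k fun z _ => |z|, k1]; omega
  · rw [k fun z a => z • a]; exact a

theorem main (N : SCnt) (D : SDir) (A : SAsy) (Ge : SGeo) (CU : SCertU) (CL : SCertL) {t : ℕ}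
    (ht : 8 ≤ t) : ∃ c : ℝ, 0 < c ∧ ∃ m0 : ℕ, ∀ (G : Type) [AddCommGroup G] [Finite G]
      (B : Finset G), m0 ≤ B.card →
      (∀ c : G → ℤ, 1 ≤ ∑ a ∈ B, |c a| → ∑ a ∈ B, |c a| ≤ t → ∑ a ∈ B, c a • a ≠ 0) →
      ((if t % 2 = 0 then ∑ i ∈ range (t / 2 + 1), B.card.choose i * (t / 2).choose i * 2 ^ i
        else ∑ i ∈ Icc 1 ((t + 1) / 2), (B.card - 1).choose (i - 1) * ((t + 1) / 2).choose i * 2 ^ i
          : ℕ) : ℝ) + c * (B.card : ℝ) ^ (t / 2 - 2) ≤ Nat.card G := by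
  obtain ⟨c, c0, hc⟩ := core D A Ge CU CL (e := 1 - t % 2) (r := t / 2) (by omega) (by omega)
  obtain ⟨m0, hc⟩ := eventually_atTop.1 hc
  refine ⟨c, c0, m0 + 1, fun G _ _ B hB hI => ?_⟩
  have := Fintype.ofFinite G
  obtain ⟨φ, hφ⟩ := ex_hom B hI
  have hc := hc _ (by omega : m0 ≤ B.card)
  generalize B.card = m at *
  rw [Nat.card_eq_fintype_card]
  split_ifs with h
  · rw [h] at hc
    let S := codeE (r := t / 2) φ fun x a b => by have := hφ x a b; omega
    have h1 := hc G S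
    have h2 := S.count
    have h3 : S.δ = 1 := by simp [Code.δ, Code.I, S, codeE]
    rw [N.ball _ _ _ (by omega), h3] at h2
    simp only [Code.Pc, one_ne_zero, false_imp_iff, if_true, sum_const, card_univ, nsmul_eq_mul]
      at h2
    rw [h3] at h1
    linarith
  · rw [show t % 2 = 1 by omega] at hc
    obtain ⟨m, rfl⟩ : ∃ m', m = m' + 1 := ⟨m - 1, by omega⟩
    have hu : nrm (Pi.single 0 1 : V (m + 1)) = 1 := nrm_single _ _
    let S := codeO (r := t / 2) φ (fun x a b => by have := hφ x a b; omega) _ hu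
    have h1 := hc _ S
    have h2 := S.count
    have h3 : S.δ = 2 := by
      have : (0 : G × ZMod 2) ≠ (φ (Pi.single 0 1), 0) := fun b => by
        have := hφ _ (fun z => by rw [z] at hu; simp at hu) (congrArg Prod.fst b).symm
        omega
      have e : ∀ c, S.I c = if c ∈ ({0, (φ (Pi.single 0 1), 0)} : Finset (G × ZMod 2)) then 1
        else 0 := fun c => if_congr (by simp [S, codeO]) rfl rfl
      simp only [Code.δ, e, sum_ite_mem, univ_inter, sum_pair this]
      norm_num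
    have h4 : ∑ z, (if S.Pc (t / 2) z then (1 : ℝ) else 0) = Fintype.card G := by
      rw [Fintype.sum_prod_type, ← mul_one (Fintype.card G : ℝ), ← nsmul_eq_mul, ← card_univ,
        ← sum_const]
      refine sum_congr rfl fun g _ => (Fin.sum_univ_two _).trans ?_
      have e : ∀ a : ZMod 2, S.Pc (t / 2) (g, a) ↔ a.val % 2 = t / 2 % 2 := fun a =>
        ⟨fun b => b rfl, fun b _ => b⟩
      have e0 : S.Pc (t / 2) (g, (0 : Fin 2)) ↔ 0 = t / 2 % 2 := e 0
      have e1 : S.Pc (t / 2) (g, (1 : Fin 2)) ↔ 1 = t / 2 % 2 := e 1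
      simp only [e0, e1]
      split_ifs <;> first | omega | norm_num
    rw [h3, N.par _ _ _ (by omega), h4] at h2
    rw [h3] at h1
    have h5 : 0 ≤ c * ((m + 1 : ℕ) : ℝ) ^ (t / 2 - 2) := by positivity
    rw [show (t + 1) / 2 = t / 2 + 1 by omega, ← Ico_add_one_right_eq_Icc, sum_Ico_eq_sum_range]
    simp only [Nat.add_sub_cancel, add_comm 1]
    linarith

end Pool.Agent.P.MP_d10a06_co.GW
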