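import Pool.Agent.P.MP_d10a06_co.GW.Base

/-! Geodesic points of the Lee metric. -/

namespace Pool.Agent.P.MP_d10a06_co.GW

open Finset

namespace Geoaux

variable {m : ℕ}

/-- one unit can be removed without losing the excess -/
theorem step (x : V m) (w d : ℕ) (h1 : 2 * d ≤ w) (h2 : w < nrm x) (h3 : d ≤ df x) :
    ∃ (i : Fin m) (s : ℤ), s.natAbs = 1 ∧ nrm (x - Pi.single i s) + 1 = nrm x ∧
      d ≤ df (x - Pi.single i s) := by
  have key : ∃ i, x i ≠ 0 ∧ (d < df x ∨ (x i).natAbs = 1) := by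
    by_contra hc
    push Not at hc
    rcases h3.lt_or_eq with h | h
    · have h0 : x = 0 := by
        funext i
        by_contra hi
        exact absurd h (not_lt.2 (hc i hi).1)
      rw [h0, nrm_zero] at h2
      omega
    · have h4 : nrm x ≤ 2 * df x := by
        unfold nrm df
        rw [Finset.mul_sum]
        refine Finset.sum_le_sum fun i _ => ?_
        by_cases hi : x i = 0
        · simp [hi]
        · have := (hc i hi).2
          omega
      omega
  obtain ⟨i, hi, h⟩ := key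
  obtain ⟨s, hs, hs'⟩ : ∃ s : ℤ, s.natAbs = 1 ∧ (x i - s).natAbs + 1 = (x i).natAbs := by
    rcases lt_or_gt_of_ne hi with h0 | h0
    · exact ⟨-1, rfl, by omega⟩
    · exact ⟨1, rfl, by omega⟩
  have h5 := nrm_sub_single x i s
  have h6 := df_sub_single x i s
  exact ⟨i, s, hs, by omega, by omega⟩

theorem sub (x : V m) (w d : ℕ) (h1 : 2 * d ≤ w) (h2 : w ≤ nrm x) (h3 : d ≤ df x) :
    ∃ p : V m, nrm p = w ∧ nrm (x - p) + w ≤ nrm x ∧ d ≤ df p := by
  obtain ⟨n, hn⟩ := Nat.exists_eq_add_of_le h2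
  induction n generalizing x with
  | zero => exact ⟨x, by omega, by simp [h2], h3⟩
  | succ n ih =>
    obtain ⟨i, s, hs, h4, h5⟩ := step x w d h1 (by omega) h3
    obtain ⟨p, hp1, hp2, hp3⟩ := ih (x - Pi.single i s) (by omega) h5 (by omega)
    have h6 := nrm_tri x (x - Pi.single i s) p
    rw [sub_sub_cancel, nrm_single] at h6
    exact ⟨p, hp1, by omega, hp3⟩

/-- the excess of the triangle inequality in one coordinate is at most the total excess -/
theorem exc_le (x y : V m) (c : ℕ) (h : nrm y + nrm (x - y) ≤ nrm x + c) (i : Fin m) :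
    (y i).natAbs + (x i - y i).natAbs ≤ (x i).natAbs + c := by
  have h1 : ∑ j, ((y j).natAbs + (x j - y j).natAbs - (x j).natAbs) + nrm x =
      nrm y + nrm (x - y) := by
    unfold nrm
    rw [← Finset.sum_add_distrib, ← Finset.sum_add_distrib]
    refine Finset.sum_congr rfl fun j _ => ?_
    simp only [Pi.sub_apply]
    omega
  have h2 := Finset.single_le_sum
    (f := fun j => (y j).natAbs + (x j - y j).natAbs - (x j).natAbs)
    (fun _ _ => Nat.zero_le _) (Finset.mem_univ i)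
  omega

theorem card (R : ℕ) (x : V m) :
    ((Bx m R).filter fun y => nrm y + nrm (x - y) ≤ nrm x).card ≤ 2 ^ nrm x := by
  have h1 : ((Bx m R).filter fun y => nrm y + nrm (x - y) ≤ nrm x) ⊆
      Fintype.piFinset fun i => Finset.uIcc 0 (x i) := by
    intro y hy
    refine Fintype.mem_piFinset.2 fun i => ?_
    have := exc_le x y 0 (mem_filter.1 hy).2 i
    rw [Finset.mem_uIcc]
    omega
  refine (Finset.card_le_card h1).trans ?_
  rw [Fintype.card_piFinset, nrm, ← Finset.prod_pow_eq_pow_sum]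
  refine Finset.prod_le_prod' fun i _ => ?_
  rw [Int.card_uIcc, sub_zero]
  exact Nat.lt_two_pow_self

theorem df_le (x y : V m) (h : nrm y + nrm (x - y) ≤ nrm x + 2) :
    2 * (df y + df (x - y)) + nrm x ≤ 2 * df x + (nrm y + nrm (x - y)) := by
  unfold df
  have h1 := exc_le x y 2 h
  unfold nrm
  rw [← Finset.sum_add_distrib, Finset.mul_sum, Finset.mul_sum, ← Finset.sum_add_distrib,
    ← Finset.sum_add_distrib, ← Finset.sum_add_distrib]
  refine Finset.sum_le_sum fun i _ => ?_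
  have := h1 i
  simp only [Pi.sub_apply]
  omega

theorem two_le_df {y : V m} (h : ∃ i, 3 ≤ (y i).natAbs) : 2 ≤ df y := by
  obtain ⟨i, hi⟩ := h
  have h2 := Finset.single_le_sum (f := fun j => (y j).natAbs - 1) (fun _ _ => Nat.zero_le _)
    (Finset.mem_univ i)
  unfold df
  omega

/-- a point of excess two is a neighbour of a geodesic point -/
theorem near (x y : V m) (h : nrm y + nrm (x - y) = nrm x + 2) :
    ∃ (i : Fin m) (s : ℤ), (s = 1 ∨ s = -1) ∧
      nrm (y - Pi.single i s) + nrm (x - (y - Pi.single i s)) ≤ nrm x := by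
  obtain ⟨i, hi⟩ : ∃ i, (x i).natAbs < (y i).natAbs + (x i - y i).natAbs := by
    by_contra hc
    push Not at hc
    have : nrm y + nrm (x - y) ≤ nrm x := by
      unfold nrm
      rw [← Finset.sum_add_distrib]
      exact Finset.sum_le_sum fun i _ => hc i
    omega
  obtain ⟨s, hs, hs'⟩ : ∃ s : ℤ, (s = 1 ∨ s = -1) ∧ (y i - s).natAbs + (x i - y i - -s).natAbs + 2 ≤
      (y i).natAbs + (x i - y i).natAbs := by
    rcases lt_or_ge 0 (y i) with h0 | h0
    · exact ⟨1, Or.inl rfl, by omega⟩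
    · exact ⟨-1, Or.inr rfl, by omega⟩
  refine ⟨i, s, hs, ?_⟩
  have h1 := nrm_sub_single y i s
  have h2 := nrm_sub_single (x - y) i (-s)
  have h3 : x - (y - Pi.single i s) = x - y - Pi.single i (-s) := by
    rw [Pi.single_neg]
    abel
  rw [h3]
  simp only [Pi.sub_apply] at h2
  omega

theorem card2 (R : ℕ) (x : V m) (hR : nrm x ≤ R) (A : Finset (V m))
    (hA : ∀ y ∈ A, nrm y + nrm (x - y) = nrm x + 2) : A.card ≤ 2 * m * 2 ^ nrm x := by
  classical
  have h1 : A ⊆ ((univ : Finset (Fin m)) ×ˢ ({1, -1} : Finset ℤ)).biUnion fun q =>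
      ((Bx m R).filter fun y => nrm y + nrm (x - y) ≤ nrm x).image
        fun y => y + Pi.single q.1 q.2 := by
    intro y hy
    obtain ⟨i, s, hs, h⟩ := near x y (hA y hy)
    refine mem_biUnion.2 ⟨(i, s), mem_product.2 ⟨mem_univ _, by simpa using hs⟩, ?_⟩
    exact mem_image.2 ⟨y - Pi.single i s, mem_filter.2 ⟨mem_Bx_of_nrm (by omega), h⟩, by simp⟩
  refine (Finset.card_le_card h1).trans ((Finset.card_biUnion_le_card_mul _ _ (2 ^ nrm x)
    fun q _ => Finset.card_image_le.trans (card R x)).trans ?_)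
  refine Nat.mul_le_mul_right _ ?_
  rw [card_product, card_univ, Fintype.card_fin, mul_comm]
  exact Nat.mul_le_mul_right _ Finset.card_le_two

theorem term_nonneg (w d r : ℕ) (x p : V m) : 0 ≤ PP w d p * bl r (x - p) := by
  unfold PP bl
  split_ifs <;> norm_num

theorem one_le (w d r R : ℕ) (x : V m) (h1 : 2 * d ≤ w) (h2 : w ≤ nrm x) (h3 : d ≤ df x)
    (h4 : nrm x ≤ w + r) (h5 : w ≤ R) : 1 ≤ ∑ p ∈ Bx m R, PP w d p * bl r (x - p) := by
  obtain ⟨p, hp1, hp2, hp3⟩ := sub x w d h1 h2 h3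
  refine le_trans ?_ (Finset.single_le_sum (fun q _ => term_nonneg w d r x q)
    (mem_Bx_of_nrm (y := p) (by omega)))
  rw [PP, bl, if_pos ⟨hp1.le, hp3⟩, if_pos (by omega), mul_one]

theorem card_le_mul {A : Finset (V m)} {c S : ℝ} (hc : 0 ≤ c) (hS : 0 ≤ S)
    (h : A.Nonempty → (A.card : ℝ) ≤ c ∧ 1 ≤ S) : (A.card : ℝ) ≤ c * S := by
  rcases A.eq_empty_or_nonempty with h0 | h0
  · rw [h0, card_empty, Nat.cast_zero]
    exact mul_nonneg hc hS
  · exact (h h0).1.trans (le_mul_of_one_le_right hc (h h0).2)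

theorem three (r : ℕ) (x : V m) (hr : 4 ≤ r) (hx : 2 * r + 1 ≤ nrm x) :
    ∑ y ∈ Bx m (2 * r + 4), Y3 r y * Y3 r (x - y) ≤ 2 ^ (2 * r + 4) *
      (∑ p ∈ Bx m (2 * r + 4), PP (r + 4) 4 p * bl r (x - p) +
        2 * m * ∑ p ∈ Bx m (2 * r + 4), PP (r + 2) 3 p * bl r (x - p)) := by
  classical
  set A : ℕ → Finset (V m) := fun c => (Bx m (2 * r + 4)).filter fun y =>
    nrm y ≤ r + 2 ∧ nrm (x - y) ≤ r + 2 ∧ 2 ≤ df y ∧ 2 ≤ df (x - y) ∧
      nrm y + nrm (x - y) = nrm x + c with hA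
  have h1 : ∑ y ∈ Bx m (2 * r + 4), Y3 r y * Y3 r (x - y) ≤ ((A 0).card : ℝ) + (A 2).card := by
    simp only [hA]
    rw [Finset.card_filter, Finset.card_filter, Nat.cast_sum, Nat.cast_sum,
      ← Finset.sum_add_distrib]
    refine Finset.sum_le_sum fun y _ => ?_
    unfold Y3
    by_cases ha : nrm y ≤ r + 2 ∧ ∃ i, 3 ≤ (y i).natAbs
    · by_cases hb : nrm (x - y) ≤ r + 2 ∧ ∃ i, 3 ≤ ((x - y) i).natAbs
      · rw [if_pos ha, if_pos hb, mul_one]
        have h2 := two_le_df ha.2
        have h3 := two_le_df hb.2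
        have h4 := nrm_add_le y (x - y)
        have h5 := nrm_add_mod y (x - y)
        rw [add_sub_cancel] at h4 h5
        have h6 := ha.1
        have h7 := hb.1
        rcases (by omega : nrm y + nrm (x - y) = nrm x + 0 ∨ nrm y + nrm (x - y) = nrm x + 2)
          with h | h
        · rw [if_pos ⟨h6, h7, h2, h3, h⟩, Nat.cast_one]
          exact le_add_of_nonneg_right (Nat.cast_nonneg _)
        · rw [if_pos (c := _ ∧ _ ∧ _ ∧ _ ∧ _ = nrm x + 2) ⟨h6, h7, h2, h3, h⟩, Nat.cast_one]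
          exact le_add_of_nonneg_left (Nat.cast_nonneg _)
      · rw [if_neg hb, mul_zero]
        positivity
    · rw [if_neg ha, zero_mul]
      positivity
  have h2 : ((A 0).card : ℝ) ≤ 2 ^ (2 * r + 4) *
      ∑ p ∈ Bx m (2 * r + 4), PP (r + 4) 4 p * bl r (x - p) := by
    refine card_le_mul (by positivity) (sum_nonneg fun p _ => term_nonneg _ _ _ _ _) ?_
    rintro ⟨y, hy⟩
    obtain ⟨-, a1, a2, a3, a4, a5⟩ := mem_filter.1 hy
    have a6 := df_le x y (by omega)
    refine ⟨?_, one_le _ _ _ _ x (by omega) (by omega) (by omega) (by omega) (by omega)⟩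
    have a7 : (A 0).card ≤ 2 ^ (2 * r + 4) := by
      refine le_trans (Finset.card_le_card fun z hz => ?_) ((card (2 * r + 4) x).trans
        (Nat.pow_le_pow_right two_pos (by omega)))
      obtain ⟨b0, -, -, -, -, b5⟩ := mem_filter.1 hz
      exact mem_filter.2 ⟨b0, by omega⟩
    exact_mod_cast a7
  have h3 : ((A 2).card : ℝ) ≤ (2 * m * 2 ^ (2 * r + 4)) *
      ∑ p ∈ Bx m (2 * r + 4), PP (r + 2) 3 p * bl r (x - p) := by
    refine card_le_mul (by positivity) (sum_nonneg fun p _ => term_nonneg _ _ _ _ _) ?_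
    rintro ⟨y, hy⟩
    obtain ⟨-, a1, a2, a3, a4, a5⟩ := mem_filter.1 hy
    have a6 := df_le x y (by omega)
    refine ⟨?_, one_le _ _ _ _ x (by omega) (by omega) (by omega) (by omega) (by omega)⟩
    have a7 : (A 2).card ≤ 2 * m * 2 ^ (2 * r + 4) :=
      (card2 (2 * r + 4) x (by omega) (A 2) fun z hz => (mem_filter.1 hz).2.2.2.2.2).trans
        (Nat.mul_le_mul_left _ (Nat.pow_le_pow_right two_pos (by omega)))
    exact_mod_cast a7
  rw [mul_add]
  refine h1.trans (add_le_add h2 (h3.trans (le_of_eq ?_)))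
  ring

end Geoaux

theorem pGeo : SGeo where
  sub := fun _ x w d => Geoaux.sub x w d
  card := fun _ R x => Geoaux.card R x
  three := fun _ r x => Geoaux.three r x

end Pool.Agent.P.MP_d10a06_co.GW
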