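import Pool.Agent.P.MP_d10a06_co.GW.Base

set_option autoImplicit false

namespace Pool.Agent.P.MP_d10a06_co.GW

open Finset
open scoped Classical

variable {m : ℕ}

/-! ## sums over directions -/

theorem DS_add (e : ℕ) (f g : V m → ℝ) : DS e (fun u => f u + g u) = DS e f + DS e g := by
  simp only [DS, sum_add_distrib]; ring

theorem DS_mul (e : ℕ) (a : ℝ) (f : V m → ℝ) : DS e (fun u => a * f u) = a * DS e f := by
  simp only [DS, mul_add, mul_sum]; ring

theorem DS_const (e : ℕ) (a : ℝ) : DS e (fun _ : V m => a) = (2 * m + e) * a := by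
  simp [DS]; ring

theorem DS_sum {ι : Type} (e : ℕ) (s : Finset ι) (f : ι → V m → ℝ) :
    DS e (fun u => ∑ i ∈ s, f i u) = ∑ i ∈ s, DS e (f i) := by
  induction s using Finset.induction_on with
  | empty => simp [DS]
  | insert a s h ih => simp only [sum_insert h, DS_add, ih]

theorem DS_neg (e : ℕ) (f : V m → ℝ) : DS e (fun u => f (-u)) = DS e f := by
  simp only [DS, neg_zero, ← Pi.single_neg, neg_neg]
  congr 1
  exact sum_congr rfl fun i _ => add_comm _ _

theorem DS_mono {e : ℕ} {f g : V m → ℝ} (h : ∀ u, nrm u ≤ 1 → 1 ≤ nrm u + e → f u ≤ g u) :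
    DS e f ≤ DS e g := by
  refine add_le_add ?_ (sum_le_sum fun i _ => add_le_add (h _ ?_ ?_) (h _ ?_ ?_))
  · rcases Nat.eq_zero_or_pos e with rfl | he
    · simp
    · exact mul_le_mul_of_nonneg_left (h 0 (by simp) (by omega)) (Nat.cast_nonneg _)
  all_goals simp [nrm_single]

theorem DS_congr {e : ℕ} {f g : V m → ℝ} (h : ∀ u, nrm u ≤ 1 → 1 ≤ nrm u + e → f u = g u) :
    DS e f = DS e g :=
  le_antisymm (DS_mono fun u a b => (h u a b).le) (DS_mono fun u a b => (h u a b).ge)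

theorem DS_nonneg {e : ℕ} {f : V m → ℝ} (h : ∀ u, 0 ≤ f u) : 0 ≤ DS e f := by
  simpa [DS_const] using DS_mono (e := e) (f := fun _ => 0) (g := f) fun u _ _ => h u

theorem DS_zero_le {e : ℕ} {f : V m → ℝ} (h : ∀ u, 0 ≤ f u) : DS 0 f ≤ DS e f := by
  have := mul_nonneg (Nat.cast_nonneg (α := ℝ) e) (h 0)
  simp only [DS, Nat.cast_zero, zero_mul]
  linarith

/-- a natural number -/
def IsN (x : ℝ) : Prop := ∃ n : ℕ, x = n

theorem IsN.add {x y : ℝ} (h : IsN x) (h' : IsN y) : IsN (x + y) :=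
  let ⟨a, ha⟩ := h; let ⟨b, hb⟩ := h'; ⟨a + b, by rw [ha, hb, Nat.cast_add]⟩

theorem IsN.mul {x y : ℝ} (h : IsN x) (h' : IsN y) : IsN (x * y) :=
  let ⟨a, ha⟩ := h; let ⟨b, hb⟩ := h'; ⟨a * b, by rw [ha, hb, Nat.cast_mul]⟩

theorem IsN.sum {ι : Type} (s : Finset ι) {f : ι → ℝ} (h : ∀ i, IsN (f i)) : IsN (∑ i ∈ s, f i) :=
  sum_induction _ IsN (fun _ _ => IsN.add) ⟨0, by simp⟩ fun i _ => h i

theorem IsN.ite (p : Prop) [Decidable p] : IsN (if p then 1 else 0) := by
  split_ifs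
  exacts [⟨1, by simp⟩, ⟨0, by simp⟩]

theorem IsN.DS (e : ℕ) {f : V m → ℝ} (h : ∀ u, IsN (f u)) : IsN (DS e f) :=
  (IsN.mul ⟨e, rfl⟩ (h _)).add (IsN.sum _ fun _ => (h _).add (h _))

theorem IsN.sh (e W : ℕ) {g : ℕ → ℕ → ℝ} (h : ∀ d j, IsN (g d j)) (y : V m) : IsN (sh e W g y) := by
  unfold GW.sh
  split_ifs
  exacts [h _ _, ⟨0, by simp⟩]

theorem sh_nonneg (e W : ℕ) {g : ℕ → ℕ → ℝ} (h : ∀ d j, 0 ≤ g d j) (y : V m) : 0 ≤ sh e W g y := by
  unfold sh
  split_ifs
  exacts [h _ _, le_rfl]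

theorem sh_mono (e W : ℕ) {g g' : ℕ → ℕ → ℝ} (y : V m) (h : g (df y) (n2 y) ≤ g' (df y) (n2 y)) :
    sh e W g y ≤ sh e W g' y := by
  unfold sh
  split_ifs
  exacts [h, le_rfl]

theorem sh_sq (e W : ℕ) (g : ℕ → ℕ → ℝ) (y : V m) :
    sh e W g y ^ 2 = sh e W (fun d j => g d j ^ 2) y := by
  unfold sh
  split_ifs <;> simp

theorem bl_nonneg (r : ℕ) (y : V m) : 0 ≤ bl r y := by unfold bl; split_ifs <;> norm_num

/-! ## codes -/

/-- a code in a finite abelian group with `m` marked elements -/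
structure Code (m e r : ℕ) (G : Type) [AddCommGroup G] where
  φ : V m →+ G
  C : G → Prop
  par : G → ℕ
  he : e ≤ 1
  sep : ∀ c x, C c → C (c + φ x) → x ≠ 0 → 2 * r + 2 ≤ nrm x + e
  hp : e = 0 → ∀ h y, par (h + φ y) % 2 = (par h + nrm y) % 2
  hc : e = 0 → ∀ c, C c → par c % 2 = 0

namespace Code

variable {e r : ℕ} {G : Type} [AddCommGroup G] [Fintype G] (S : Code m e r G)

noncomputable def I (h : G) : ℝ := if S.C h then 1 else 0
noncomputable def cv (f : V m → ℝ) (h : G) : ℝ := ∑ y ∈ Bx m (2 * r + 4), f y * S.I (h + S.φ y)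
noncomputable def δ : ℝ := ∑ h, S.I h
def Pc (w : ℕ) (z : G) : Prop := e = 0 → S.par z % 2 = w % 2
noncomputable def un (z : G) : ℝ :=
  if S.Pc r z ∧ ¬ ∃ y, nrm y ≤ r ∧ S.C (z + S.φ y) then 1 else 0
noncomputable def U : ℝ := ∑ z, S.un z
def Dp (h : G) : Prop := S.Pc (r + 1) h ∧ ∀ y, S.C (h + S.φ y) → r + 1 ≤ nrm y + e
noncomputable def dp (h : G) : ℝ := if S.Dp h then 1 else 0
noncomputable def om (h : G) : ℝ := DS e fun u => S.un (h + S.φ u)

omit [Fintype G] in
theorem I_nonneg (h : G) : 0 ≤ S.I h := by unfold I; split_ifs <;> norm_num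
omit [Fintype G] in
theorem un_nonneg (h : G) : 0 ≤ S.un h := by unfold un; split_ifs <;> norm_num
omit [Fintype G] in
theorem om_nonneg (h : G) : 0 ≤ S.om h := DS_nonneg fun _ => S.un_nonneg _
theorem δ_nonneg : 0 ≤ S.δ := sum_nonneg fun _ _ => S.I_nonneg _
theorem U_nonneg : 0 ≤ S.U := sum_nonneg fun _ _ => S.un_nonneg _

theorem sum_shift (F : G → ℝ) (a : G) : ∑ h, F (h + a) = ∑ h, F h :=
  Equiv.sum_comp (Equiv.addRight a) F

theorem sum_cv (f : V m → ℝ) : ∑ h, S.cv f h = S.δ * ∑ y ∈ Bx m (2 * r + 4), f y := by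
  unfold cv
  rw [sum_comm, mul_sum]
  exact sum_congr rfl fun y _ => by rw [← mul_sum, sum_shift S.I, mul_comm, δ]

theorem sum_DS (e' : ℕ) (F : G → ℝ) :
    ∑ h, DS e' (fun u => F (h + S.φ u)) = (2 * m + e') * ∑ h, F h := by
  rw [← DS_sum, ← DS_const]
  exact DS_congr fun u _ _ => sum_shift F _

theorem sum_om : ∑ h, S.om h = (2 * m + e) * S.U := S.sum_DS e S.un

omit [Fintype G]

theorem uniq {h : G} {y y' : V m} (a : S.C (h + S.φ y)) (b : S.C (h + S.φ y'))
    (c : nrm (y - y') + e < 2 * r + 2) : y = y' := by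
  by_contra n
  have := S.sep _ (y - y') b (by rwa [map_sub, add_add_sub_cancel]) (sub_ne_zero.2 n)
  omega

theorem pc_of {h : G} {y : V m} (a : S.C (h + S.φ y)) {w : ℕ} (b : e = 0 → nrm y % 2 = w % 2) :
    S.Pc w h := fun he => by
  have := S.hp he h y
  have := S.hc he _ a
  have := b he
  omega

theorem cv_mono {f g : V m → ℝ} {h : G} (a : ∀ y, S.C (h + S.φ y) → f y ≤ g y) :
    S.cv f h ≤ S.cv g h := sum_le_sum fun y _ => by
  unfold I
  split_ifs with b
  · simpa using a y b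
  · simp

theorem cv_congr {f g : V m → ℝ} {h : G} (a : ∀ y, S.C (h + S.φ y) → f y = g y) :
    S.cv f h = S.cv g h :=
  le_antisymm (S.cv_mono fun y b => (a y b).le) (S.cv_mono fun y b => (a y b).ge)

theorem cv_zero {f : V m → ℝ} {h : G} (a : ∀ y, S.C (h + S.φ y) → f y = 0) : S.cv f h = 0 :=
  (S.cv_congr (g := fun _ => 0) a).trans (by simp [cv])

theorem cv_nonneg {f : V m → ℝ} (a : ∀ y, 0 ≤ f y) (h : G) : 0 ≤ S.cv f h :=
  sum_nonneg fun y _ => mul_nonneg (a y) (S.I_nonneg _)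

theorem cv_add (f g : V m → ℝ) (h : G) : S.cv (fun y => f y + g y) h = S.cv f h + S.cv g h := by
  simp only [cv, add_mul, sum_add_distrib]

theorem cv_mul (a : ℝ) (f : V m → ℝ) (h : G) : S.cv (fun y => a * f y) h = a * S.cv f h := by
  simp only [cv, mul_assoc, mul_sum]

theorem cv_sum {ι : Type} (s : Finset ι) (f : ι → V m → ℝ) (h : G) :
    S.cv (fun y => ∑ i ∈ s, f i y) h = ∑ i ∈ s, S.cv (f i) h := by
  simp only [cv, sum_mul]
  exact sum_comm

theorem cv_DS (e' : ℕ) (f : V m → V m → ℝ) (h : G) :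
    S.cv (fun y => DS e' fun u => f u y) h = DS e' fun u => S.cv (f u) h := by
  simp only [cv]
  rw [DS_sum]
  exact sum_congr rfl fun y _ => by rw [mul_comm, ← DS_mul]; simp only [mul_comm]

theorem cv_isN {f : V m → ℝ} (a : ∀ y, IsN (f y)) (h : G) : IsN (S.cv f h) :=
  IsN.sum _ fun y => (a y).mul (IsN.ite _)

theorem le_cv {f : V m → ℝ} (a : ∀ y, 0 ≤ f y) {h : G} {y : V m} (b : S.C (h + S.φ y))
    (c : nrm y ≤ 2 * r + 4) : f y ≤ S.cv f h := by
  have := single_le_sum (f := fun y => f y * S.I (h + S.φ y))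
    (fun y _ => mul_nonneg (a y) (S.I_nonneg _)) (mem_Bx_of_nrm c)
  rwa [I, if_pos b, mul_one] at this

theorem cv_single {f : V m → ℝ} {h : G} {y : V m} (b : S.C (h + S.φ y)) (c : nrm y ≤ 2 * r + 4)
    (a : ∀ y', S.C (h + S.φ y') → f y' ≠ 0 → y' = y) : S.cv f h = f y := by
  rw [cv, sum_eq_single_of_mem y (mem_Bx_of_nrm c) fun y' _ n => ?_]
  · simp [I, b]
  · unfold I
    split_ifs with d
    · rw [not_not.1 fun z => n (a y' d z), zero_mul]
    · rw [mul_zero]

/-- a function with support in a ball of radius `r` meets at most one codeword -/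
theorem cv_le {f : V m → ℝ} {p : V m} {B : ℝ} (hB : 0 ≤ B) (a : ∀ y, f y ≤ B)
    (b : ∀ y, f y ≠ 0 → nrm (y - p) ≤ r) (h : G) : S.cv f h ≤ B := by
  by_cases c : ∃ y ∈ Bx m (2 * r + 4), S.C (h + S.φ y) ∧ f y ≠ 0
  · obtain ⟨y, c1, c2, c3⟩ := c
    rw [cv, sum_eq_single_of_mem y c1 fun y' _ n => ?_]
    · simpa [I, c2] using a y
    · unfold I
      split_ifs with d
      · refine mul_eq_zero_of_left (not_not.1 fun z => n (S.uniq d c2 ?_)) _
        have := nrm_tri y' p y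
        have := b y c3
        have := b y' z
        have := S.he
        rw [nrm_sub_comm p] at *
        omega
      · rw [mul_zero]
  · refine le_trans (le_of_eq (sum_eq_zero fun y hy => ?_)) hB
    unfold I
    split_ifs with d
    · exact mul_eq_zero_of_left (not_not.1 fun z => c ⟨y, hy, d, z⟩) _
    · rw [mul_zero]

theorem cv_bl_le (p : V m) (h : G) : S.cv (fun x => bl r (x - p)) h ≤ 1 :=
  S.cv_le (p := p) zero_le_one (fun y => by unfold bl; split_ifs <;> norm_num)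
    (fun y a => by unfold bl at a; by_contra b; exact a (if_neg b)) h

theorem cv_T2 (h : G) : S.cv (T2 r) h ≤ 2 * m := by
  have := S.cv_DS 0 (fun u x => bl r (x - (u + u))) h
  refine this.trans_le ((DS_mono fun u _ _ => S.cv_bl_le _ h).trans ?_)
  simp [DS_const]

theorem cv_bl {p : V m} (a : nrm p ≤ r + 4) {h : G} (b : S.Pc r (h + S.φ p)) :
    S.cv (fun x => bl r (x - p)) h = 1 - S.un (h + S.φ p) := by
  unfold un
  by_cases c : ∃ y, nrm y ≤ r ∧ S.C (h + S.φ p + S.φ y)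
  · rw [if_neg fun d => d.2 c, sub_zero]
    obtain ⟨y, c1, c2⟩ := c
    rw [add_assoc, ← map_add] at c2
    have := nrm_add_le p y
    refine le_antisymm (S.cv_bl_le p h) (le_trans ?_
      (S.le_cv (f := fun x => bl r (x - p)) (fun _ => bl_nonneg _ _) c2 (by omega)))
    simp [bl, c1]
  · rw [if_pos ⟨b, c⟩, sub_self]
    refine S.cv_zero fun y d => if_neg fun z => c ⟨y - p, z, ?_⟩
    rwa [map_sub, add_add_sub_cancel]

/-- the directions at a deep hole -/
theorem deep_eq (D : SDir) {h : G} (a : S.Dp h) :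
    S.om h + (r + 1) * S.cv (sh e (r + 1) fun _ _ => 1) h =
      2 * m + e + S.cv (sh e (r + 1) fun d _ => (d : ℝ)) h := by
  have h1 : S.cv (fun y => DS e fun u => bl r (y - u)) h = 2 * m + e - S.om h := by
    rw [S.cv_DS e fun u y => bl r (y - u), eq_sub_iff_add_eq, om, ← DS_add,
      ← mul_one (2 * (m : ℝ) + e), ← DS_const]
    refine DS_congr fun u b c => ?_
    rw [S.cv_bl (by omega) fun he => ?_, sub_add_cancel]
    have := S.hp he h u
    have := a.1 he
    omega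
  have h2 := S.cv_congr (h := h) fun y b => D.k1 m e r y S.he (a.2 y b)
  have h3 := S.cv_add (sh e (r + 1) fun d _ => (r : ℝ) + 1 - d) (sh e (r + 1) fun d _ => (d : ℝ)) h
  have h4 := S.cv_mul (r + 1) (sh e (r + 1) fun _ _ => 1) h
  rw [← h4, S.cv_congr (g := fun y => sh e (r + 1) (fun d _ => (r : ℝ) + 1 - d) y +
    sh e (r + 1) (fun d _ => (d : ℝ)) y) fun y _ => by unfold sh; split_ifs <;> ring]
  linarith

theorem not_deep {h : G} (a : ¬ S.Dp h) (g : ℕ → ℕ → ℝ) : S.cv (sh e (r + 1) g) h = 0 :=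
  S.cv_zero fun y b => not_not.1 fun c => a (by
    obtain ⟨c1, c2, -⟩ := sh_ne c
    refine ⟨S.pc_of b fun he => by omega, fun y' d => not_lt.1 fun z => ?_⟩
    have := nrm_sub_le y y'
    have := S.uniq b d (by omega)
    subst this
    omega)

theorem cv_par (w w' : ℕ) (hw : w' ≤ r) (h : G) :
    S.cv (fun y => if nrm y ≤ w' ∧ (e = 1 ∨ nrm y % 2 = w % 2) then 1 else 0) h =
      if S.Pc w h ∧ ∃ y, nrm y ≤ w' ∧ S.C (h + S.φ y) then 1 else 0 := by
  have he := S.he
  split_ifs with c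
  · obtain ⟨c0, y, c1, c2⟩ := c
    refine (S.cv_single c2 (by omega) fun y' d z => S.uniq d c2 ?_).trans (if_pos ⟨c1, ?_⟩)
    · have := nrm_sub_le y' y
      have : nrm y' ≤ w' := by by_contra n; exact z (if_neg fun t => n t.1)
      omega
    · rcases Nat.eq_zero_or_pos e with he | he
      · have := S.hp he h y
        have := S.hc he _ c2
        have := c0 he
        omega
      · omega
  · exact S.cv_zero fun y d => if_neg fun z => c ⟨S.pc_of d fun t => by omega, y, z.1, d⟩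

variable [Fintype G]

theorem count : ∑ z, (if S.Pc r z then (1 : ℝ) else 0) =
    S.U + S.δ * ∑ y ∈ Bx m (2 * r + 4), ballF e r y := by
  rw [← sum_cv, U, ← sum_add_distrib]
  refine sum_congr rfl fun z _ => ?_
  have := S.cv_par r r le_rfl z
  rw [show S.cv (ballF e r) z = _ from this, un]
  by_cases a : S.Pc r z <;> by_cases b : ∃ y, nrm y ≤ r ∧ S.C (z + S.φ y) <;> simp [a, b]

theorem sum_dp (hm : 0 < m) (hr : 1 ≤ r) : ∑ h, S.dp h =
    S.U + S.δ * ∑ y ∈ Bx m (2 * r + 4), (ballF e r y - shalF e r y) := by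
  have he := S.he
  have h1 : ∑ z, (if S.Pc r z then (1 : ℝ) else 0) = ∑ z, if S.Pc (r + 1) z then 1 else 0 := by
    rw [← sum_shift _ (S.φ (Pi.single ⟨0, hm⟩ 1))]
    refine sum_congr rfl fun z _ => if_congr (forall_congr' fun he => ?_) rfl rfl
    have := S.hp he z (Pi.single ⟨0, hm⟩ 1)
    rw [nrm_single] at this
    omega
  rw [sum_sub_distrib, mul_sub, ← add_sub_assoc, ← count, h1, ← sum_cv, ← sum_sub_distrib]
  refine sum_congr rfl fun z _ => ?_
  have h2 : S.cv (shalF e r) z = _ := (S.cv_congr fun y _ => if_congr (and_congr_left'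
    (by omega)) rfl rfl).trans (S.cv_par (r + 1) (r - e) (by omega) z)
  have h3 : (∀ y, S.C (z + S.φ y) → r + 1 ≤ nrm y + e) ↔
      ¬ ∃ y, nrm y ≤ r - e ∧ S.C (z + S.φ y) :=
    ⟨fun a ⟨y, b, c⟩ => by have := a y c; omega, fun a y b => not_lt.1 fun c => a ⟨y, by omega, b⟩⟩
  rw [h2, dp, Dp, h3]
  by_cases a : S.Pc (r + 1) z <;> by_cases b : ∃ y, nrm y ≤ r - e ∧ S.C (z + S.φ y) <;> simp [a, b]

/-- the second moment as a sum over pairs of codewords -/
theorem pair {f : V m → ℝ} (ev : ∀ y, f (-y) = f y) (su : ∀ y, f y ≠ 0 → nrm y ≤ r + 2) :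
    ∑ h, S.cv f h ^ 2 = S.δ * ∑ y ∈ Bx m (2 * r + 4), f y ^ 2 + ∑ c, S.I c * S.cv
      (fun x => if x = 0 then 0 else ∑ y ∈ Bx m (2 * r + 4), f y * f (x - y)) c := by
  have h1 : ∀ h, S.cv f h ^ 2 = ∑ y ∈ Bx m (2 * r + 4), ∑ x ∈ Bx m (2 * r + 4),
      f y * f (x - y) * (S.I (h + S.φ (-y)) * S.I (h + S.φ (-y) + S.φ x)) := fun h => by
    have e1 := sum_Bx_equiv (R := 2 * r + 4) (fun y => f y * S.I (h + S.φ y)) (Equiv.neg _)
      fun y a => by
        have := su _ (left_ne_zero_of_mul a)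
        simp only [Equiv.neg_apply, nrm_neg] at this ⊢
        omega
    rw [sq, cv]
    conv_lhs => arg 1; rw [← e1]
    rw [sum_mul]
    refine sum_congr rfl fun y _ => ?_
    by_cases b : f y = 0
    · simp [b, ev]
    have e2 := sum_Bx_equiv (R := 2 * r + 4) (fun y => f y * S.I (h + S.φ y)) (Equiv.subRight y)
      fun x a => by
        have := su _ (left_ne_zero_of_mul a)
        have := su y b
        have := nrm_add_le (x - y) y
        simp only [Equiv.subRight_apply, sub_add_cancel] at *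
        omega
    rw [← e2, mul_sum]
    refine sum_congr rfl fun x _ => ?_
    simp only [Equiv.neg_apply, Equiv.subRight_apply, ev]
    rw [add_assoc, ← map_add, neg_add_eq_sub]
    ring
  have h2 : ∑ h, S.cv f h ^ 2 = ∑ c, ∑ x ∈ Bx m (2 * r + 4),
      (∑ y ∈ Bx m (2 * r + 4), f y * f (x - y)) * (S.I c * S.I (c + S.φ x)) := by
    simp only [h1, sum_mul]
    rw [sum_comm]
    refine (sum_congr rfl fun y _ => sum_shift (fun c => ∑ x ∈ Bx m (2 * r + 4),
      f y * f (x - y) * (S.I c * S.I (c + S.φ x))) _).trans ?_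
    rw [sum_comm]
    exact sum_congr rfl fun c _ => sum_comm
  rw [h2, δ, sum_mul, ← sum_add_distrib]
  refine sum_congr rfl fun c _ => ?_
  have h0 : (0 : V m) ∈ Bx m (2 * r + 4) := mem_Bx_of_nrm (by simp)
  rw [cv, ← add_sum_erase _ _ h0, ← add_sum_erase _ (fun x => ite _ _ _ * _) h0, if_pos rfl,
    zero_mul, zero_add, mul_sum _ _ (S.I c), mul_sum _ _ (S.I c)]
  congr 1
  · simp only [zero_sub, ev, map_zero, add_zero, sq, I]
    split_ifs <;> simp
  · exact sum_congr rfl fun x hx => by rw [if_neg (ne_of_mem_erase hx)]; ring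

/-- the certificate sums to a constant up to the uncovered points -/
theorem cover (D : SDir) {g : ℕ → ℕ → ℝ} {L : ℝ} (hL : ∀ d j, |g d j| ≤ L) (h0 : ∀ j, g 0 j = 0) :
    |∑ c, S.I c * S.cv (fun x => if x = 0 then 0 else
      ∑ p ∈ Bx m (2 * r + 4), sh e (r + 2) g p * bl r (x - p)) c -
      S.δ * ∑ p ∈ Bx m (2 * r + 4), sh e (r + 2) g p| ≤ L * (2 * m) * S.U := by
  have he := S.he
  have L0 : 0 ≤ L := (abs_nonneg _).trans (hL 0 0)
  have h1 : ∀ c, S.I c * S.cv (fun x => if x = 0 then 0 else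
      ∑ p ∈ Bx m (2 * r + 4), sh e (r + 2) g p * bl r (x - p)) c =
      S.I c * ∑ p ∈ Bx m (2 * r + 4), sh e (r + 2) g p -
        ∑ p ∈ Bx m (2 * r + 4), sh e (r + 2) g p * (S.I c * S.un (c + S.φ p)) := fun c => by
    unfold I
    split_ifs with hc
    swap
    · simp
    rw [S.cv_congr (g := fun x => ∑ p ∈ Bx m (2 * r + 4), sh e (r + 2) g p * bl r (x - p))
      fun x _ => ?_, cv_sum, one_mul, one_mul, ← sum_sub_distrib]
    · refine sum_congr rfl fun p _ => ?_
      by_cases b : sh e (r + 2) g p = 0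
      · simp [b, cv]
      obtain ⟨b1, b2, -⟩ := sh_ne b
      rw [cv_mul, S.cv_bl (by omega) fun he => ?_]
      · ring
      have := S.hp he c p
      have := S.hc he c hc
      omega
    · split_ifs with hx
      · refine (sum_eq_zero fun p _ => ?_).symm
        by_cases b : sh e (r + 2) g p = 0
        · rw [b, zero_mul]
        obtain ⟨b1, b2, -⟩ := sh_ne b
        rw [hx, zero_sub, bl, nrm_neg, if_neg (by omega), mul_zero]
      · rfl
  have h2 : ∀ p : V m, |sh e (r + 2) g p| ≤ L * T2 r (-p) := fun p => by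
    have t0 : 0 ≤ T2 r (-p) := DS_nonneg fun _ => bl_nonneg _ _
    by_cases b : sh e (r + 2) g p = 0
    · rw [b, abs_zero]; positivity
    obtain ⟨b1, b2, b3⟩ := sh_ne b
    have := D.k6 m r (-p) (by simpa using b1) (by
      rw [df_neg]; exact Nat.pos_of_ne_zero fun z => b3 (by rw [z, h0]))
    rw [sh, if_pos ⟨b1, b2⟩]
    exact (hL _ _).trans (le_mul_of_one_le_right L0 this)
  simp only [h1]
  rw [sum_sub_distrib, ← sum_mul, ← δ, sub_sub_cancel_left, abs_neg, sum_comm]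
  have h3 : ∀ p : V m, |∑ c, sh e (r + 2) g p * (S.I c * S.un (c + S.φ p))| ≤
      ∑ z, L * S.un z * (T2 r (-p) * S.I (z + S.φ (-p))) := fun p => by
    rw [← sum_shift (fun z => L * S.un z * _) (S.φ p)]
    refine (abs_sum_le_sum_abs _ _).trans (sum_le_sum fun c _ => ?_)
    have := mul_nonneg (S.I_nonneg c) (S.un_nonneg (c + S.φ p))
    rw [map_neg, add_neg_cancel_right, abs_mul, abs_of_nonneg this]
    exact (mul_le_mul_of_nonneg_right (h2 p) this).trans_eq (by ring)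
  refine (abs_sum_le_sum_abs _ _).trans ((sum_le_sum fun p _ => h3 p).trans ?_)
  rw [sum_comm, U, mul_sum]
  refine sum_le_sum fun z _ => ?_
  have h4 : ∑ p ∈ Bx m (2 * r + 4), T2 r (-p) * S.I (z + S.φ (-p)) = S.cv (T2 r) z :=
    sum_equiv (Equiv.neg _) (fun y => by simp [mem_Bx]) fun _ _ => rfl
  rw [← mul_sum, h4, mul_right_comm L (2 * (m : ℝ))]
  exact mul_le_mul_of_nonneg_left (S.cv_T2 z) (mul_nonneg L0 (S.un_nonneg z))

end Code

end Pool.Agent.P.MP_d10a06_co.GW
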