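import Pool.Agent.P.MP_d10a06_co.GW.Upper

set_option autoImplicit false

namespace Pool.Agent.P.MP_d10a06_co.GW

open Finset Filter
open scoped Classical

theorem Y3_nonneg {m : ℕ} (r : ℕ) (y : V m) : 0 ≤ Y3 r y := by unfold Y3; split_ifs <;> norm_num

theorem PP_nonneg {m : ℕ} (w d : ℕ) (y : V m) : 0 ≤ PP w d y := by
  unfold PP; split_ifs <;> norm_num

theorem Y3_sq {m : ℕ} (r : ℕ) (y : V m) : Y3 r y ^ 2 ≤ PP (r + 2) 2 y := by
  unfold Y3
  split_ifs with a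
  · obtain ⟨a, i, hi⟩ := a
    have : (y i).natAbs - 1 ≤ df y :=
      single_le_sum (f := fun i => (y i).natAbs - 1) (fun _ _ => Nat.zero_le _) (mem_univ i)
    rw [PP, if_pos ⟨a, by omega⟩, one_pow]
  · simpa using PP_nonneg _ _ y

namespace Code

variable {m e r : ℕ} {G : Type} [AddCommGroup G] (S : Code m e r G)

noncomputable def Dd (h : G) : ℝ := S.cv (sh e (r + 1) fun d _ => (d : ℝ)) h
noncomputable def E (h : G) : ℝ := S.Dd h - r * S.dp h + r * S.om h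
noncomputable def c1 (h : G) : ℝ := S.cv (sh e (r + 1) (rc one1)) h
noncomputable def Gn (z : G) : ℝ := S.cv (sh e r fun d _ => if d = 0 then (1 : ℝ) else 0) z

theorem Dd_nonneg (h : G) : 0 ≤ S.Dd h := S.cv_nonneg (sh_nonneg _ _ fun d _ => d.cast_nonneg) h

theorem dp_le (h : G) : S.dp h ≤ 1 := by unfold dp; split_ifs <;> norm_num

theorem E_nonneg (D : SDir) (c : r + 1 ∣ 2 * m + e + r) (h : G) : 0 ≤ S.E h := by
  have p1 := S.Dd_nonneg h
  have p2 : (0 : ℝ) ≤ r := r.cast_nonneg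
  have p3 := mul_le_mul_of_nonneg_left (S.dp_le h) p2
  unfold E
  rcases S.om_cases h with b | b
  · unfold dp
    split_ifs with a
    · obtain ⟨j, hj⟩ := S.deep_D D a b le_rfl c
      rw [Dd, hj, b]
      have : (0 : ℝ) ≤ (r + 1) * j := by positivity
      linarith
    · rw [b]; linarith
  · have := mul_le_mul_of_nonneg_left b p2
    linarith

theorem c1_nonneg (h : G) : 0 ≤ S.c1 h :=
  S.cv_nonneg (sh_nonneg _ _ fun d _ => by unfold rc one1; split_ifs <;> norm_num) h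

theorem c1_le (h : G) : S.c1 h ≤ S.Dd h := S.cv_mono fun y _ => sh_mono _ _ y (by
  unfold rc one1
  split_ifs with a
  · simp [a]
  · simp)

theorem low_pt (h : G) : S.c1 h ^ 2 - r * S.c1 h ≤ S.c1 h * S.E h := by
  have p1 := mul_le_mul_of_nonneg_left (S.c1_le h) (S.c1_nonneg h)
  have p2 := mul_nonneg (S.c1_nonneg h) (mul_nonneg r.cast_nonneg (S.om_nonneg h))
  have p3 := mul_le_mul_of_nonneg_left (S.dp_le h) (mul_nonneg (S.c1_nonneg h) r.cast_nonneg)
  unfold E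
  linarith

theorem Gn_nonneg (z : G) : 0 ≤ S.Gn z :=
  S.cv_nonneg (sh_nonneg _ _ fun d _ => by split_ifs <;> norm_num) z

theorem Gn_le (z : G) : S.Gn z ≤ 1 :=
  S.cv_le (p := 0) zero_le_one (fun y => by unfold sh; beta_reduce; split_ifs <;> norm_num)
    (fun y a => by simpa using (sh_ne a).1) z

theorem c1_le_DS (D : SDir) (h : G) : S.c1 h ≤ DS 0 fun u => S.Gn (h + S.φ u) := by
  refine (S.cv_mono fun y _ => D.k5 m e r y).trans_eq ?_
  rw [S.cv_DS 0 fun u y => sh e r (fun d _ => if d = 0 then (1 : ℝ) else 0) (y - u)]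
  refine DS_congr fun u a _ => ?_
  rw [Gn, cv, cv, ← sum_Bx_equiv _ (Equiv.addRight u) fun y b => ?_]
  · exact sum_congr rfl fun y _ => by
      rw [Equiv.coe_addRight, add_sub_cancel_right, map_add, add_assoc, add_comm (S.φ y)]
  · have := (sh_ne (left_ne_zero_of_mul b)).1
    have := nrm_add_le y u
    simp only [Equiv.coe_addRight, add_sub_cancel_right] at *
    omega

/-- the local identity at a generic point -/
theorem S_le (D : SDir) {z : G} (a : S.Gn z ≠ 0) : DS e (fun u => S.E (z + S.φ u)) ≤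
    2 * r + r * (r + 1) + (r + 2) ^ 2 * S.cv (Y3 r) z + r * DS e fun u => S.om (z + S.φ u) := by
  have he := S.he
  obtain ⟨x, x1, x2⟩ : ∃ x, S.C (z + S.φ x) ∧
      sh e r (fun d _ => if d = 0 then (1 : ℝ) else 0) x ≠ 0 := by
    by_contra! b
    exact a (S.cv_zero b)
  obtain ⟨x2, x3, x4⟩ := sh_ne x2
  have x5 : df x = 0 := by by_contra b; exact x4 (if_neg b)
  have h1 : DS e (fun u => S.Dd (z + S.φ u)) =
      S.cv (fun y => DS e fun u => sh e (r + 1) (fun d _ => (d : ℝ)) (y - u)) z := by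
    rw [S.cv_DS e fun u y => sh e (r + 1) (fun d _ => (d : ℝ)) (y - u)]
    refine DS_congr fun u a _ => ?_
    rw [Dd, cv, cv, ← sum_Bx_equiv (fun y => _ * S.I (z + S.φ y)) (Equiv.addRight u) fun y b => ?_]
    · exact sum_congr rfl fun y _ => by
        rw [Equiv.coe_addRight, add_sub_cancel_right, map_add, add_assoc, add_comm (S.φ y)]
    · have := (sh_ne (left_ne_zero_of_mul b)).1
      have := nrm_add_le y u
      simp only [Equiv.coe_addRight, add_sub_cancel_right] at *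
      omega
  have h2 := S.cv_mono (h := z) (f := fun y => DS e fun u => sh e (r + 1) (fun d _ => (d : ℝ)) (y - u))
    (g := fun y => 2 * r * bl r (y - 0) + (r * T2 r y + (r + 2) ^ 2 * Y3 r y)) fun y b => by
      have t1 : 0 ≤ T2 r y := DS_nonneg fun _ => bl_nonneg _ _
      have t2 := Y3_nonneg r y
      have t3 := bl_nonneg r (y - 0)
      by_cases c : y = x
      · subst c
        rw [sub_zero, bl, if_pos x2, mul_one]
        exact (D.k3 m e r y x2 x5).trans (le_add_of_nonneg_right (by positivity))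
      · refine (D.k2 m e r y he (not_lt.1 fun d => c (S.uniq b x1 ?_))).trans
          (le_add_of_nonneg_left (by positivity))
        have := nrm_sub_le y x
        omega
  rw [cv_add, cv_add, cv_mul, cv_mul, cv_mul] at h2
  have h3 := mul_le_mul_of_nonneg_left (S.cv_bl_le 0 z) (show (0 : ℝ) ≤ 2 * r by positivity)
  have h4 := mul_le_mul_of_nonneg_left (S.cv_T2 z) r.cast_nonneg
  have h5 : DS e (fun _ : V m => (1 : ℝ)) ≤ DS e fun u => S.dp (z + S.φ u) +
      if nrm (x - u) + e ≤ r then (1 : ℝ) else 0 := DS_mono fun u u1 u2 => by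
    unfold dp
    split_ifs with b c c <;> try norm_num
    refine b ⟨fun t => ?_, fun y d => not_lt.1 fun f => c ?_⟩
    · have := S.hp t z u
      have := S.pc_of x1 (w := r) (fun _ => by omega) t
      omega
    · rw [add_assoc, ← map_add] at d
      have := nrm_sub_le (u + y) x
      have := nrm_add_le u y
      rw [← S.uniq d x1 (by omega), add_sub_cancel_left]
      omega
  rw [DS_const, DS_add] at h5
  have h6 := mul_le_mul_of_nonneg_left (h5.trans (add_le_add le_rfl (D.k4 m e r x he x2 x3)))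
    r.cast_nonneg
  have h7 : DS e (fun u => S.E (z + S.φ u)) = DS e (fun u => S.Dd (z + S.φ u)) +
      (-r * DS e (fun u => S.dp (z + S.φ u)) + r * DS e fun u => S.om (z + S.φ u)) := by
    rw [← DS_mul, ← DS_mul, ← DS_add, ← DS_add]
    exact DS_congr fun u _ _ => by unfold E; ring
  have h8 : (0 : ℝ) ≤ r * e := by positivity
  linarith

theorem heavy_pt (D : SDir) (c : r + 1 ∣ 2 * m + e + r) {T : ℝ} (hT : 0 < T) (z : G) :
    S.Gn z * DS 0 (fun u => if T ≤ S.E (z + S.φ u) then S.E (z + S.φ u) else 0) ≤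
      8 / T * ((2 * r + r * (r + 1)) ^ 2 * S.Gn z + (r + 2) ^ 4 * S.cv (Y3 r) z ^ 2) +
        2 * r * DS e fun u => S.om (z + S.φ u) := by
  have p1 : 0 ≤ (r : ℝ) * DS e fun u => S.om (z + S.φ u) :=
    mul_nonneg r.cast_nonneg (DS_nonneg fun _ => S.om_nonneg _)
  have p2 := S.Gn_nonneg z
  have p3 := S.Gn_le z
  have p4 := S.cv_nonneg (Y3_nonneg r) z
  have p5 : 0 ≤ 8 / T * ((2 * r + r * (r + 1)) ^ 2 * S.Gn z + (r + 2) ^ 4 * S.cv (Y3 r) z ^ 2) := by
    positivity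
  by_cases a : S.Gn z = 0
  · rw [a, zero_mul, ← a]; linarith
  by_cases b : ∀ u, nrm u ≤ 1 → 1 ≤ nrm u + 0 → S.E (z + S.φ u) < T
  · rw [DS_congr (g := fun _ => 0) fun u u1 u2 => if_neg (b u u1 u2).not_ge, DS_const]
    linarith
  push Not at b
  obtain ⟨u, u1, u2, u3⟩ := b
  have q1 := S.S_le D a
  have q0 : ∀ u, 0 ≤ if T ≤ S.E (z + S.φ u) then S.E (z + S.φ u) else 0 := fun u => by
    split_ifs
    exacts [S.E_nonneg D c _, le_rfl]
  have q2 : DS 0 (fun u => if T ≤ S.E (z + S.φ u) then S.E (z + S.φ u) else 0) ≤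
      DS e fun u => S.E (z + S.φ u) := (DS_zero_le q0).trans (DS_mono fun u _ _ => by
    split_ifs
    exacts [le_rfl, S.E_nonneg D c _])
  have q3 : T ≤ DS e fun u => S.E (z + S.φ u) := by
    refine u3.trans (le_trans ?_ (DS_zero_le fun u => S.E_nonneg D c _))
    obtain ⟨i, hi⟩ : ∃ i, u i ≠ 0 := by
      by_contra! t
      rw [show u = 0 from funext t] at u2
      simp at u2
    have t1 := nrm_sub_single u i (u i)
    have t2 := natAbs_le_nrm u i
    have t3 : u = Pi.single i (u i) := sub_eq_zero.1 (nrm_eq_zero (by omega))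
    have t4 := single_le_sum (f := fun i => S.E (z + S.φ (Pi.single i 1)) +
      S.E (z + S.φ (Pi.single i (-1)))) (fun _ _ => add_nonneg (S.E_nonneg D c _) (S.E_nonneg D c _))
      (mem_univ i)
    have t5 := S.E_nonneg D c (z + S.φ (Pi.single i 1))
    have t6 := S.E_nonneg D c (z + S.φ (Pi.single i (-1)))
    simp only [DS, Nat.cast_zero, zero_mul, zero_add]
    rcases (by omega : u i = 1 ∨ u i = -1) with t | t <;> rw [t3, t] <;> linarith
  have q4 := mul_le_mul_of_nonneg_left q2 p2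
  generalize DS e (fun u => S.E (z + S.φ u)) = X at *
  have q5 : (0 : ℝ) ≤ 2 * r + r * (r + 1) := by positivity
  generalize (2 * r + r * (r + 1) : ℝ) = a0 at *
  have q6 : 0 ≤ (r + 2 : ℝ) ^ 2 * S.cv (Y3 r) z := by positivity
  rw [show (r + 2 : ℝ) ^ 4 * S.cv (Y3 r) z ^ 2 = ((r + 2) ^ 2 * S.cv (Y3 r) z) ^ 2 by ring] at p5 ⊢
  generalize (r + 2 : ℝ) ^ 2 * S.cv (Y3 r) z = a1 at *
  have q7 := mul_le_of_le_one_left (hT.le.trans q3) p3
  rcases le_total (a0 + a1) (r * DS e fun u => S.om (z + S.φ u)) with t | t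
  · linarith
  · have t1 : X * T ≤ 8 * (a0 ^ 2 + a1 ^ 2) := by nlinarith [sq_nonneg (a0 - a1)]
    have t2 := mul_le_mul_of_nonneg_left t1 p2
    have t3 := mul_le_of_le_one_left (sq_nonneg a1) p3
    have t4 : S.Gn z * X ≤ 8 / T * (a0 ^ 2 * S.Gn z + a1 ^ 2) := by
      rw [div_mul_eq_mul_div, le_div_iff₀ hT]
      linarith
    linarith

variable [Fintype G]

theorem sum_N3 (Ge : SGeo) (hr : 4 ≤ r) : ∑ z, S.cv (Y3 r) z ^ 2 ≤
    S.δ * (∑ y ∈ Bx m (2 * r + 4), PP (r + 2) 2 y + 2 ^ (2 * r + 4) *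
      (∑ y ∈ Bx m (2 * r + 4), PP (r + 4) 4 y + 2 * m * ∑ y ∈ Bx m (2 * r + 4), PP (r + 2) 3 y)) := by
  have he := S.he
  rw [S.pair (fun y => by simp [Y3]) fun y a => by
    by_contra b; exact a (if_neg fun t => b t.1), mul_add]
  refine add_le_add (mul_le_mul_of_nonneg_left (sum_le_sum fun y _ => Y3_sq r y) S.δ_nonneg)
    ((S.pair_mono fun x a => Ge.three m r x hr (by omega)).trans ?_)
  rw [δ, sum_mul]
  refine sum_le_sum fun c _ => mul_le_mul_of_nonneg_left ?_ (S.I_nonneg c)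
  have h1 : ∀ w d, S.cv (fun x => ∑ p ∈ Bx m (2 * r + 4), PP w d p * bl r (x - p)) c ≤
      ∑ p ∈ Bx m (2 * r + 4), PP w d p := fun w d => by
    rw [cv_sum]
    exact sum_le_sum fun p _ => by
      rw [cv_mul]; exact mul_le_of_le_one_right (PP_nonneg _ _ _) (S.cv_bl_le p c)
  have h2 : ∀ w d (x : V m), 0 ≤ ∑ p ∈ Bx m (2 * r + 4), PP w d p * bl r (x - p) := fun w d x =>
    sum_nonneg fun p _ => mul_nonneg (PP_nonneg _ _ _) (bl_nonneg _ _)
  refine (S.cv_mono (g := fun x => 2 ^ (2 * r + 4) *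
    (∑ p ∈ Bx m (2 * r + 4), PP (r + 4) 4 p * bl r (x - p) +
      2 * m * ∑ p ∈ Bx m (2 * r + 4), PP (r + 2) 3 p * bl r (x - p))) fun x _ => ?_).trans ?_
  · split_ifs
    · have := h2 (r + 4) 4 x
      have := h2 (r + 2) 3 x
      positivity
    · exact le_rfl
  · rw [cv_mul, cv_add, cv_mul]
    exact mul_le_mul_of_nonneg_left (add_le_add (h1 _ _)
      (mul_le_mul_of_nonneg_left (h1 _ _) (by positivity))) (by positivity)

theorem low_sum (D : SDir) (hm : 0 < m) (hr : 1 ≤ r) {β : ℕ → ℕ → ℝ} {L : ℝ}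
    (hL : ∀ d j, |β d j| ≤ L) (h0 : ∀ j, β 0 j = 0)
    (ce : ∀ x : V m, 2 * r + 2 ≤ nrm x + e →
      ∑ p ∈ Bx m (2 * r + 4), sh e (r + 2) β p * bl r (x - p) ≤
        ∑ y ∈ Bx m (2 * r + 4), sh e (r + 1) (rc one1) y * sh e (r + 1) (rc one1) (x - y))
    (c : r + 1 ∣ 2 * m + e + r) {T : ℝ} (hT : 0 < T) :
    S.δ * (∑ y ∈ Bx m (2 * r + 4), sh e (r + 1) (fun d j => rc one1 d j ^ 2) y +
      ∑ y ∈ Bx m (2 * r + 4), sh e (r + 2) β y -
      r * ∑ y ∈ Bx m (2 * r + 4), sh e (r + 1) (rc one1) y -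
      (T + r) * (∑ y ∈ Bx m (2 * r + 4), sh e (r + 1) (fun d _ => (d : ℝ)) y -
        r * ∑ y ∈ Bx m (2 * r + 4), (ballF e r y - shalF e r y)) -
      8 / T * ((2 * r + r * (r + 1)) ^ 2 *
        ∑ y ∈ Bx m (2 * r + 4), sh e r (fun d _ => if d = 0 then (1 : ℝ) else 0) y)) ≤
      8 / T * (r + 2) ^ 4 * ∑ z, S.cv (Y3 r) z ^ 2 +
        (2 * L + 3 * (T + r) * r + 18 * r) * m ^ 2 * S.U := by
  have h1 : ∀ h, S.c1 h ^ 2 - r * S.c1 h ≤ (T + r) * S.E h +
      DS 0 fun u => (if T ≤ S.E h then S.E h else 0) * S.Gn (h + S.φ u) := fun h => by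
    refine (S.low_pt h).trans ?_
    have p1 := S.E_nonneg D c h
    rw [DS_mul]
    split_ifs with a
    · have := mul_le_mul_of_nonneg_left (S.c1_le_DS D h) p1
      have : 0 ≤ (T + r) * S.E h := by positivity
      linarith
    · have p2 := mul_le_mul_of_nonneg_left (S.dp_le h) r.cast_nonneg
      have p3 := mul_nonneg r.cast_nonneg (S.om_nonneg h)
      have p4 := S.c1_le h
      rw [zero_mul, add_zero]
      refine mul_le_mul_of_nonneg_right ?_ p1
      unfold E at a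
      linarith
  have h2 : ∑ h, DS 0 (fun u => (if T ≤ S.E h then S.E h else 0) * S.Gn (h + S.φ u)) =
      ∑ z, S.Gn z * DS 0 fun u => if T ≤ S.E (z + S.φ u) then S.E (z + S.φ u) else 0 := by
    simp only [← DS_mul]
    rw [← DS_sum, ← DS_sum, ← DS_neg]
    refine DS_congr fun u _ _ => ?_
    rw [← sum_shift _ (S.φ u)]
    exact sum_congr rfl fun z _ => by rw [map_neg, add_neg_cancel_right, mul_comm]
  have h3 := sum_le_sum (s := univ) fun h _ => h1 h
  have h4 := sum_le_sum (s := univ) fun z _ => S.heavy_pt D c hT z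
  rw [sum_add_distrib, h2] at h3
  replace h3 := h3.trans (add_le_add le_rfl h4)
  simp only [c1, E, Dd, Gn, sum_add_distrib, sum_sub_distrib, ← mul_sum, sum_cv, sum_om, sum_DS,
    S.sum_dp hm hr] at h3
  rw [S.pair (sh_neg _ _ _) fun y a => by have := (sh_ne a).1; omega] at h3
  have h5 := S.pair_mono ce
  have h6 := (abs_le.1 (S.cover D hL h0)).1
  simp only [sh_sq] at h3
  have m1 : (1 : ℝ) ≤ m := by exact_mod_cast hm
  have e1 : (e : ℝ) ≤ 1 := by exact_mod_cast S.he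
  have e0 : (0 : ℝ) ≤ e := e.cast_nonneg
  have L0 : 0 ≤ L := (abs_nonneg _).trans (hL 0 0)
  have m2 : (m : ℝ) ≤ m ^ 2 := by nlinarith
  have h7 := mul_le_mul_of_nonneg_left m2 (mul_nonneg L0 S.U_nonneg)
  have h8 := mul_le_mul_of_nonneg_left (show (2 * m + e - 1 : ℝ) ≤ 3 * m ^ 2 by linarith)
    (mul_nonneg (show 0 ≤ (T + r) * r by positivity) S.U_nonneg)
  have h9 := mul_le_mul_of_nonneg_left (show (2 * m + e : ℝ) ^ 2 ≤ 9 * m ^ 2 by nlinarith)
    (mul_nonneg r.cast_nonneg S.U_nonneg)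
  simp only [sum_sub_distrib]
  linarith

end Code

theorem first {s : ℕ} (A : SAsy) {X : ℕ → ℝ} {a b : ℝ} (h : ∃ K : ℝ, 0 ≤ K ∧ ∀ m, 2 * s ≤ m →
    |X m - a * MM m (s + 2) - b * MM m (s + 1)| ≤ K * MM m s) :
    ∃ K : ℝ, 0 ≤ K ∧ ∀ᶠ m in atTop, |X m - a * MM m (s + 2)| ≤ K * MM m (s + 1) := by
  obtain ⟨K, -, h⟩ := h
  refine ⟨|b| + 1, by positivity, ?_⟩
  filter_upwards [MM_small A s K, eventually_ge_atTop (2 * s)] with m h1 h2
  have h3 := abs_add_le (X m - a * MM m (s + 2) - b * MM m (s + 1)) (b * MM m (s + 1))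
  rw [abs_mul, abs_of_nonneg (MM_nonneg _ _), sub_add_cancel] at h3
  linarith [h m h2]

theorem lower (D : SDir) (A : SAsy) (Ge : SGeo) (Ce : SCertL) {e r : ℕ} (he : e ≤ 1) (hr : 4 ≤ r) :
    Goal e r r := by
  obtain ⟨L, l1, l6⟩ := Ce r hr
  obtain ⟨s, rfl⟩ : ∃ s, r = s + 2 := ⟨r - 2, by omega⟩
  have s2 : (2 : ℝ) ≤ s := by exact_mod_cast (by omega : 2 ≤ s)
  have l0 : (0 : ℚ) ≤ 2 * (s + 2 : ℕ) / ((s + 2 : ℕ) - 1) :=
    div_nonneg (by positivity) (by push_cast; linarith [(s.cast_nonneg : (0 : ℚ) ≤ s)])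
  have l2 : |-L| ≤ L := by rw [abs_neg, abs_of_nonneg (l0.trans l1)]
  have hL := abs_bet (L := L) (by rwa [abs_of_nonneg l0]) l2 l2 l2 l2
  have L0 : (0 : ℝ) ≤ L := (abs_nonneg _).trans (hL 0 0)
  obtain ⟨K1, p1, k1⟩ := first A (A.shA e s (fun d j => rc one1 d j ^ 2) he (by simp [rc, one1]))
  obtain ⟨K2, p2, k2⟩ := first A (A.shB e s (rc (bet (2 * (s + 2 : ℕ) / ((s + 2 : ℕ) - 1)) (-L) (-L)
    (-L) (-L))) he (by simp [rc, bet]) (by simp [rc, bet]) (by simp [rc, bet]))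
  obtain ⟨K3, p3, k3⟩ := first A (A.shA e s (rc one1) he (by simp [rc, one1]))
  obtain ⟨K4, p4, k4⟩ := first A (a := 1) (by simpa only [one_mul] using A.deep e s he)
  obtain ⟨K5, p5, k5⟩ := first A (A.shA e s (fun d _ => (d : ℝ)) he (by simp))
  obtain ⟨K6, p6, k6⟩ := A.crude (2 * (s + 2) + 4) (s + 2) (fun w d _ =>
    if w ≤ s + 2 ∧ s + 2 ≤ w + e then if d = 0 then 1 else 0 else 0) fun w d _ a => by
      by_contra b; exact a (if_neg (by omega))
  have cr : ∀ w d t : ℕ, w ≤ d + t → ∃ K : ℝ, 0 ≤ K ∧ ∀ m, 2 * t ≤ m →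
      ∑ y ∈ Bx m (2 * (s + 2) + 4), PP w d y ≤ K * MM m t := fun w d t a => by
    obtain ⟨K, p, k⟩ := A.crude (2 * (s + 2) + 4) t (fun w' d' _ =>
      if w' ≤ w ∧ d ≤ d' then 1 else 0) fun w d _ a => by by_contra b; exact a (if_neg (by omega))
    exact ⟨K, p, fun m a => (le_abs_self _).trans (k m a)⟩
  obtain ⟨K7, p7, k7⟩ := cr (s + 2 + 2) 2 (s + 2) (by omega)
  obtain ⟨K8, p8, k8⟩ := cr (s + 2 + 4) 4 (s + 2) (by omega)
  obtain ⟨K9, p9, k9⟩ := cr (s + 2 + 2) 3 (s + 1) (by omega)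
  obtain ⟨T, hT, T1⟩ : ∃ T : ℝ, 0 < T ∧ 8 / T * ((2 * (s + 2) + (s + 2) * (s + 3)) ^ 2 * K6 +
      (s + 4) ^ 4 * (K7 + 2 ^ (2 * (s + 2) + 4) * (K8 + 2 * (s + 2) * K9))) ≤ 1 := by
    have : 0 ≤ (2 * (s + 2) + (s + 2) * (s + 3)) ^ 2 * K6 +
      (s + 4) ^ 4 * (K7 + 2 ^ (2 * (s + 2) + 4) * (K8 + 2 * (s + 2) * K9)) := by positivity
    refine ⟨_, add_pos_of_nonneg_of_pos (mul_nonneg (show (0 : ℝ) ≤ 8 by norm_num) this) one_pos, ?_⟩
    rw [div_mul_eq_mul_div, div_le_one (by positivity)]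
    linarith
  have e2 : rc (bet (2 * (s + 2 : ℕ) / ((s + 2 : ℕ) - 1)) (-L) (-L) (-L) (-L)) 2 2 =
      2 * (s + 2) / (s + 1) := by
    simp only [rc, bet]; push_cast; ring
  refine ⟨(s + 2) * (2 * L + 3 * (T + (s + 2 : ℕ)) * (s + 2 : ℕ) + 18 * (s + 2 : ℕ)), by positivity,
    ?_⟩
  filter_upwards [k1, k2, k3, k4, k5, eventually_ge_atTop (2 * (s + 2)),
    MM_small A (s + 1) (K1 + K2 + (s + 2) * K3 + (T + s + 2) * (K5 + (s + 2) * K4))]
    with m k1 k2 k3 k4 k5 m2 m1 G _ _ S hd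
  have u := S.low_sum D (by omega) (by omega) hL (fun j => by simp [rc, bet])
    (fun x a => l6 m e x he a) hd hT
  have m0 : (0 : ℝ) < m := by exact_mod_cast (by omega : 0 < m)
  have m3 : m * MM m (s + 1) ≤ (s + 2) * MM m (s + 2) := by
    have h1 := A.ratio m (s + 1)
    have h2 : (2 * (s + 2) : ℝ) ≤ m := by exact_mod_cast m2
    have h3 := mul_nonneg (show (0 : ℝ) ≤ m - 2 * (s + 1) by linarith) (MM_nonneg m (s + 1))
    push_cast at h1
    linarith
  have n3 := (S.sum_N3 Ge hr).trans (mul_le_mul_of_nonneg_left (add_le_add (k7 m m2)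
    (mul_le_mul_of_nonneg_left (add_le_add (k8 m m2) (mul_le_mul_of_nonneg_left (k9 m (by omega))
      (by positivity))) (by positivity))) S.δ_nonneg)
  have k1 := (abs_le.1 k1).1
  have k2 := (abs_le.1 k2).1
  have k3 := mul_le_mul_of_nonneg_left (abs_le.1 k3).2 (show (0 : ℝ) ≤ s + 2 by positivity)
  have k4 := mul_le_mul_of_nonneg_left (abs_le.1 k4).1
    (show (0 : ℝ) ≤ (T + s + 2) * (s + 2) by positivity)
  have k5 := mul_le_mul_of_nonneg_left (abs_le.1 k5).2 (show (0 : ℝ) ≤ T + s + 2 by positivity)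
  have k6 : ∑ y ∈ Bx m (2 * (s + 2) + 4),
      sh e (s + 2) (fun d _ => if d = 0 then (1 : ℝ) else 0) y ≤ _ := (abs_le.1 (k6 m m2)).2
  rw [e2, show ((s : ℝ) + 2) * (s + 1) / 2 * (2 * (s + 2) / (s + 1)) = (s + 2) ^ 2 by field_simp]
    at k2
  have M2 := MM_nonneg m (s + 2)
  have v1 := mul_le_mul_of_nonneg_left k6
    (show 0 ≤ 8 / T * (2 * (s + 2) + (s + 2) * (s + 3)) ^ 2 by positivity)
  have v2 := mul_le_mul_of_nonneg_right T1 M2
  have v3 := mul_le_mul_of_nonneg_left m3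
    (show 0 ≤ 8 / T * (s + 4) ^ 4 * 2 ^ (2 * (s + 2) + 4) * 2 * K9 by positivity)
  have v4 := mul_le_mul_of_nonneg_right s2 M2
  have v5 : S.δ * MM m (s + 2) ≤
      (2 * L + 3 * (T + (s + 2 : ℕ)) * (s + 2 : ℕ) + 18 * (s + 2 : ℕ)) * m ^ 2 * S.U := by
    refine le_trans ?_ (sub_le_iff_le_add'.2 (u.trans (add_le_add (mul_le_mul_of_nonneg_left n3
      (by positivity)) le_rfl)))
    rw [mul_left_comm _ S.δ, ← mul_sub]
    refine mul_le_mul_of_nonneg_left ?_ S.δ_nonneg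
    generalize ∑ y ∈ Bx m (2 * (s + 2) + 4), sh e (s + 2 + 1) _ y = X1 at k1 ⊢
    generalize ∑ y ∈ Bx m (2 * (s + 2) + 4), sh e (s + 2 + 1) _ y = X3 at k3 ⊢
    generalize ∑ y ∈ Bx m (2 * (s + 2) + 4), sh e (s + 2 + 1) _ y = X5 at k5 ⊢
    generalize ∑ y ∈ Bx m (2 * (s + 2) + 4), sh e (s + 2 + 2) _ y = X2 at k2 ⊢
    simp only [rc, one1, if_true, Rat.cast_one, one_pow, Nat.cast_one] at k1 k3 k5
    push_cast
    linarith
  refine le_of_mul_le_mul_left ?_ m0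
  have v6 := mul_le_mul_of_nonneg_left m3 S.δ_nonneg
  have v7 := mul_le_mul_of_nonneg_left v5 (show (0 : ℝ) ≤ s + 2 by positivity)
  rw [show s + 2 - 1 = s + 1 from rfl]
  linarith

end Pool.Agent.P.MP_d10a06_co.GW
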