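import Pool.Agent.P.MP_d10a06_co.GW.Base

/-! An invariant mean on the lattice. -/

set_option autoImplicit false

namespace Pool.Agent.P.MP_d10a06_co.GW

open Finset Filter Topology

namespace Meanaux

variable {m : ℕ}

/-- a mean that is invariant under the elements of a set -/
structure Pre (S : Set (V m)) (μ : (V m → ℝ) → ℝ) : Prop where
  add : ∀ f g, Bd f → Bd g → μ (fun x => f x + g x) = μ f + μ g
  smul : ∀ (c : ℝ) f, Bd f → μ (fun x => c * f x) = c * μ f
  mono : ∀ f g, Bd f → Bd g → (∀ x, f x ≤ g x) → μ f ≤ μ g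
  one : μ (fun _ => 1) = 1
  shift : ∀ f, ∀ a ∈ S, Bd f → μ (fun x => f (x + a)) = μ f

theorem bd_shift {f : V m → ℝ} (h : Bd f) (a : V m) : Bd fun x => f (x + a) :=
  let ⟨B, hB⟩ := h; ⟨B, fun _ => hB _⟩

theorem bd_const (c : ℝ) : Bd fun _ : V m => c := ⟨|c|, fun _ => le_rfl⟩

theorem Pre.bound {S : Set (V m)} {μ : (V m → ℝ) → ℝ} (h : Pre S μ) {f : V m → ℝ} {B : ℝ}
    (hB : ∀ x, |f x| ≤ B) : |μ f| ≤ B := by
  have e : ∀ c : ℝ, μ (fun _ => c) = c := fun c => by
    simpa [h.one] using h.smul c (fun _ => 1) (bd_const 1)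
  exact abs_le.2 ⟨(e _).ge.trans (h.mono _ _ (bd_const _) ⟨B, hB⟩ fun x => (abs_le.1 (hB x)).1),
    (h.mono _ _ ⟨B, hB⟩ (bd_const _) fun x => (abs_le.1 (hB x)).2).trans (e _).le⟩

/-- the averages along the multiples of `a` -/
noncomputable def av (a : V m) (μ : (V m → ℝ) → ℝ) (f : V m → ℝ) (N : ℕ) : ℝ :=
  (∑ j ∈ range (N + 1), μ fun x => f (x + j • a)) / (N + 1)

theorem Pre.tend {S : Set (V m)} {μ : (V m → ℝ) → ℝ} (h : Pre S μ) (a : V m) {f : V m → ℝ}
    (hf : Bd f) :
    Tendsto (av a μ f) (hyperfilter ℕ) (𝓝 (limUnder (hyperfilter ℕ : Filter ℕ) (av a μ f))) := by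
  obtain ⟨B, hB⟩ := hf
  obtain ⟨x, -, hx⟩ := (isCompact_Icc (a := -B) (b := B)).ultrafilter_le_nhds
    ((hyperfilter ℕ).map (av a μ f)) (le_principal_iff.2 (mem_map.2 (Eventually.of_forall fun N => by
      refine abs_le.1 (show |av a μ f N| ≤ B from ?_)
      rw [av, abs_div, abs_of_pos (a := (N : ℝ) + 1) (by positivity), div_le_iff₀ (by positivity)]
      refine (abs_sum_le_sum_abs _ _).trans ((sum_le_card_nsmul _ _ B fun j _ =>
        h.bound fun x => hB _).trans (le_of_eq ?_))
      simp [mul_comm])))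
  exact tendsto_nhds_limUnder ⟨x, hx⟩

theorem Pre.step {S : Set (V m)} {μ : (V m → ℝ) → ℝ} (h : Pre S μ) (a : V m) :
    Pre (insert a S) fun f => limUnder (hyperfilter ℕ : Filter ℕ) (av a μ f) := by
  refine ⟨fun f g hf hg => ?_, fun c f hf => ?_, fun f g hf hg e => ?_, ?_, fun f b hb hf => ?_⟩
  · refine Tendsto.limUnder_eq (((h.tend a hf).add (h.tend a hg)).congr fun N => ?_)
    simp only [av]
    rw [← add_div, ← sum_add_distrib]
    exact congrArg (· / _) (sum_congr rfl fun j _ =>
      (h.add _ _ (bd_shift hf _) (bd_shift hg _)).symm)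
  · refine Tendsto.limUnder_eq (((h.tend a hf).const_mul c).congr fun N => ?_)
    simp only [av]
    rw [← mul_div_assoc, mul_sum]
    exact congrArg (· / _) (sum_congr rfl fun j _ => (h.smul c _ (bd_shift hf _)).symm)
  · exact le_of_tendsto_of_tendsto' (h.tend a hf) (h.tend a hg) fun N =>
      div_le_div_of_nonneg_right (sum_le_sum fun j _ =>
        h.mono _ _ (bd_shift hf _) (bd_shift hg _) fun x => e _) (by positivity)
  · refine Tendsto.limUnder_eq (tendsto_const_nhds.congr fun N => ?_)
    simp only [av, h.one, sum_const, card_range, nsmul_eq_mul]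
    push_cast
    field_simp
  · rcases hb with rfl | hb
    · obtain ⟨B, hB⟩ := id hf
      have z : Tendsto (fun N : ℕ => av b μ (fun x => f (x + b)) N - av b μ f N) atTop (𝓝 0) := by
        refine squeeze_zero_norm (fun N => ?_) (by
          simpa using tendsto_one_div_add_atTop_nhds_zero_nat.const_mul (2 * B))
        have e : av b μ (fun x => f (x + b)) N - av b μ f N =
            ((μ fun x => f (x + (N + 1) • b)) - μ fun x => f (x + 0 • b)) / (N + 1) := by
          rw [av, av, ← sub_div, ← sum_sub_distrib,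
            ← sum_range_sub (fun j : ℕ => μ fun x => f (x + j • b))]
          simp only [add_assoc, succ_nsmul]
        rw [e, Real.norm_eq_abs, abs_div, abs_of_pos (a := (N : ℝ) + 1) (by positivity),
          ← div_eq_mul_inv]
        refine div_le_div_of_nonneg_right ((abs_sub _ _).trans ?_) (by positivity)
        linarith [h.bound (f := fun x => f (x + (N + 1) • b)) fun x => hB _,
          h.bound (f := fun x => f (x + 0 • b)) fun x => hB _]
      refine Tendsto.limUnder_eq ?_
      simpa using (z.mono_left Nat.hyperfilter_le_atTop).add (h.tend b hf)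
    · refine congrArg _ (funext fun N => congrArg (· / _) (sum_congr rfl fun j _ => ?_))
      rw [← h.shift (fun x => f (x + j • a)) b hb (bd_shift hf _)]
      simp only [add_right_comm]

theorem exists_pre (S : Finset (V m)) : ∃ μ, Pre (S : Set (V m)) μ := by
  classical
  induction S using Finset.induction_on with
  | empty => exact ⟨fun f => f 0, fun _ _ _ _ => rfl, fun _ _ _ => rfl, fun _ _ _ _ e => e 0, rfl,
      by simp⟩
  | insert a S _ ih =>
    obtain ⟨μ, h⟩ := ih
    exact ⟨_, coe_insert a S ▸ h.step a⟩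

end Meanaux

open Meanaux in
theorem pMean : SMean := by
  intro m
  obtain ⟨μ, h⟩ := exists_pre (univ.image fun i : Fin m => (Pi.single i 1 : V m))
  let H : AddSubgroup (V m) :=
    { carrier := {a | ∀ f, Bd f → μ (fun x => f (x + a)) = μ f}
      zero_mem' := fun f _ => by simp
      add_mem' := fun {a b} ha hb f hf => by
        rw [← hb f hf, ← ha _ (bd_shift hf b)]
        simp only [add_assoc]
      neg_mem' := fun {a} ha f hf => by
        rw [← ha _ (bd_shift hf (-a))]
        simp }
  refine ⟨μ, h.add, h.smul, h.mono, h.one, fun f a hf => (?_ : a ∈ H) f hf⟩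
  rw [pi_eq_sum_univ' a]
  exact H.sum_mem fun i _ => H.zsmul_mem (fun g hg => h.shift g _ (by simp) hg) _

end Pool.Agent.P.MP_d10a06_co.GW
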