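import Pool.Agent.P.MP_d10a06_co.GW.Base

set_option autoImplicit false

namespace Pool.Agent.P.MP_d10a06_co.GW

open Finset

namespace Splitaux

/-- the box of points between `0` and `x` -/
noncomputable def seg {m : ℕ} (x : V m) : Finset (V m) :=
  Fintype.piFinset fun i => Finset.uIcc 0 (x i)

theorem mem_seg {m : ℕ} {x y : V m} :
    y ∈ seg x ↔ ∀ i, (y i).natAbs + (x i - y i).natAbs = (x i).natAbs := by
  simp only [seg, Fintype.mem_piFinset, Finset.mem_uIcc]
  exact forall_congr' fun i => by omega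

theorem seg_nrm {m : ℕ} {x y : V m} (h : y ∈ seg x) : nrm y + nrm (x - y) = nrm x := by
  unfold nrm
  rw [← sum_add_distrib]
  exact sum_congr rfl fun i _ => mem_seg.1 h i

theorem seg_of_nrm {m : ℕ} {x y : V m} (h : nrm y + nrm (x - y) ≤ nrm x) : y ∈ seg x := by
  unfold nrm at h
  rw [← sum_add_distrib] at h
  have h1 : ∀ i ∈ (univ : Finset (Fin m)),
      (x i).natAbs ≤ (y i).natAbs + ((x - y) i).natAbs := fun i _ => by
    simp only [Pi.sub_apply]
    omega
  have h2 := (sum_eq_sum_iff_of_le h1).1 (le_antisymm (sum_le_sum h1) h)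
  exact mem_seg.2 fun i => (h2 i (mem_univ _)).symm

theorem sum_succ (m : ℕ) (x : V (m + 1)) (f : V (m + 1) → ℝ) :
    ∑ y ∈ seg x, f y =
      ∑ a ∈ Finset.uIcc 0 (x 0), ∑ y ∈ seg (Fin.tail x), f (Fin.cons a y) := by
  rw [← sum_product']
  refine (sum_nbij' (fun p : ℤ × V m => (Fin.cons p.1 p.2 : V (m + 1)))
    (fun y => (y 0, Fin.tail y)) ?_ ?_ ?_ ?_ ?_).symm
  · intro p hp
    rw [mem_product, seg, Fintype.mem_piFinset] at hp
    rw [seg, Fintype.mem_piFinset]
    intro i
    refine Fin.cases ?_ (fun i => ?_) i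
    · simpa using hp.1
    · simpa [Fin.tail] using hp.2 i
  · intro y hy
    rw [seg, Fintype.mem_piFinset] at hy
    rw [mem_product, seg, Fintype.mem_piFinset]
    exact ⟨hy 0, fun i => hy i.succ⟩
  · intro p _; simp
  · intro y _; simp
  · intro p _; rfl

theorem sum_uIcc (a : ℤ) (f : ℕ → ℕ → ℝ) :
    ∑ b ∈ Finset.uIcc 0 a, f b.natAbs (a - b).natAbs =
      ∑ k ∈ range (a.natAbs + 1), f k (a.natAbs - k) := by
  refine sum_nbij' (fun b : ℤ => b.natAbs) (fun k : ℕ => if 0 ≤ a then (k : ℤ) else -(k : ℤ))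
    ?_ ?_ ?_ ?_ ?_
  · intro b hb
    rw [Finset.mem_uIcc] at hb
    rw [mem_range]
    omega
  · intro k hk
    rw [mem_range] at hk
    rw [Finset.mem_uIcc]
    split_ifs <;> omega
  · intro b hb
    rw [Finset.mem_uIcc] at hb
    split_ifs <;> omega
  · intro k _
    split_ifs <;> omega
  · intro b hb
    rw [Finset.mem_uIcc] at hb
    rw [show (a - b).natAbs = a.natAbs - b.natAbs by omega]

theorem Tl_cons (a : ℕ) (l : List ℕ) (F : ℕ → ℕ → ℕ → ℕ → ℕ → ℝ) :
    Tl (a :: l) F = ∑ b ∈ range (a + 1), Tl l fun w d j d' j' =>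
      F (w + b) (d + (b - 1)) (j + if b = 2 then 1 else 0) (d' + (a - b - 1))
        (j' + if a - b = 2 then 1 else 0) := rfl

/-- the sum over the segment box as a list sum -/
theorem seg_Tl (m : ℕ) (x : V m) (F : ℕ → ℕ → ℕ → ℕ → ℕ → ℝ) :
    ∑ y ∈ seg x, F (nrm y) (df y) (n2 y) (df (x - y)) (n2 (x - y)) =
      Tl (List.ofFn fun i => (x i).natAbs) F := by
  induction m generalizing F with
  | zero => simp [seg, Tl, nrm, df, n2]
  | succ m ih =>
    rw [sum_succ, List.ofFn_succ, Tl_cons]
    rw [← sum_uIcc (x 0) fun b c => Tl (List.ofFn fun i : Fin m => (x i.succ).natAbs)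
      fun w d j d' j' => F (w + b) (d + (b - 1)) (j + if b = 2 then 1 else 0) (d' + (c - 1))
        (j' + if c = 2 then 1 else 0)]
    refine sum_congr rfl fun a _ => ?_
    have := ih (Fin.tail x) fun w d j d' j' => F (w + a.natAbs) (d + (a.natAbs - 1))
      (j + if a.natAbs = 2 then 1 else 0) (d' + ((x 0 - a).natAbs - 1))
        (j' + if (x 0 - a).natAbs = 2 then 1 else 0)
    refine Eq.trans (sum_congr rfl fun y _ => ?_) this
    simp only [nrm, df, n2, Fin.sum_univ_succ, Fin.cons_zero, Fin.cons_succ, add_comm,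
      Pi.sub_apply, Fin.tail]
    rfl

theorem Tl_add (l : List ℕ) (F G : ℕ → ℕ → ℕ → ℕ → ℕ → ℝ) :
    Tl l (fun w d j d' j' => F w d j d' j' + G w d j d' j') = Tl l F + Tl l G := by
  induction l generalizing F G with
  | nil => rfl
  | cons a l ih => simp only [Tl_cons, ih, sum_add_distrib]

/-- removing the entries `0` and `1` from the list -/
theorem Tl_filter (l : List ℕ) (F : ℕ → ℕ → ℕ → ℕ → ℕ → ℝ) :
    Tl l F = Tl (l.filter fun a => 2 ≤ a) fun w d j d' j' =>
      ∑ t ∈ range (l.count 1 + 1), ((l.count 1).choose t : ℝ) * F (w + t) d j d' j' := by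
  induction l generalizing F with
  | nil => simp [Tl]
  | cons a l ih =>
    rcases a with _ | _ | a
    · rw [List.filter_cons_of_neg (by simp), List.count_cons_of_ne (by simp), Tl_cons,
        sum_range_one, ← ih]
      simp
    · rw [List.filter_cons_of_neg (by simp), zero_add, List.count_cons_self, Tl_cons,
        sum_range_succ, sum_range_one, ih, ih fun w d j d' j' => F (w + 1) _ _ _ _, ← Tl_add]
      congr 1
      funext w d j d' j'
      rw [sum_choose_succ_mul fun t _ => F (w + t) d j d' j']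
      simp [add_assoc]
    · rw [List.filter_cons_of_pos (by simp), List.count_cons_of_ne (by simp), Tl_cons, Tl_cons]
      refine sum_congr rfl fun b _ => ?_
      rw [ih]
      congr 1
      funext w d j d' j'
      refine sum_congr rfl fun t _ => ?_
      rw [add_right_comm]

theorem sum_filter_count (l : List ℕ) :
    l.sum = (l.filter fun a => 2 ≤ a).sum + l.count 1 := by
  induction l with
  | nil => simp
  | cons a l ih =>
    rcases a with _ | _ | a
    · rw [List.filter_cons_of_neg (by simp), List.count_cons_of_ne (by simp), List.sum_cons, ih]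
      omega
    · rw [List.filter_cons_of_neg (by simp), zero_add, List.count_cons_self, List.sum_cons, ih]
      omega
    · rw [List.filter_cons_of_pos (by simp), List.count_cons_of_ne (by simp), List.sum_cons,
        List.sum_cons, ih]
      omega

theorem pick0 (q W w : ℕ) :
    ∑ t ∈ range (q + 1), (q.choose t : ℝ) * (if w + t = W then 1 else 0) = ch q W w := by
  unfold ch
  split_ifs with h
  · rw [sum_eq_single (W - w)]
    · rw [if_pos (by omega), mul_one]
    · intro t _ ht
      rw [if_neg (by omega), mul_zero]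
    · intro ht
      rw [mem_range] at ht
      rw [Nat.choose_eq_zero_of_lt (by omega)]
      simp
  · rw [Nat.cast_zero]
    exact sum_eq_zero fun t _ => by rw [if_neg (by omega), mul_zero]

theorem pick (q c W w : ℕ) (hc : c ≤ 1) :
    ∑ t ∈ range (q + 1), (q.choose t : ℝ) * (if w + t ≤ W ∧ W ≤ w + t + c then 1 else 0) =
      ch (q + c) W w := by
  rcases Nat.le_one_iff_eq_zero_or_eq_one.1 hc with rfl | rfl
  · rw [add_zero, ← pick0]
    refine sum_congr rfl fun t _ => ?_
    by_cases h : w + t = W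
    · rw [if_pos h, if_pos (by omega)]
    · rw [if_neg h, if_neg (by omega)]
  · rw [← pick0, sum_choose_succ_mul fun t _ => if w + t = W then (1 : ℝ) else 0,
      ← sum_add_distrib]
    refine sum_congr rfl fun t _ => ?_
    rw [← mul_add]
    congr 1
    split_ifs <;> first | omega | simp

end Splitaux

open Splitaux in
theorem pSplit : SSplit := by
  intro m e N R W W' g g' x he hW hR h1 h2
  obtain ⟨c, hc⟩ : ∃ c, N = nrm x + c := ⟨N - nrm x, by omega⟩
  have hs : ∑ y ∈ Bx m R, sh e W g y * sh e W' g' (x - y) =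
      ∑ y ∈ seg x, sh e W g y * sh e W' g' (x - y) := by
    refine (sum_subset (fun y hy => mem_Bx_of_nrm ?_) fun y _ hy => ?_).symm
    · have := seg_nrm hy
      omega
    · by_contra hne
      have a1 := sh_ne (left_ne_zero_of_mul hne)
      have a2 := sh_ne (right_ne_zero_of_mul hne)
      have a3 := nrm_sub_mod x y
      exact hy (seg_of_nrm (by omega))
  have hq : N - (cl x).sum = (List.ofFn fun i => (x i).natAbs).count 1 + c := by
    have := sum_filter_count (List.ofFn fun i => (x i).natAbs)
    rw [List.sum_ofFn] at this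
    change nrm x = (cl x).sum + _ at this
    omega
  have ht := seg_Tl m x fun w d j d' j' =>
    (if w ≤ W ∧ W ≤ w + c then 1 else 0) * (g d j * g' d' j')
  rw [Tl_filter] at ht
  rw [hs, hq]
  refine Eq.trans (sum_congr rfl fun y hy => ?_) (ht.trans ?_)
  · have := seg_nrm hy
    unfold sh
    by_cases h : nrm y ≤ W ∧ W ≤ nrm y + c
    · rw [if_pos h, if_pos (by omega), if_pos (by omega), one_mul]
    · rw [if_neg h, zero_mul]
      by_cases h' : nrm y ≤ W ∧ W ≤ nrm y + e
      · rw [if_neg (show ¬ (nrm (x - y) ≤ W' ∧ W' ≤ nrm (x - y) + e) by omega), mul_zero]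
      · rw [if_neg h', zero_mul]
  · unfold cl
    congr 1
    funext w d j d' j'
    rw [← pick _ c W w (by omega), sum_mul]
    exact sum_congr rfl fun t _ => (mul_assoc _ _ _).symm

end Pool.Agent.P.MP_d10a06_co.GW
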