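import Pool.Agent.P.MP_d10a06_co.GW.Loc

set_option autoImplicit false

namespace Pool.Agent.P.MP_d10a06_co.GW

open Finset Filter
open scoped Classical

theorem MM_nonneg (m s : ℕ) : 0 ≤ MM m s := by unfold MM; positivity

theorem MM_small (A : SAsy) (s : ℕ) (K : ℝ) : ∀ᶠ m : ℕ in atTop, K * MM m s ≤ MM m (s + 1) := by
  filter_upwards [tendsto_natCast_atTop_atTop.eventually_ge_atTop (s + K * (s + 1) / 2 : ℝ)]
    with m hm
  refine le_of_mul_le_mul_right ?_ (show (0 : ℝ) < s + 1 by positivity)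
  rw [A.ratio, mul_right_comm]
  exact mul_le_mul_of_nonneg_right (by linarith) (MM_nonneg _ _)

theorem fin_asy (A : SAsy) (s : ℕ) {a b : ℝ} (K : ℝ) (h : a < 0 ∨ a = 0 ∧ b < 0) :
    ∃ c : ℝ, 0 < c ∧ ∀ᶠ m : ℕ in atTop,
      a * MM m (s + 2) + b * MM m (s + 1) + K * MM m s ≤ -c * MM m (s + 1) := by
  rcases h with h | ⟨rfl, h⟩
  · refine ⟨1, one_pos, ?_⟩
    filter_upwards [MM_small A s K, MM_small A (s + 1) ((b + 2) / -a)] with m h1 h2
    rw [div_mul_eq_mul_div, div_le_iff₀ (neg_pos.2 h)] at h2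
    linarith
  · refine ⟨-b / 2, by linarith, ?_⟩
    filter_upwards [MM_small A s (K / (-b / 2))] with m h1
    rw [div_mul_eq_mul_div, div_le_iff₀ (by linarith)] at h1
    linarith

/-- the conclusion for one residue class of the number of directions -/
def Goal (e r ρ : ℕ) : Prop := ∃ K : ℝ, 0 ≤ K ∧ ∀ᶠ m : ℕ in atTop,
  ∀ (G : Type) [AddCommGroup G] [Fintype G] (S : Code m e r G), r + 1 ∣ 2 * m + e + ρ →
    S.δ * MM m (r - 1) ≤ K * m * S.U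

namespace Code

variable {m e r : ℕ} {G : Type} [AddCommGroup G] (S : Code m e r G)

theorem om_cases (h : G) : S.om h = 0 ∨ 1 ≤ S.om h := by
  obtain ⟨n, hn⟩ : IsN (S.om h) := IsN.DS e fun _ => IsN.ite _
  rw [hn]
  rcases Nat.eq_zero_or_pos n with rfl | a
  · simp
  · exact Or.inr (by exact_mod_cast a)

theorem deep_D (D : SDir) {h : G} (a : S.Dp h) (b : S.om h = 0) {ρ : ℕ} (hρ : ρ ≤ r)
    (c : r + 1 ∣ 2 * m + e + ρ) :
    ∃ j : ℕ, S.cv (sh e (r + 1) fun d _ => (d : ℝ)) h = ρ + (r + 1) * j := by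
  have h1 := S.deep_eq D a
  obtain ⟨n, hn⟩ := S.cv_isN (IsN.sh e (r + 1) (g := fun _ _ => 1) fun _ _ => ⟨1, by simp⟩) h
  obtain ⟨d, hd⟩ := S.cv_isN (IsN.sh e (r + 1) (g := fun d _ => (d : ℝ)) fun d _ => ⟨d, rfl⟩) h
  rw [b, hn, hd, zero_add] at h1
  have h2 : (r + 1) * n = 2 * m + e + d := by exact_mod_cast h1
  have h3 : d ≡ ρ [MOD r + 1] := Nat.ModEq.add_left_cancel' (2 * m + e)
    ((Nat.modEq_zero_iff_dvd.2 ⟨n, h2.symm⟩).trans (Nat.modEq_zero_iff_dvd.2 c).symm)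
  refine ⟨d / (r + 1), ?_⟩
  have h4 := Nat.mod_add_div d (r + 1)
  rw [h3, Nat.mod_eq_of_lt (by omega)] at h4
  rw [hd]
  exact_mod_cast h4.symm

theorem up_pt (D : SDir) (ψ : ℕ → ℕ → ℝ) {ρ : ℕ} (hρ : ρ ≤ r) (c : r + 1 ∣ 2 * m + e + ρ) (h : G) :
    0 ≤ S.cv (sh e (r + 1) ψ) h ^ 2 - (2 * ρ + r + 1) * S.cv (sh e (r + 1) ψ) h +
      ρ * (ρ + r + 1) * S.dp h +
      S.cv (sh e (r + 1) fun d j => if ψ d j = d then 0 else (r + 1) ^ 2 / 4) h +
      (r + 1) ^ 2 / 4 * S.om h := by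
  have p0 : ∀ y : V m, 0 ≤ sh e (r + 1) (fun d j => if ψ d j = d then 0 else (r + 1) ^ 2 / 4) y :=
    sh_nonneg _ _ fun d j => by split_ifs <;> positivity
  have p1 := S.cv_nonneg p0 h
  have p2 := mul_nonneg (show (0 : ℝ) ≤ (r + 1) ^ 2 / 4 by positivity) (S.om_nonneg h)
  unfold dp
  split_ifs with a
  swap
  · rw [S.not_deep a ψ]
    linarith
  have p3 := sq_nonneg (S.cv (sh e (r + 1) ψ) h - ρ - (r + 1) / 2)
  rcases S.om_cases h with b | b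
  swap
  · have := mul_le_mul_of_nonneg_left b (show (0 : ℝ) ≤ (r + 1) ^ 2 / 4 by positivity)
    linarith
  by_cases d : ∀ y, S.C (h + S.φ y) → sh e (r + 1) ψ y = sh e (r + 1) (fun d _ => (d : ℝ)) y
  · obtain ⟨j, hj⟩ := S.deep_D D a b hρ c
    rw [S.cv_congr d, hj]
    have : (0 : ℝ) ≤ j * (j - 1) := by
      rcases Nat.eq_zero_or_pos j with rfl | t
      · simp
      · exact mul_nonneg j.cast_nonneg (sub_nonneg.2 (by exact_mod_cast t))
    have := mul_nonneg (sq_nonneg (r + 1 : ℝ)) this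
    linarith
  · push Not at d
    obtain ⟨y, d1, d2⟩ := d
    have d3 : nrm y ≤ r + 1 ∧ r + 1 ≤ nrm y + e := by
      by_contra t
      exact d2 (by rw [sh, sh, if_neg t, if_neg t])
    have := S.le_cv p0 d1 (by omega)
    rw [sh, sh, if_pos d3, if_pos d3] at d2
    rw [sh, if_pos d3, if_neg d2] at this
    linarith

variable [Fintype G]

theorem pair_mono {f g : V m → ℝ} (a : ∀ x, 2 * r + 2 ≤ nrm x + e → f x ≤ g x) :
    ∑ c, S.I c * S.cv (fun x => if x = 0 then 0 else f x) c ≤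
      ∑ c, S.I c * S.cv (fun x => if x = 0 then 0 else g x) c := sum_le_sum fun c _ => by
  unfold I
  split_ifs with hc
  · refine mul_le_mul_of_nonneg_left (S.cv_mono fun x b => ?_) zero_le_one
    split_ifs with d
    exacts [le_rfl, a x (S.sep c x hc b d)]
  · simp

theorem up_sum (D : SDir) (hm : 0 < m) (hr : 1 ≤ r) {ψ β : ℕ → ℕ → ℝ} {L : ℝ}
    (hL : ∀ d j, |β d j| ≤ L) (h0 : ∀ j, β 0 j = 0)
    (ce : ∀ x : V m, 2 * r + 2 ≤ nrm x + e →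
      ∑ y ∈ Bx m (2 * r + 4), sh e (r + 1) ψ y * sh e (r + 1) ψ (x - y) ≤
        ∑ p ∈ Bx m (2 * r + 4), sh e (r + 2) β p * bl r (x - p))
    {ρ : ℕ} (hρ : ρ ≤ r) (c : r + 1 ∣ 2 * m + e + ρ) :
    0 ≤ S.δ * (∑ y ∈ Bx m (2 * r + 4), sh e (r + 1) (fun d j => ψ d j ^ 2) y +
      ∑ y ∈ Bx m (2 * r + 4), sh e (r + 2) β y -
      (2 * ρ + r + 1) * ∑ y ∈ Bx m (2 * r + 4), sh e (r + 1) ψ y +
      ρ * (ρ + r + 1) * ∑ y ∈ Bx m (2 * r + 4), (ballF e r y - shalF e r y) +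
      ∑ y ∈ Bx m (2 * r + 4),
        sh e (r + 1) (fun d j => if ψ d j = d then 0 else (r + 1) ^ 2 / 4) y) +
      (2 * L + ρ * (ρ + r + 1) + (r + 1) ^ 2) * m * S.U := by
  have h1 := sum_nonneg (s := univ) fun h _ => S.up_pt D ψ hρ c h
  simp only [sum_add_distrib, sum_sub_distrib, ← mul_sum, sum_cv, sum_om, S.sum_dp hm hr] at h1
  rw [S.pair (sh_neg _ _ _) fun y a => by have := (sh_ne a).1; omega] at h1
  have h2 := S.pair_mono ce
  have h3 := (abs_le.1 (S.cover D hL h0)).2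
  simp only [sh_sq] at h1
  have h4 : (1 : ℝ) ≤ m := by exact_mod_cast hm
  have h5 : (e : ℝ) ≤ 1 := by exact_mod_cast S.he
  have h6 := mul_nonneg (mul_nonneg (show (0 : ℝ) ≤ ρ * (ρ + r + 1) by positivity)
    (sub_nonneg.2 h4)) S.U_nonneg
  have h7 := mul_nonneg (mul_nonneg (sq_nonneg (r + 1 : ℝ))
    (show (0 : ℝ) ≤ 2 * m - e by linarith)) S.U_nonneg
  simp only [sum_sub_distrib]
  linarith

end Code

theorem abs_bet {b22 b33 b31 b30 L4 L : ℚ} (h : |b22| ≤ L) (h3 : |b33| ≤ L) (h1 : |b31| ≤ L)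
    (h0 : |b30| ≤ L) (h4 : |L4| ≤ L) (d j : ℕ) : |rc (bet b22 b33 b31 b30 L4) d j| ≤ L := by
  have : |bet b22 b33 b31 b30 L4 d j| ≤ L := by
    unfold bet
    split_ifs <;> first | assumption | simpa using (abs_nonneg _).trans h
  unfold rc
  exact_mod_cast this

theorem upper (D : SDir) (A : SAsy) (Ce : SCertU) {e r ρ : ℕ} (he : e ≤ 1) (hr : 4 ≤ r)
    (hρ : ρ < r) : Goal e r ρ := by
  obtain ⟨θ, hθ, h2, h3⟩ : ∃ θ : ℚ, (θ = 2 ∨ θ = (3 - r) / 2) ∧ (ρ ≠ 0 → θ = 2) ∧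
      (ρ = 0 → θ = (3 - r) / 2) := by
    rcases Nat.eq_zero_or_pos ρ with h | h
    · exact ⟨_, Or.inr rfl, fun a => absurd h a, fun _ => rfl⟩
    · exact ⟨_, Or.inl rfl, fun _ => rfl, fun a => by omega⟩
  obtain ⟨b33, b31, b30, L, l1, l2, l3, l4, l5, l6⟩ := Ce r θ hr hθ
  obtain ⟨s, rfl⟩ : ∃ s, r = s + 2 := ⟨r - 2, by omega⟩
  have s2 : (2 : ℝ) ≤ s := by exact_mod_cast (by omega : 2 ≤ s)
  have l0 : (0 : ℚ) ≤ 2 * (s + 2 : ℕ) / ((s + 2 : ℕ) - 1) :=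
    div_nonneg (by positivity) (by push_cast; linarith [(s.cast_nonneg : (0 : ℚ) ≤ s)])
  have hL := abs_bet (L := L) (by rwa [abs_of_nonneg l0]) l2 l3 l4 (abs_of_nonneg (l0.trans l1)).le
  have L0 : (0 : ℝ) ≤ L := (abs_nonneg _).trans (hL 0 0)
  obtain ⟨K1, -, k1⟩ := A.shA e s (fun d j => rc (psi θ) d j ^ 2) he (by simp [rc, psi])
  obtain ⟨K2, -, k2⟩ := A.shB e s (rc (bet (2 * (s + 2 : ℕ) / ((s + 2 : ℕ) - 1)) b33 b31 b30 L)) he
    (by simp [rc, bet]) (by simp [rc, bet]) (by simp [rc, bet])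
  obtain ⟨K3, -, k3⟩ := A.shA e s (rc (psi θ)) he (by simp [rc, psi])
  obtain ⟨K4, -, k4⟩ := A.deep e s he
  obtain ⟨K5, -, k5⟩ := A.shA e s (fun d j => if rc (psi θ) d j = d then 0 else
    (((s + 2 : ℕ) : ℝ) + 1) ^ 2 / 4) he (by simp [rc, psi])
  have e2 : rc (bet (2 * (s + 2 : ℕ) / ((s + 2 : ℕ) - 1)) b33 b31 b30 L) 2 2 =
      2 * (s + 2) / (s + 1) := by
    simp only [rc, bet]; push_cast; ring
  have l5' : ((s : ℝ) + 1) * b30 + (s + 1) * s * b31 + (s + 1) * s * (s - 1) / 6 * b33 ≤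
      (s + 2) * (s + 1) * (2 * θ + s - 2) + 11 / 4 := by
    have := (Rat.cast_le (K := ℝ)).2 l5
    push_cast at this
    linarith
  obtain ⟨c, c0, hc⟩ := fin_asy A s (a := ρ * (ρ - s - 1)) (b := (s + 1) * θ ^ 2 + 2 * (s + 1) * s +
      e * (s + 1) + ((s + 2) * (s + 1) * (2 * θ + s - 2) + 11 / 4 + e * (s * (s + 2))) -
      (2 * ρ + s + 3) * ((s + 1) * θ + (s + 1) * s + e * (s + 1)) + ρ * (ρ + s + 3) * (s + e) +
      (s + 1) * if (θ : ℝ) = 2 then 0 else ((s : ℝ) + 3) ^ 2 / 4)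
      (K1 + K2 + (2 * ρ + s + 3) * K3 + ρ * (ρ + s + 3) * K4 + K5) (by
    have he' : (e : ℝ) = 0 ∨ (e : ℝ) = 1 := by
      rcases Nat.le_one_iff_eq_zero_or_eq_one.1 he with rfl | rfl <;> simp
    rcases Nat.eq_zero_or_pos ρ with h | h
    · refine Or.inr ⟨by simp [h], ?_⟩
      have t : (θ : ℝ) = (1 - s) / 2 := by rw [h3 h]; push_cast; ring
      rw [h, t, if_neg (by linarith)]
      rcases he' with t | t <;> rw [t] <;> push_cast <;> linarith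
    · rcases (show ρ ≤ s + 1 by omega).eq_or_lt with h' | h'
      · refine Or.inr ⟨by simp [h'], ?_⟩
        rw [h2 h.ne', h', if_pos (by simp)]
        rcases he' with t | t <;> rw [t] <;> push_cast <;> nlinarith
      · have : (ρ : ℝ) < s + 1 := by exact_mod_cast h'
        exact Or.inl (mul_neg_of_pos_of_neg (by exact_mod_cast h) (by linarith)))
  refine ⟨(2 * L + ρ * (ρ + (s + 2 : ℕ) + 1) + ((s + 2 : ℕ) + 1) ^ 2) / c, by positivity, ?_⟩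
  filter_upwards [hc, eventually_ge_atTop (2 * s + 1)] with m m1 m2 G _ _ S hd
  have u := S.up_sum D (by omega) (by omega) hL (fun j => by simp [rc, bet])
    (fun x a => l6 m e x he a) hρ.le hd
  have k1 := (abs_le.1 (k1 m (by omega))).2
  have k2 := (abs_le.1 (k2 m (by omega))).2
  have k3 := mul_le_mul_of_nonneg_left (abs_le.1 (k3 m (by omega))).1
    (show (0 : ℝ) ≤ 2 * ρ + s + 3 by positivity)
  have k4 := mul_le_mul_of_nonneg_left (abs_le.1 (k4 m (by omega))).2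
    (show (0 : ℝ) ≤ ρ * (ρ + s + 3) by positivity)
  have k5 := (abs_le.1 (k5 m (by omega))).2
  rw [e2, show ((s : ℝ) + 2) * (s + 1) / 2 * (2 * (s + 2) / (s + 1)) = (s + 2) ^ 2 by field_simp,
    show ((s : ℝ) + 1) * s / 2 * (2 * (s + 2) / (s + 1)) = s * (s + 2) by field_simp] at k2
  have l6 := mul_le_mul_of_nonneg_right l5' (MM_nonneg m (s + 1))
  rw [div_mul_eq_mul_div, div_mul_eq_mul_div, le_div_iff₀ c0, show s + 2 - 1 = s + 1 from rfl]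
  refine le_trans ?_ (neg_le_iff_add_nonneg'.2 u)
  rw [mul_assoc, ← mul_neg]
  refine mul_le_mul_of_nonneg_left ?_ S.δ_nonneg
  generalize ∑ y ∈ Bx m (2 * (s + 2) + 4), sh e (s + 2 + 1) _ y = X1 at k1 ⊢
  generalize ∑ y ∈ Bx m (2 * (s + 2) + 4), sh e (s + 2 + 1) _ y = X3 at k3 ⊢
  generalize ∑ y ∈ Bx m (2 * (s + 2) + 4), sh e (s + 2 + 1) _ y = X5 at k5 ⊢
  generalize ∑ y ∈ Bx m (2 * (s + 2) + 4), sh e (s + 2 + 2) _ y = X2 at k2 ⊢
  simp [rc, psi, bet] at k1 k2 k3 k5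
  push_cast
  split_ifs at k5 m1 <;> linarith

end Pool.Agent.P.MP_d10a06_co.GW
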